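import Pool.Agent.H73.PolishHomeo.FlagsInv

/-!
# Coding `Σ¹₂` relations by constraint systems
-/

set_option autoImplicit false

open Set Topology Filter

namespace Pool.Agent.H73.PolishHomeo

section ini

variable {α β : Type}

/-- initial segment of length `n` -/
def ini (p : ℕ → α) (n : ℕ) : List α := (List.range n).map p

@[simp] lemma ini_length (p : ℕ → α) (n : ℕ) : (ini p n).length = n := by simp [ini]

@[simp] lemma ini_getElem (p : ℕ → α) (n i : ℕ) (h : i < (ini p n).length) :
    (ini p n)[i] = p i := by simp [ini]

lemma ini_map (f : α → β) (p : ℕ → α) (n : ℕ) : (ini p n).map f = ini (fun i => f (p i)) n := by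
  simp [ini, Function.comp_def]

lemma ini_eq_iff (p q : ℕ → α) (n : ℕ) : ini p n = ini q n ↔ ∀ i < n, p i = q i := by
  simp [ini]

lemma ini_succ (p : ℕ → α) (n : ℕ) : ini p (n + 1) = ini p n ++ [p n] := by
  simp [ini, List.range_succ]

lemma ini_eq_of_le {p q : ℕ → α} {m n : ℕ} (h : m ≤ n) (he : ini p n = ini q n) :
    ini p m = ini q m := by
  rw [ini_eq_iff] at he ⊢
  exact fun i hi => he i (by omega)

lemma prefix_iff_take' {l l' : List α} : l <+: l' ↔ l = l'.take l.length :=
  List.prefix_iff_eq_take

lemma take_ini (p : ℕ → α) {m n : ℕ} (h : m ≤ n) : (ini p n).take m = ini p m := by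
  apply List.ext_getElem
  · simp [h]
  · intro i h1 h2
    simp

lemma ini_prefix (p : ℕ → α) {m n : ℕ} (h : m ≤ n) : ini p m <+: ini p n := by
  rw [← take_ini p h]
  exact List.take_prefix _ _

lemma eq_ini_of_prefix {l : List α} {p : ℕ → α} {n : ℕ} (h : l <+: ini p n) :
    l = ini p l.length := by
  have h1 := List.prefix_iff_eq_take.1 h
  have h2 : l.length ≤ n := by simpa using h.length_le
  rwa [take_ini p h2] at h1

lemma isOpen_ini [TopologicalSpace α] [DiscreteTopology α] (p : ℕ → α) (n : ℕ) :
    IsOpen {q : ℕ → α | ini q n = ini p n} := by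
  have : {q : ℕ → α | ini q n = ini p n} =
      ⋂ i ∈ Finset.range n, (fun q : ℕ → α => q i) ⁻¹' {p i} := by
    ext q
    simp only [mem_iInter, Finset.mem_range, mem_preimage, mem_singleton_iff]
    exact ini_eq_iff q p n
  rw [this]
  exact isOpen_biInter_finset fun i _ => (isOpen_discrete _).preimage (continuous_apply i)

end ini

/-- the alphabet -/
abbrev B3 : Type := Bool × Bool × Bool

/-- first projection -/
def pr1 (c : B3) : Bool := c.1

/-- second projection -/
def pr2 (c : B3) : Bool := c.2.1

lemma exists_eK : Nonempty ((List B3 × ℕ) ≃ ℕ) := nonempty_equiv_of_countable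

/-- coding of labels -/
noncomputable def eK : (List B3 × ℕ) ≃ ℕ := Classical.choice exists_eK

/-- label -/
noncomputable def labK (m : ℕ) : List B3 := (eK.symm m).1

lemma labK_eK (u : List B3) (n : ℕ) : labK (eK (u, n)) = u := by simp [labK]

/-- the tree of attempts at a point of `CW` -/
def T1 (CW : Set ((ℕ → B3) × (ℕ → ℕ))) : Set (List ℕ) :=
  {t | ∃ p z, (p, z) ∈ CW ∧ t = ini (fun i => eK (ini p (i + 1), z i)) t.length}

/-- the tree of antichains -/
def T2 : Set (List ℕ) :=
  {t | ∀ i j, ∀ (hi : i < t.length) (hj : j < t.length), i < j →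
    ¬ (labK t[i] <+: labK t[j]) ∧ ¬ (labK t[j] <+: labK t[i])}

open Classical in
/-- The variables of the constraints. -/
noncomputable def SS : (List B3 ⊕ (Bool × List Bool)) → Finset (List B3)
  | Sum.inl u => insert u (Finset.univ.image (fun b => u ++ [b]))
  | Sum.inr (b, w) => ((List.finite_length_eq B3 (w.length + 1)).toFinset).filter
      (fun u => ¬ (u.map pr1 = b :: w ↔ u.map pr2 = b :: w))

lemma SS_ne (i : List B3 ⊕ (Bool × List Bool)) : (SS i).Nonempty := by
  rcases i with u | ⟨b, w⟩
  · exact ⟨u, Finset.mem_insert_self _ _⟩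
  · refine ⟨(b :: w).map (fun c => (c, !c, false)), ?_⟩
    simp only [SS, Finset.mem_filter, Set.Finite.mem_toFinset]
    refine ⟨by simp, ?_⟩
    have h1 : ((b :: w).map (fun c => ((c, !c, false) : B3))).map pr1 = b :: w := by
      simp [pr1, Function.comp_def]
    have h2 : ((b :: w).map (fun c => ((c, !c, false) : B3))).map pr2 ≠ b :: w := by
      simp [pr2]
    tauto

/-- The constraint system attached to `CW`. -/
noncomputable def DD (CW : Set ((ℕ → B3) × (ℕ → ℕ))) : FlagData where
  K := List B3
  L := List B3 ⊕ (Bool × List Bool)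
  countK := inferInstance
  countL := inferInstance
  S := SS
  S_ne := SS_ne
  lab := labK
  T := T1 CW ∪ T2

lemma isTree_DD (CW : Set ((ℕ → B3) × (ℕ → ℕ))) : (DD CW).IsTree := by
  intro t n ht
  rcases le_or_gt n t.length with hn | hn
  · rcases ht with ⟨p, z, hpz, ht⟩ | ht
    · left
      refine ⟨p, z, hpz, ?_⟩
      conv_lhs => rw [ht]
      rw [take_ini _ hn]
      congr 1
      simp [hn]
    · right
      intro i j hi hj hij
      rw [List.length_take] at hi hj
      simp only [List.getElem_take]
      exact ht i j (by omega) (by omega) hij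
  · rw [List.take_of_length_le hn.le]
    exact ht

/-- The right-hand sides attached to a point of Cantor space. -/
def dd (x : ℕ → Bool) : Set (List B3 ⊕ (Bool × List Bool)) :=
  {i | ∃ b w, i = Sum.inr (b, w) ∧ b :: w = ini x (w.length + 1)}

lemma inl_notMem_dd (x : ℕ → Bool) (u : List B3) : Sum.inl u ∉ dd x := by
  rintro ⟨b, w, h, -⟩
  cases h

lemma inr_mem_dd (x : ℕ → Bool) (b : Bool) (w : List Bool) :
    Sum.inr (b, w) ∈ dd x ↔ b :: w = ini x (w.length + 1) := by
  constructor
  · rintro ⟨b', w', h, h2⟩
    obtain ⟨rfl, rfl⟩ : b = b' ∧ w = w' := by simpa using h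
    exact h2
  · intro h
    exact ⟨b, w, rfl, h⟩

open Classical in
/-- the active variables of a constraint -/
noncomputable def JK (C : Set (List B3)) (i : List B3 ⊕ (Bool × List Bool)) : Finset (List B3) :=
  (SS i).filter (· ∈ C)

lemma mem_JK {C : Set (List B3)} {i : List B3 ⊕ (Bool × List Bool)} {v : List B3} :
    v ∈ JK C i ↔ v ∈ SS i ∧ v ∈ C := by
  classical
  exact Finset.mem_filter

lemma mem_SS_inl {u v : List B3} : v ∈ SS (Sum.inl u) ↔ v = u ∨ ∃ b, v = u ++ [b] := by
  classical
  simp only [SS, Finset.mem_insert, Finset.mem_image, Finset.mem_univ, true_and]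
  constructor
  · rintro (h | ⟨b, hb⟩)
    · exact Or.inl h
    · exact Or.inr ⟨b, hb.symm⟩
  · rintro (h | ⟨b, hb⟩)
    · exact Or.inl h
    · exact Or.inr ⟨b, hb.symm⟩

lemma mem_SS_inr {b : Bool} {w : List Bool} {v : List B3} : v ∈ SS (Sum.inr (b, w)) ↔
    v.length = w.length + 1 ∧ ¬ (v.map pr1 = b :: w ↔ v.map pr2 = b :: w) := by
  classical
  simp only [SS, Finset.mem_filter, Set.Finite.mem_toFinset]
  exact Iff.rfl

/-- `C` solves the parity constraints for `d` and `d'`. -/
def ParK (C : Set (List B3)) (d d' : Set (List B3 ⊕ (Bool × List Bool))) : Prop :=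
  ∀ i, (Odd (JK C i).card ↔ ¬ (i ∈ d ↔ i ∈ d'))

/-- `C` meets every infinite branch finitely often. -/
def ConvK (CW : Set ((ℕ → B3) × (ℕ → ℕ))) (C : Set (List B3)) : Prop :=
  ∀ β : ℕ → ℕ, (∀ n, ini β (n + 1) ∈ T1 CW ∪ T2) → {n | labK (β n) ∈ C}.Finite

lemma par_iff (CW : Set ((ℕ → B3) × (ℕ → ℕ))) (C : Set (List B3))
    (d d' : Set (List B3 ⊕ (Bool × List Bool))) : (DD CW).Par C d d' ↔ ParK C d d' := Iff.rfl

lemma conv_iff (CW : Set ((ℕ → B3) × (ℕ → ℕ))) (C : Set (List B3)) :
    (DD CW).Conv C ↔ ConvK CW C := Iff.rfl

section forward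

variable {CW : Set ((ℕ → B3) × (ℕ → ℕ))} (hCW : IsClosed CW)

/-- the set of initial segments of a point -/
def segs (p : ℕ → B3) : Set (List B3) := {u | ∃ n, u = ini p n}

lemma par_segs (p : ℕ → B3) :
    ParK (segs p) (dd (fun i => pr1 (p i))) (dd (fun i => pr2 (p i))) := by
  classical
  intro i
  rcases i with u | ⟨b, w⟩
  · have h1 : ¬ ¬ ((Sum.inl u : List B3 ⊕ (Bool × List Bool)) ∈ dd (fun i => pr1 (p i)) ↔
        (Sum.inl u : List B3 ⊕ (Bool × List Bool)) ∈ dd (fun i => pr2 (p i))) := by
      simp [inl_notMem_dd]
    have h2 : ¬ Odd (JK (segs p) (Sum.inl u)).card := by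
      by_cases hu : u ∈ segs p
      · obtain ⟨n, rfl⟩ := hu
        have h3 : JK (segs p) (Sum.inl (ini p n)) = {ini p n, ini p n ++ [p n]} := by
          ext v
          rw [mem_JK, mem_SS_inl, Finset.mem_insert, Finset.mem_singleton]
          constructor
          · rintro ⟨rfl | ⟨b, rfl⟩, m, hm⟩
            · exact Or.inl rfl
            · right
              have hlen : n + 1 = m := by
                have := congrArg List.length hm
                simpa using this
              subst hlen
              rw [ini_succ] at hm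
              exact hm
          · rintro (rfl | rfl)
            · exact ⟨Or.inl rfl, n, rfl⟩
            · exact ⟨Or.inr ⟨p n, rfl⟩, n + 1, (ini_succ p n).symm⟩
        rw [h3, Finset.card_pair]
        · decide
        · intro h
          have := congrArg List.length h
          simp at this
      · have h3 : JK (segs p) (Sum.inl u) = ∅ := by
          apply Finset.eq_empty_of_forall_notMem
          intro v hv
          rw [mem_JK, mem_SS_inl] at hv
          obtain ⟨rfl | ⟨b, rfl⟩, m, hm⟩ := hv
          · exact hu ⟨m, hm⟩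
          · apply hu
            refine ⟨u.length, ?_⟩
            apply eq_ini_of_prefix (n := m)
            rw [← hm]
            exact List.prefix_append _ _
        rw [h3]
        simp
    exact ⟨fun h => absurd h h2, fun h => absurd h h1⟩
  · rw [inr_mem_dd, inr_mem_dd]
    have h1 : JK (segs p) (Sum.inr (b, w)) =
        if ¬ (b :: w = ini (fun i => pr1 (p i)) (w.length + 1) ↔
          b :: w = ini (fun i => pr2 (p i)) (w.length + 1)) then {ini p (w.length + 1)} else ∅ := by
      ext v
      rw [mem_JK, mem_SS_inr]
      constructor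
      · rintro ⟨⟨hv1, hv2⟩, m, rfl⟩
        have hm : m = w.length + 1 := by simpa using hv1
        subst hm
        rw [ini_map, ini_map] at hv2
        have h3 : ¬ (b :: w = ini (fun i => pr1 (p i)) (w.length + 1) ↔
          b :: w = ini (fun i => pr2 (p i)) (w.length + 1)) := by
          intro h
          apply hv2
          constructor
          · intro h4
            exact (h.1 h4.symm).symm
          · intro h4
            exact (h.2 h4.symm).symm
        rw [if_pos h3]
        exact Finset.mem_singleton_self _
      · intro hv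
        split_ifs at hv with h3
        · exact absurd hv (Finset.notMem_empty _)
        · rw [Finset.mem_singleton] at hv
          subst hv
          refine ⟨⟨ini_length _ _, ?_⟩, _, rfl⟩
          rw [ini_map, ini_map]
          intro h
          apply h3
          constructor
          · intro h4
            exact (h.1 h4.symm).symm
          · intro h4
            exact (h.2 h4.symm).symm
    rw [h1]
    split_ifs with h3
    · simp [h3]
    · simp [h3]

include hCW in
lemma conv_segs {p : ℕ → B3} (hp : ∀ z, (p, z) ∉ CW) : ConvK CW (segs p) := by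
  intro β hβ
  by_contra hinf
  have hinf' : {n | labK (β n) ∈ segs p}.Infinite := hinf
  by_cases hall : ∀ n, ini β (n + 1) ∈ T1 CW
  · -- a branch of the first tree
    choose P Zs hPZ hP using hall
    have h1 : ∀ n, ∀ i ≤ n, β i = eK (ini (P n) (i + 1), Zs n i) := by
      intro n i hi
      have h2 := hP n
      rw [ini_length] at h2
      rw [ini_eq_iff] at h2
      exact h2 i (by omega)
    have h2 : ∀ i, ∀ n, i ≤ n → ini (P n) (i + 1) = ini (P i) (i + 1) ∧ Zs n i = Zs i i := by
      intro i n hin
      have e1 := h1 n i hin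
      have e2 := h1 i i le_rfl
      rw [e1] at e2
      have := eK.injective e2
      simpa using this
    let q : ℕ → B3 := fun i => P i i
    let z : ℕ → ℕ := fun i => Zs i i
    have h3 : ∀ n i, i ≤ n → P n i = q i := by
      intro n i hi
      have := (h2 i n hi).1
      rw [ini_eq_iff] at this
      exact this i (by omega)
    have hlim : Tendsto (fun n => (P n, Zs n)) atTop (𝓝 (q, z)) := by
      apply Tendsto.prodMk_nhds
      · rw [tendsto_pi_nhds]
        intro i
        apply tendsto_const_nhds.congr'
        filter_upwards [eventually_ge_atTop i] with n hn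
        exact (h3 n i hn).symm
      · rw [tendsto_pi_nhds]
        intro i
        apply tendsto_const_nhds.congr'
        filter_upwards [eventually_ge_atTop i] with n hn
        exact ((h2 i n hn).2).symm
    have hqz : (q, z) ∈ CW := hCW.mem_of_tendsto hlim (Eventually.of_forall hPZ)
    have hlab : ∀ i, labK (β i) = ini q (i + 1) := by
      intro i
      rw [h1 i i le_rfl, labK_eK, ini_eq_iff]
      intro j hj
      exact h3 i j (by omega)
    have hpq : p = q := by
      funext i
      obtain ⟨n, ⟨m, hm⟩, hn⟩ := Set.Infinite.exists_gt hinf' i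
      rw [hlab] at hm
      have hlen : n + 1 = m := by
        have := congrArg List.length hm
        simpa using this
      subst hlen
      rw [ini_eq_iff] at hm
      exact (hm i (by omega)).symm
    rw [← hpq] at hqz
    exact hp z hqz
  · -- a branch of the second tree
    push Not at hall
    obtain ⟨n0, hn0⟩ := hall
    have h1 : ∀ n, n0 ≤ n → ini β (n + 1) ∈ T2 := by
      intro n hn
      rcases hβ n with ⟨p', z', hpz, ht⟩ | h
      · exfalso
        apply hn0
        refine ⟨p', z', hpz, ?_⟩
        have ht' : ini β (n + 1) = ini (fun i => eK (ini p' (i + 1), z' i)) (n + 1) := by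
          rwa [ini_length] at ht
        rw [ini_length]
        exact ini_eq_of_le (by omega) ht'
      · exact h
    obtain ⟨i, hi⟩ := hinf'.nonempty
    obtain ⟨j, hj, hij⟩ := Set.Infinite.exists_gt hinf' i
    obtain ⟨a, ha⟩ := hi
    obtain ⟨b, hb⟩ := hj
    have h2 := h1 (max n0 j) (le_max_left _ _)
    have hj' : j < max n0 j + 1 := Nat.lt_succ_of_le (le_max_right _ _)
    have h3 := h2 i j (by rw [ini_length]; omega) (by rw [ini_length]; exact hj') hij
    rw [ini_getElem, ini_getElem, ha, hb] at h3
    rcases le_total a b with hab | hab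
    · exact h3.1 (ini_prefix p hab)
    · exact h3.2 (ini_prefix p hab)

end forward

end Pool.Agent.H73.PolishHomeo
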