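import Pool.Agent.H73.PolishHomeo.Coding

/-!
# Solutions of the constraint system give related points
-/

set_option autoImplicit false

open Set Topology Filter

namespace Pool.Agent.H73.PolishHomeo

section backward

variable {CW : Set ((ℕ → B3) × (ℕ → ℕ))} {C : Set (List B3)} {x x' : ℕ → Bool}

lemma exists_child (hP : ParK C (dd x) (dd x')) {u : List B3} (hu : u ∈ C) :
    ∃ b, u ++ [b] ∈ C := by
  by_contra hcon
  push Not at hcon
  have h1 : JK C (Sum.inl u) = {u} := by
    ext v
    rw [mem_JK, mem_SS_inl, Finset.mem_singleton]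
    constructor
    · rintro ⟨rfl | ⟨b, rfl⟩, hv⟩
      · rfl
      · exact absurd hv (hcon b)
    · rintro rfl
      exact ⟨Or.inl rfl, hu⟩
  have h2 := hP (Sum.inl u)
  rw [h1, Finset.card_singleton] at h2
  have h3 := h2.1 odd_one
  exact h3 ⟨fun h => absurd h (inl_notMem_dd _ _), fun h => absurd h (inl_notMem_dd _ _)⟩

lemma exists_branch (hP : ParK C (dd x) (dd x')) {u : List B3} (hu : u ∈ C) :
    ∃ p : ℕ → B3, ini p u.length = u ∧ ∀ m, u.length ≤ m → ini p m ∈ C := by
  have h1 : ∀ v : {l // l ∈ C}, ∃ b, v.1 ++ [b] ∈ C := fun v => exists_child hP v.2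
  choose b hb using h1
  let v : ℕ → {l // l ∈ C} := fun k => Nat.rec ⟨u, hu⟩ (fun _ w => ⟨w.1 ++ [b w], hb w⟩) k
  have hv0 : v 0 = ⟨u, hu⟩ := rfl
  have hvS : ∀ k, (v (k + 1)).1 = (v k).1 ++ [b (v k)] := fun k => rfl
  have hlen : ∀ k, (v k).1.length = u.length + k := by
    intro k
    induction k with
    | zero => simp [hv0]
    | succ k ih => rw [hvS, List.length_append, ih]; simp; omega
  have hpre : ∀ k l, k ≤ l → (v k).1 <+: (v l).1 := by
    intro k l hkl
    induction l, hkl using Nat.le_induction with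
    | base => exact List.prefix_rfl
    | succ l _ ih =>
      rw [hvS]
      exact ih.trans (List.prefix_append _ _)
  have hlt : ∀ i, i < (v (i + 1)).1.length := fun i =>
    lt_of_lt_of_eq (by omega : i < u.length + (i + 1)) (hlen (i + 1)).symm
  let p : ℕ → B3 := fun i => (v (i + 1)).1[i]'(hlt i)
  have hget : ∀ k i (hi : i < (v k).1.length), (v k).1[i] = p i := by
    intro k i hi
    rcases le_total k (i + 1) with h | h
    · have h2 := hpre _ _ h
      exact h2.getElem hi
    · have h2 := hpre _ _ h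
      exact (h2.getElem (hlt i)).symm
  have hini : ∀ k, ini p (u.length + k) = (v k).1 := by
    intro k
    apply List.ext_getElem
    · rw [ini_length, hlen]
    · intro i h1 h2
      rw [ini_getElem, hget]
  refine ⟨p, ?_, fun m hm => ?_⟩
  · have := hini 0
    simpa [hv0] using this
  · obtain ⟨k, rfl⟩ := Nat.exists_eq_add_of_le hm
    rw [hini]
    exact (v k).2

/-- the branches of `C` -/
def Br (C : Set (List B3)) : Set (ℕ → B3) := {p | ∃ N, ∀ m, N ≤ m → ini p m ∈ C}

lemma Br_mem (hC : ConvK CW C) {p : ℕ → B3} (hp : p ∈ Br C) : ∀ z, (p, z) ∉ CW := by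
  intro z hz
  obtain ⟨N, hN⟩ := hp
  have h1 := hC (fun i => eK (ini p (i + 1), z i)) (fun n => Or.inl ⟨p, z, hz, by rw [ini_length]⟩)
  have h2 : {n | N ≤ n} ⊆ {n | labK (eK (ini p (n + 1), z n)) ∈ C} := by
    intro n hn
    change labK (eK (ini p (n + 1), z n)) ∈ C
    rw [labK_eK]
    exact hN _ (Nat.le_succ_of_le hn)
  exact (Set.Ici_infinite N) (h1.subset h2)

lemma no_antichain (hC : ConvK CW C) (v : ℕ → List B3) (hv : ∀ k, v k ∈ C)
    (hanti : ∀ k l, k < l → ¬ (v k <+: v l) ∧ ¬ (v l <+: v k)) : False := by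
  have h1 := hC (fun i => eK (v i, 0)) (fun n => Or.inr ?_)
  · have h2 : {n | labK (eK (v n, 0)) ∈ C} = univ := by
      ext n
      simp only [mem_univ, iff_true]
      change labK (eK (v n, 0)) ∈ C
      rw [labK_eK]
      exact hv n
    have h3 : {n | labK (eK (v n, 0)) ∈ C}.Finite := h1
    rw [h2] at h3
    exact Set.infinite_univ h3
  · intro i j hi hj hij
    rw [ini_getElem, ini_getElem, labK_eK, labK_eK]
    exact hanti i j hij

lemma Br_finite (hC : ConvK CW C) : (Br C).Finite := by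
  by_contra hinf
  have hinf' : (Br C).Infinite := hinf
  obtain ⟨q, -, hq⟩ := hinf'.exists_accPt_of_subset_isCompact isCompact_univ (subset_univ _)
  rw [accPt_iff_nhds] at hq
  have h1 : ∀ n, ∃ u ∈ C, ini q n <+: u ∧ u ≠ ini q u.length ∧ n ≤ u.length := by
    intro n
    obtain ⟨p, ⟨hpn, hpB⟩, hpq⟩ := hq _ ((isOpen_ini q n).mem_nhds rfl)
    change ini p n = ini q n at hpn
    obtain ⟨N, hN⟩ := hpB
    have h2 : ∃ i, p i ≠ q i := by
      by_contra hcon
      push Not at hcon
      exact hpq (funext hcon)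
    obtain ⟨i, hi⟩ := h2
    refine ⟨ini p (max n (max N (i + 1))), hN _ (by omega), ?_, ?_, ?_⟩
    · rw [← hpn]
      exact ini_prefix p (by omega)
    · rw [ini_length]
      intro h
      rw [ini_eq_iff] at h
      exact hi (h i (by omega))
    · rw [ini_length]
      omega
  choose u hu1 hu2 hu3 hu4 using h1
  let n : ℕ → ℕ := fun k => Nat.rec 0 (fun _ m => (u m).length) k
  have hnS : ∀ k, n (k + 1) = (u (n k)).length := fun k => rfl
  have hmono : Monotone n := monotone_nat_of_le_succ fun k => by rw [hnS]; exact hu4 _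
  have hnot : ∀ k l, k < l → ¬ (u (n k) <+: u (n l)) := by
    intro k l hkl h
    have e1 : (u (n k)).length ≤ n l := by
      rw [← hnS]
      exact hmono hkl
    have e2 : ini q (u (n k)).length <+: u (n l) :=
      (ini_prefix q e1).trans (hu2 (n l))
    have e3 : u (n k) = ini q (u (n k)).length := by
      rw [List.prefix_iff_eq_take] at h e2
      rw [ini_length] at e2
      rw [← e2] at h
      exact h
    exact hu3 _ e3
  apply no_antichain hC (fun k => u (n k)) (fun k => hu1 _)
  intro k l hkl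
  refine ⟨hnot k l hkl, fun h => ?_⟩
  have e1 : (u (n k)).length ≤ (u (n l)).length := by
    have e2 : (u (n k)).length ≤ n l := by
      rw [← hnS]
      exact hmono hkl
    exact e2.trans (hu4 _)
  have e3 : u (n l) = u (n k) := h.eq_of_length_le e1
  apply hnot k l hkl
  rw [e3]

lemma exists_sep {α : Type} {Q : Set (ℕ → α)} (hQ : Q.Finite) :
    ∀ᶠ n in atTop, ∀ r ∈ Q, ∀ r' ∈ Q, ini r n = ini r' n → r = r' := by
  rw [Filter.eventually_all_finite hQ]
  intro r _
  rw [Filter.eventually_all_finite hQ]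
  intro r' _
  by_cases h : r = r'
  · exact Eventually.of_forall fun _ _ => h
  · have h2 : ∃ i, r i ≠ r' i := by
      by_contra hcon
      push Not at hcon
      exact h (funext hcon)
    obtain ⟨i, hi⟩ := h2
    filter_upwards [eventually_gt_atTop i] with n hn he
    rw [ini_eq_iff] at he
    exact absurd (he i hn) hi

/-- all lists of length `n` -/
noncomputable def Lv (α : Type) [Finite α] (n : ℕ) : Finset (List α) :=
  (List.finite_length_eq α n).toFinset

lemma mem_Lv {α : Type} [Finite α] {n : ℕ} {l : List α} : l ∈ Lv α n ↔ l.length = n := by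
  unfold Lv
  rw [Set.Finite.mem_toFinset]
  exact Iff.rfl

/-- **Solutions give related points.** -/
theorem rel_of_solution {R : (ℕ → Bool) → (ℕ → Bool) → Prop} (hsymm : ∀ a b, R a b → R b a)
    (htrans : ∀ a b c, R a b → R b c → R a c) (hx : R x x)
    (hW : ∀ p : ℕ → B3, (∀ z, (p, z) ∉ CW) → R (fun i => pr1 (p i)) (fun i => pr2 (p i)))
    (hP : ParK C (dd x) (dd x')) (hC : ConvK CW C) : R x x' := by
  classical
  let Q : Set (ℕ → Bool) := {x, x'} ∪
    ((fun p : ℕ → B3 => fun i => pr1 (p i)) '' Br C ∪ (fun p : ℕ → B3 => fun i => pr2 (p i)) '' Br C)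
  have hBr := Br_finite hC
  have hQ : Q.Finite := by
    apply Set.Finite.union
    · exact (Set.finite_singleton _).insert _
    · exact (hBr.image _).union (hBr.image _)
  obtain ⟨n, hsep, hn1⟩ := ((exists_sep hQ).and (eventually_ge_atTop 1)).exists
  obtain ⟨m, rfl⟩ : ∃ m, n = m + 1 := ⟨n - 1, by omega⟩
  -- the test function
  let g : (ℕ → Bool) → ZMod 2 := fun r => if R x r then 1 else 0
  let G : List Bool → ZMod 2 := fun w => if ∃ r ∈ Q, ini r (m + 1) = w ∧ R x r then 1 else 0
  have hG : ∀ r ∈ Q, G (ini r (m + 1)) = g r := by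
    intro r hr
    by_cases h : R x r
    · have h1 : ∃ r' ∈ Q, ini r' (m + 1) = ini r (m + 1) ∧ R x r' := ⟨r, hr, rfl, h⟩
      simp only [G, g]
      rw [if_pos h1, if_pos h]
    · have h1 : ¬ ∃ r' ∈ Q, ini r' (m + 1) = ini r (m + 1) ∧ R x r' := by
        rintro ⟨r', hr', he, hR⟩
        rw [hsep r' hr' r hr he] at hR
        exact h hR
      simp only [G, g]
      rw [if_neg h1, if_neg h]
  let Cn : Finset (List B3) := (Lv B3 (m + 1)).filter (· ∈ C)
  have hCn : ∀ u ∈ Cn, ∃ p ∈ Br C, ini p (m + 1) = u := by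
    intro u hu
    rw [Finset.mem_filter, mem_Lv] at hu
    obtain ⟨p, hp1, hp2⟩ := exists_branch hP hu.2
    rw [hu.1] at hp1
    exact ⟨p, ⟨u.length, hp2⟩, hp1⟩
  -- the boundary constraints
  have hb : ∀ w : List Bool, w ∈ Lv Bool (m + 1) →
      (∑ u ∈ Cn, ((if u.map pr1 = w then (1 : ZMod 2) else 0) +
        (if u.map pr2 = w then (1 : ZMod 2) else 0))) =
      (if ini x (m + 1) = w then (1 : ZMod 2) else 0) +
        (if ini x' (m + 1) = w then (1 : ZMod 2) else 0) := by
    intro w hw
    rw [mem_Lv] at hw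
    obtain ⟨b, w', rfl⟩ : ∃ b w', w = b :: w' := by
      cases w with
      | nil => simp at hw
      | cons b w' => exact ⟨b, w', rfl⟩
    have hw' : w'.length = m := by simpa using hw
    have h1 := hP (Sum.inr (b, w'))
    rw [inr_mem_dd, inr_mem_dd, hw'] at h1
    have h2 : JK C (Sum.inr (b, w')) =
        Cn.filter (fun u => ¬ (u.map pr1 = b :: w' ↔ u.map pr2 = b :: w')) := by
      ext v
      rw [mem_JK, mem_SS_inr, Finset.mem_filter, Finset.mem_filter, mem_Lv, hw']
      tauto
    rw [h2] at h1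
    have h3 : ∀ u : List B3, ((if u.map pr1 = b :: w' then (1 : ZMod 2) else 0) +
        (if u.map pr2 = b :: w' then (1 : ZMod 2) else 0)) =
        if ¬ (u.map pr1 = b :: w' ↔ u.map pr2 = b :: w') then (1 : ZMod 2) else 0 := by
      intro u
      by_cases e1 : u.map pr1 = b :: w' <;> by_cases e2 : u.map pr2 = b :: w'
      · simp [e1, e2]; decide
      · simp [e1, e2]
      · simp [e1, e2]
      · simp [e1, e2]
    have h4 : ((if ini x (m + 1) = b :: w' then (1 : ZMod 2) else 0) +
        (if ini x' (m + 1) = b :: w' then (1 : ZMod 2) else 0)) =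
        if ¬ (b :: w' = ini x (m + 1) ↔ b :: w' = ini x' (m + 1)) then (1 : ZMod 2) else 0 := by
      by_cases e1 : ini x (m + 1) = b :: w' <;> by_cases e2 : ini x' (m + 1) = b :: w'
      · simp [e1, e2]; decide
      · have e2' : ¬ (b :: w' = ini x' (m + 1)) := fun h => e2 h.symm
        simp [e1, e2, e2']
      · have e1' : ¬ (b :: w' = ini x (m + 1)) := fun h => e1 h.symm
        simp [e1, e2, e1']
      · have e2' : ¬ (b :: w' = ini x' (m + 1)) := fun h => e2 h.symm
        have e1' : ¬ (b :: w' = ini x (m + 1)) := fun h => e1 h.symm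
        simp [e1, e2, e1', e2']
    rw [h4, Finset.sum_congr rfl (fun u _ => h3 u), Finset.sum_boole]
    by_cases e : (b :: w' = ini x (m + 1) ↔ b :: w' = ini x' (m + 1))
    · rw [if_neg (not_not.2 e)]
      rw [ZMod.natCast_eq_zero_iff_even]
      rw [← Nat.not_odd_iff_even]
      exact fun h => (h1.1 h) e
    · rw [if_pos e]
      rw [ZMod.natCast_eq_one_iff_odd]
      exact h1.2 e
  -- double counting
  have hsum : ∑ w ∈ Lv Bool (m + 1), G w *
      (∑ u ∈ Cn, ((if u.map pr1 = w then (1 : ZMod 2) else 0) +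
        (if u.map pr2 = w then (1 : ZMod 2) else 0))) =
      ∑ w ∈ Lv Bool (m + 1), G w * ((if ini x (m + 1) = w then (1 : ZMod 2) else 0) +
        (if ini x' (m + 1) = w then (1 : ZMod 2) else 0)) :=
    Finset.sum_congr rfl fun w hw => by rw [hb w hw]
  have hpick : ∀ l : List Bool, l ∈ Lv Bool (m + 1) →
      ∑ w ∈ Lv Bool (m + 1), G w * (if l = w then (1 : ZMod 2) else 0) = G l := by
    intro l hl
    simp only [mul_ite, mul_one, mul_zero]
    rw [Finset.sum_ite_eq, if_pos hl]
  have hR1 : ∑ w ∈ Lv Bool (m + 1), G w * ((if ini x (m + 1) = w then (1 : ZMod 2) else 0) +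
        (if ini x' (m + 1) = w then (1 : ZMod 2) else 0)) = g x + g x' := by
    simp only [mul_add]
    rw [Finset.sum_add_distrib, hpick _ (mem_Lv.2 (ini_length _ _)),
      hpick _ (mem_Lv.2 (ini_length _ _)), hG x (Or.inl (Or.inl rfl)), hG x' (Or.inl (Or.inr rfl))]
  have hL1 : ∑ w ∈ Lv Bool (m + 1), G w *
      (∑ u ∈ Cn, ((if u.map pr1 = w then (1 : ZMod 2) else 0) +
        (if u.map pr2 = w then (1 : ZMod 2) else 0))) = 0 := by
    simp only [Finset.mul_sum, mul_add]
    rw [Finset.sum_comm]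
    apply Finset.sum_eq_zero
    intro u hu
    obtain ⟨p, hp, rfl⟩ := hCn u hu
    rw [Finset.sum_add_distrib, ini_map, ini_map, hpick _ (mem_Lv.2 (ini_length _ _)),
      hpick _ (mem_Lv.2 (ini_length _ _)), hG _ (Or.inr (Or.inl ⟨p, hp, rfl⟩)),
      hG _ (Or.inr (Or.inr ⟨p, hp, rfl⟩))]
    have h1 := hW p (Br_mem hC hp)
    have h2 : R x (fun i => pr1 (p i)) ↔ R x (fun i => pr2 (p i)) :=
      ⟨fun h => htrans _ _ _ h h1, fun h => htrans _ _ _ h (hsymm _ _ h1)⟩
    simp only [g]
    by_cases h3 : R x (fun i => pr1 (p i))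
    · rw [if_pos h3, if_pos (h2.1 h3)]; decide
    · rw [if_neg h3, if_neg (fun h => h3 (h2.2 h))]; decide
  rw [hL1, hR1] at hsum
  by_contra hcon
  simp only [g] at hsum
  rw [if_pos hx, if_neg hcon] at hsum
  exact absurd hsum (by decide)

end backward

end Pool.Agent.H73.PolishHomeo
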