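import Mathlib

/-!
# The homeomorphism relation between Polish spaces: basic definitions

`F(U)` (here `ClosedSubsets U`) is the space of the closed subsets of `U` with the Effros Borel
structure.  The projective classes `Σ¹₁`, `Π¹₁`, `Σ¹₂` are defined in arbitrary measurable spaces
(we only use them in standard Borel spaces).
-/

set_option autoImplicit false

open Set Topology MeasureTheory

namespace Pool.Agent.H73.PolishHomeo

/-- The hyperspace `F(U)` of all closed subsets of `U`. -/
structure ClosedSubsets (U : Type) [TopologicalSpace U] where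
  /-- the underlying set -/
  carrier : Set U
  /-- which is closed -/
  isClosed : IsClosed carrier

/-- The Effros Borel structure on `F(U)`: the sigma-algebra generated by the sets
`{F | F ∩ O ≠ ∅}`, `O` open in `U`. -/
instance effros (U : Type) [TopologicalSpace U] : MeasurableSpace (ClosedSubsets U) :=
  MeasurableSpace.generateFrom
    {S | ∃ O : Set U, IsOpen O ∧ S = {F : ClosedSubsets U | (F.carrier ∩ O).Nonempty}}

/-- The homeomorphism relation on `F(U)`. -/
def Homeo (U : Type) [TopologicalSpace U] (A B : ClosedSubsets U) : Prop :=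
  Nonempty (A.carrier ≃ₜ B.carrier)

/-- `U` is a universal Polish space: every Polish space is homeomorphic to a closed
subset of `U`. -/
def IsUniversalPolish (U : Type) [TopologicalSpace U] : Prop :=
  ∀ (M : Type) [TopologicalSpace M] [PolishSpace M], ∃ f : M → U, IsClosedEmbedding f

/-- A subset `S` of a measurable space `X` is `Σ¹₁` (analytic) if it is the projection of a
measurable subset of `X × (ℕ → ℕ)`. -/
def IsSigma11 {X : Type} [MeasurableSpace X] (S : Set X) : Prop :=
  ∃ B : Set (X × (ℕ → ℕ)), MeasurableSet B ∧ S = {x | ∃ z, (x, z) ∈ B}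

/-- A subset of a measurable space is `Π¹₁` (coanalytic) if its complement is `Σ¹₁`. -/
def IsPi11 {X : Type} [MeasurableSpace X] (S : Set X) : Prop := IsSigma11 Sᶜ

/-- A subset `S` of a measurable space `X` is `Σ¹₂` if it is the projection of a
`Π¹₁` subset of `X × (ℕ → ℕ)`. -/
def IsSigma12 {X : Type} [MeasurableSpace X] (S : Set X) : Prop :=
  ∃ B : Set (X × (ℕ → ℕ)), IsPi11 B ∧ S = {x | ∃ z, (x, z) ∈ B}

/-- A binary relation, seen as a set of pairs. -/
def graph {X : Type} (E : X → X → Prop) : Set (X × X) := {p | E p.1 p.2}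

/-- Borel reducibility of (equivalence) relations. -/
def BorelReducible {X Y : Type} [MeasurableSpace X] [MeasurableSpace Y]
    (E : X → X → Prop) (E' : Y → Y → Prop) : Prop :=
  ∃ f : X → Y, Measurable f ∧ ∀ x y, E x y ↔ E' (f x) (f y)

/-- Image of closed sets under a closed embedding. -/
def push {M U : Type} [TopologicalSpace M] [TopologicalSpace U] {j : M → U}
    (hj : IsClosedEmbedding j) (F : ClosedSubsets M) : ClosedSubsets U :=
  ⟨j '' F.carrier, hj.isClosedMap _ F.isClosed⟩

lemma measurable_push {M U : Type} [TopologicalSpace M] [TopologicalSpace U] {j : M → U}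
    (hj : IsClosedEmbedding j) : Measurable (push hj) := by
  apply measurable_generateFrom
  rintro _ ⟨O, hO, rfl⟩
  apply MeasurableSpace.measurableSet_generateFrom
  refine ⟨j ⁻¹' O, hO.preimage hj.continuous, ?_⟩
  ext F
  change (j '' F.carrier ∩ O).Nonempty ↔ (F.carrier ∩ j ⁻¹' O).Nonempty
  rw [← image_inter_preimage, image_nonempty]

/-- The homeomorphism relation is invariant under `push`. -/
lemma push_homeo {M U : Type} [TopologicalSpace M] [TopologicalSpace U] {j : M → U}
    (hj : IsClosedEmbedding j) (A B : ClosedSubsets M) :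
    Homeo U (push hj A) (push hj B) ↔ Homeo M A B := by
  have h : ∀ F : ClosedSubsets M, Nonempty (F.carrier ≃ₜ (push hj F).carrier) := fun F =>
    ⟨(hj.isEmbedding.comp (IsEmbedding.subtypeVal (p := (· ∈ F.carrier)))).toHomeomorph.trans
      (Homeomorph.setCongr (by rw [range_comp, Subtype.range_coe]; rfl))⟩
  obtain ⟨eA⟩ := h A
  obtain ⟨eB⟩ := h B
  constructor
  · rintro ⟨e⟩
    exact ⟨(eA.trans e).trans eB.symm⟩
  · rintro ⟨e⟩
    exact ⟨(eA.symm.trans e).trans eB⟩

end Pool.Agent.H73.PolishHomeo
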