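import Pool.Agent.H73.PolishHomeo.PagesInv

/-!
# Parity constraints and convergence constraints coded by page spaces

The data are a countable set `K` of variables, a countable family of finite sets `S i ⊆ K`
(parity constraints) and a tree `T` on `ℕ` with labels in `K`.  For each set `d` of indices
we get a page system with active pages `Act d`, such that the spaces for `d` and `d'` are homeomorphic
if and only if there is a set `C ⊆ K` such that `|S i ∩ C|` is odd exactly for the indices `i` in
which `d` and `d'` differ, and such that every infinite branch of `T` meets `C` finitely often.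
-/

set_option autoImplicit false

open Set Topology Filter

namespace Pool.Agent.H73.PolishHomeo

/-- The data. -/
structure FlagData where
  /-- variables -/
  K : Type
  /-- constraints -/
  L : Type
  countK : Countable K
  countL : Countable L
  /-- variables of a constraint -/
  S : L → Finset K
  S_ne : ∀ i, (S i).Nonempty
  /-- labels -/
  lab : ℕ → K
  /-- tree -/
  T : Set (List ℕ)

namespace FlagData

variable (D : FlagData)

/-- Names of pages: pins, constraints and flags. -/
abbrev Nm : Type := (Bool × D.K) ⊕ (D.L ⊕ List ℕ)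

open Classical in
/-- The variables of a name. -/
noncomputable def J : D.Nm → Finset D.K
  | Sum.inl (_, k) => {k}
  | Sum.inr (Sum.inl i) => D.S i
  | Sum.inr (Sum.inr t) => (t.map D.lab).toFinset

/-- Discrete marks. -/
abbrev DM : Type := (D.K × Bool) ⊕ (D.Nm × Finset D.K × ℕ)

lemma exists_equiv : Nonempty (D.DM ≃ ℕ) := by
  have := D.countK
  have := D.countL
  have : Infinite D.DM := by
    apply Infinite.of_injective
      (fun n : ℕ => (Sum.inr (Sum.inr (Sum.inr []), ∅, n) : D.DM))
    intro n m h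
    simpa using h
  exact nonempty_equiv_of_countable

/-- enumeration of the discrete marks -/
noncomputable def eD : D.DM ≃ ℕ := Classical.choice D.exists_equiv

lemma exists_code : ∃ f : D.Nm → ℕ, Function.Injective f := by
  have := D.countK
  have := D.countL
  exact Countable.exists_injective_nat _

/-- code of a name -/
noncomputable def cd : D.Nm → ℕ := Classical.choose D.exists_code

lemma cd_inj : Function.Injective D.cd := Classical.choose_spec D.exists_code

/-- position of a discrete mark -/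
noncomputable def dp (x : D.DM) : ℕ → ℕ := fun i => if i = 0 then D.eD x + 1 else 0

lemma dp_zero (x : D.DM) : D.dp x 0 = D.eD x + 1 := by simp [dp]

lemma dp_succ (x : D.DM) (i : ℕ) : D.dp x (i + 1) = 0 := by simp [dp]

lemma dp_inj : Function.Injective D.dp := fun x y h => by
  have := congrFun h 0
  rw [dp_zero, dp_zero] at this
  exact D.eD.injective (by omega)

end FlagData

open Classical in
/-- entry coding a natural number and a bit -/
noncomputable def entry (m : ℕ) (b : Prop) : ℕ := 2 * m + (if b then 1 else 0) + 1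

/-- decoded number -/
def mm (n : ℕ) : ℕ := (n - 1) / 2

/-- decoded bit -/
def bt (n : ℕ) : Prop := (n - 1) % 2 = 1

lemma entry_ne (m : ℕ) (b : Prop) : entry m b ≠ 0 := by
  unfold entry
  omega

lemma mm_entry (m : ℕ) (b : Prop) : mm (entry m b) = m := by
  unfold mm entry
  split_ifs <;> omega

lemma bt_entry (m : ℕ) (b : Prop) : bt (entry m b) ↔ b := by
  unfold bt entry
  split_ifs with h
  · simp only [h, iff_true]; omega
  · simp only [h, iff_false]; omega

namespace FlagData

variable (D : FlagData)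

open Classical in
/-- position of a flag mark -/
noncomputable def cv (t : List ℕ) (A : Finset D.K) : ℕ → ℕ
  | 0 => 0
  | i + 1 => if h : i < t.length then entry t[i] (D.lab t[i] ∈ A) else 0

/-- numbers of the first `n` entries -/
def pre (w : ℕ → ℕ) (n : ℕ) : List ℕ := (List.range n).map (fun i => mm (w (i + 1)))

/-- the discrete part of the set of positions -/
def Zd : Set (ℕ → ℕ) := {w | w 0 ≠ 0 ∧ ∀ i, w (i + 1) = 0}

/-- the flag part of the set of positions -/
def Zf : Set (ℕ → ℕ) := {w | (w 0 = 0 ∧ ∀ i, w (i + 1) = 0 → w (i + 2) = 0) ∧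
  (∀ n, w (n + 1) ≠ 0 → pre w (n + 1) ∈ D.T) ∧ (∀ j, ∃ i, j ≤ i ∧ (w (i + 1) = 0 ∨ bt (w (i + 1))))}

/-- the set of positions -/
def Z : Set (ℕ → ℕ) := Zd ∪ D.Zf

lemma isClosed_Zd : IsClosed Zd := by
  have : Zd = {w : ℕ → ℕ | w 0 ≠ 0} ∩ ⋂ i, {w : ℕ → ℕ | w (i + 1) = 0} := by
    ext w
    simp only [mem_inter_iff, mem_iInter]
    rfl
  rw [this]
  have hc : ∀ i, Continuous (fun w : ℕ → ℕ => w i) := fun i => continuous_apply i
  apply IsClosed.inter
  · exact (isClosed_discrete {n : ℕ | n ≠ 0}).preimage (hc 0)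
  · exact isClosed_iInter fun i => (isClosed_discrete {n : ℕ | n = 0}).preimage (hc (i + 1))

lemma isGδ_Zf : IsGδ D.Zf := by
  have : D.Zf = ({w : ℕ → ℕ | w 0 = 0} ∩ ⋂ i, {w : ℕ → ℕ | w (i + 1) = 0 → w (i + 2) = 0}) ∩
      ((⋂ n, {w : ℕ → ℕ | w (n + 1) ≠ 0 → pre w (n + 1) ∈ D.T}) ∩
        ⋂ j, ⋃ i, {w : ℕ → ℕ | j ≤ i ∧ (w (i + 1) = 0 ∨ bt (w (i + 1)))}) := by
    ext w
    simp only [mem_inter_iff, mem_iInter, mem_iUnion]
    rfl
  rw [this]
  have hc : ∀ i, Continuous (fun w : ℕ → ℕ => w i) := fun i => continuous_apply i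
  apply IsGδ.inter
  · apply IsClosed.isGδ
    apply IsClosed.inter
    · exact (isClosed_discrete {n : ℕ | n = 0}).preimage (hc 0)
    · refine isClosed_iInter fun i => ?_
      exact (isClosed_discrete {q : ℕ × ℕ | q.1 = 0 → q.2 = 0}).preimage
        ((hc (i + 1)).prodMk (hc (i + 2)))
  · apply IsGδ.inter
    · apply IsClosed.isGδ
      refine isClosed_iInter fun n => ?_
      have h1 : Continuous (fun w : ℕ → ℕ => pre w (n + 1)) := by
        rw [continuous_discrete_rng]
        intro s
        rw [isOpen_iff_mem_nhds]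
        intro w hw
        have h2 : (⋂ i ∈ Finset.range (n + 2), {w' : ℕ → ℕ | w' i = w i}) ∈ 𝓝 w := by
          rw [Filter.biInter_finset_mem]
          intro i _
          exact ((isOpen_discrete ({w i} : Set ℕ)).preimage (hc i)).mem_nhds rfl
        filter_upwards [h2] with w' hw'
        simp only [mem_preimage, mem_singleton_iff] at hw ⊢
        rw [← hw]
        unfold pre
        apply List.map_congr_left
        intro i hi
        rw [List.mem_range] at hi
        have h3 := mem_iInter₂.1 hw' (i + 1) (Finset.mem_range.2 (by omega))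
        change w' (i + 1) = w (i + 1) at h3
        rw [h3]
      exact (isClosed_discrete {q : ℕ × List ℕ | q.1 ≠ 0 → q.2 ∈ D.T}).preimage
        ((hc (n + 1)).prodMk h1)
    · apply IsGδ.iInter
      intro j
      apply IsOpen.isGδ
      refine isOpen_iUnion fun i => ?_
      exact (isOpen_discrete {n : ℕ | j ≤ i ∧ (n = 0 ∨ bt n)}).preimage (hc (i + 1))

lemma isGδ_Z : IsGδ D.Z := isClosed_Zd.isGδ.union D.isGδ_Zf

open Classical in
/-- number of flag marks -/
noncomputable def fg : D.Nm → ℕ
  | Sum.inr (Sum.inr _) => 1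
  | _ => 0

lemma fg_le (n : D.Nm) : D.fg n ≤ 1 := by
  unfold fg
  split <;> omega

/-- number of marks of the pages with a given name -/
noncomputable def tot (n : D.Nm) : ℕ := Nat.pair (D.cd n) ((D.J n).card + 1)

/-- number of private marks -/
noncomputable def NN (n : D.Nm) : ℕ := D.tot n - (D.J n).card - D.fg n

lemma NN_add (n : D.Nm) : (D.J n).card + D.NN n + D.fg n = D.tot n := by
  have h1 : (D.J n).card + 1 ≤ D.tot n := Nat.right_le_pair _ _
  have h2 := D.fg_le n
  unfold NN
  omega

lemma tot_inj : Function.Injective D.tot := by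
  intro n m h
  have := congrArg Nat.unpair h
  simp only [tot, Nat.unpair_pair] at this
  exact D.cd_inj (congrArg Prod.fst this)

/-- The pages. -/
def Pg : Type := {p : D.Nm × Finset D.K // p.2 ⊆ D.J p.1 ∧
  ∀ t, p.1 = Sum.inr (Sum.inr t) → t ∈ D.T}

open Classical in
/-- joint marks -/
noncomputable def F1 (n : D.Nm) (A : Finset D.K) : Set (ℕ → ℕ) :=
  (fun k => D.dp (Sum.inl (k, decide (k ∈ A)))) '' (D.J n : Set D.K)

/-- private marks -/
noncomputable def F2 (n : D.Nm) (A : Finset D.K) : Set (ℕ → ℕ) :=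
  (fun j => D.dp (Sum.inr (n, A, j))) '' (Finset.range (D.NN n) : Set ℕ)

/-- flag marks -/
noncomputable def F3 : D.Nm → Finset D.K → Set (ℕ → ℕ)
  | Sum.inr (Sum.inr t), A => {D.cv t A}
  | _, _ => ∅

/-- The marks of a page. -/
noncomputable def FF (n : D.Nm) (A : Finset D.K) : Set (ℕ → ℕ) := D.F1 n A ∪ D.F2 n A ∪ D.F3 n A

lemma F3_finite (n : D.Nm) (A : Finset D.K) : (D.F3 n A).Finite := by
  unfold F3
  split
  · exact finite_singleton _
  · exact finite_empty

lemma F3_ncard (n : D.Nm) (A : Finset D.K) : (D.F3 n A).ncard = D.fg n := by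
  rcases n with n | i | t
  · simp [F3, fg]
  · simp [F3, fg]
  · simp [F3, fg]

lemma F1_finite (n : D.Nm) (A : Finset D.K) : (D.F1 n A).Finite :=
  (Finset.finite_toSet _).image _

lemma F2_finite (n : D.Nm) (A : Finset D.K) : (D.F2 n A).Finite :=
  (Finset.finite_toSet _).image _

lemma FF_finite (n : D.Nm) (A : Finset D.K) : (D.FF n A).Finite :=
  ((D.F1_finite n A).union (D.F2_finite n A)).union (D.F3_finite n A)

lemma mem_F3 {n : D.Nm} {A : Finset D.K} {w : ℕ → ℕ} (hw : w ∈ D.F3 n A) :
    ∃ t, n = Sum.inr (Sum.inr t) ∧ w = D.cv t A := by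
  unfold F3 at hw
  split at hw
  · exact ⟨_, rfl, hw⟩
  · exact absurd hw (notMem_empty _)

lemma FF_ncard (n : D.Nm) (A : Finset D.K) : (D.FF n A).ncard = D.tot n := by
  have h1 : (D.F1 n A).ncard = (D.J n).card := by
    unfold F1
    rw [ncard_image_of_injective, ncard_coe_finset]
    intro k k' h
    have := D.dp_inj h
    simp only [Sum.inl.injEq, Prod.mk.injEq] at this
    exact this.1
  have h2 : (D.F2 n A).ncard = D.NN n := by
    unfold F2
    rw [ncard_image_of_injective, ncard_coe_finset, Finset.card_range]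
    intro k k' h
    have := D.dp_inj h
    simpa using this
  have h12 : Disjoint (D.F1 n A) (D.F2 n A) := by
    rw [Set.disjoint_left]
    rintro _ ⟨k, -, rfl⟩ ⟨j, -, h⟩
    have := D.dp_inj h
    simp at this
  have h3 : Disjoint (D.F1 n A ∪ D.F2 n A) (D.F3 n A) := by
    rw [Set.disjoint_left]
    intro w hw hw3
    obtain ⟨t, -, rfl⟩ := D.mem_F3 hw3
    rcases hw with ⟨k, -, h⟩ | ⟨j, -, h⟩
    · have := congrFun h 0
      simp [dp, cv] at this
    · have := congrFun h 0
      simp [dp, cv] at this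
  unfold FF
  rw [ncard_union_eq h3 ((D.F1_finite n A).union (D.F2_finite n A)) (D.F3_finite n A),
    ncard_union_eq h12 (D.F1_finite n A) (D.F2_finite n A), h1, h2, F3_ncard, NN_add]

lemma tot_pos (n : D.Nm) : 0 < D.tot n :=
  lt_of_lt_of_le (Nat.succ_pos _) (Nat.right_le_pair (D.cd n) ((D.J n).card + 1))

lemma FF_nonempty (n : D.Nm) (A : Finset D.K) : (D.FF n A).Nonempty := by
  rw [← ncard_pos (D.FF_finite n A), FF_ncard]
  exact D.tot_pos n

lemma dp_mem_Z (x : D.DM) : D.dp x ∈ D.Z := by
  left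
  refine ⟨?_, fun i => D.dp_succ x i⟩
  rw [dp_zero]
  omega

/-- the tree is closed under initial segments -/
def IsTree : Prop := ∀ (t : List ℕ) (n : ℕ), t ∈ D.T → t.take n ∈ D.T

lemma cv_succ_of_lt {t : List ℕ} (A : Finset D.K) {i : ℕ} (h : i < t.length) :
    D.cv t A (i + 1) = entry t[i] (D.lab t[i] ∈ A) := by
  simp [cv, h]

lemma cv_succ_of_le {t : List ℕ} (A : Finset D.K) {i : ℕ} (h : t.length ≤ i) :
    D.cv t A (i + 1) = 0 := by
  simp [cv, not_lt.2 h]

lemma cv_mem_Z (hT : D.IsTree) {t : List ℕ} (ht : t ∈ D.T) (A : Finset D.K) :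
    D.cv t A ∈ D.Z := by
  right
  refine ⟨⟨rfl, fun i hi => ?_⟩, fun n hn => ?_, fun j => ?_⟩
  · by_cases h : i < t.length
    · rw [D.cv_succ_of_lt A h] at hi
      exact absurd hi (entry_ne _ _)
    · rw [show i + 2 = (i + 1) + 1 from rfl]
      exact D.cv_succ_of_le A (by omega)
  · have h : n < t.length := by
      by_contra hcon
      exact hn (D.cv_succ_of_le A (not_lt.1 hcon))
    have h1 : pre (D.cv t A) (n + 1) = t.take (n + 1) := by
      apply List.ext_getElem
      · simp [pre]; omega
      · intro i h1 h2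
        simp only [pre, List.length_map, List.length_range] at h1
        have h3 : i < t.length := by omega
        simp only [pre, List.getElem_map, List.getElem_range, List.getElem_take]
        rw [D.cv_succ_of_lt A h3, mm_entry]
    rw [h1]
    exact hT t _ ht
  · exact ⟨max j t.length, le_max_left _ _, Or.inl (D.cv_succ_of_le A (le_max_right _ _))⟩

lemma FF_sub (hT : D.IsTree) (p : D.Pg) : D.FF p.1.1 p.1.2 ⊆ D.Z := by
  rintro w ((⟨k, -, rfl⟩ | ⟨j, -, rfl⟩) | hw)
  · exact D.dp_mem_Z _
  · exact D.dp_mem_Z _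
  · obtain ⟨t, ht, rfl⟩ := D.mem_F3 hw
    exact D.cv_mem_Z hT (p.2.2 t ht) _

end FlagData

/-- truncation of a sequence -/
def trn (w : ℕ → ℕ) (n : ℕ) : ℕ → ℕ := fun i => if i < n then w i else 0

lemma tendsto_trn (w : ℕ → ℕ) : Tendsto (trn w) atTop (𝓝 w) := by
  rw [tendsto_pi_nhds]
  intro i
  apply tendsto_const_nhds.congr'
  filter_upwards [eventually_gt_atTop i] with n hn
  simp [trn, hn]

/-- two sequences which agree up to `n` -/
lemma isOpen_agree (w : ℕ → ℕ) (n : ℕ) : IsOpen {w' : ℕ → ℕ | ∀ i ≤ n, w' i = w i} := by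
  have : {w' : ℕ → ℕ | ∀ i ≤ n, w' i = w i} =
      ⋂ i ∈ Finset.range (n + 1), (fun w' : ℕ → ℕ => w' i) ⁻¹' {w i} := by
    ext w'
    simp only [mem_iInter, Finset.mem_range, mem_preimage, mem_singleton_iff]
    constructor
    · intro h i hi
      exact h i (by omega)
    · intro h i hi
      exact h i (by omega)
  rw [this]
  exact isOpen_biInter_finset fun i _ => (isOpen_discrete _).preimage (continuous_apply i)

namespace FlagData

variable (D : FlagData)

lemma zero_of_zero {w : ℕ → ℕ} (hw : w ∈ D.Zf) {i : ℕ} (hi : w (i + 1) = 0) {j : ℕ}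
    (hij : i ≤ j) : w (j + 1) = 0 := by
  induction j, hij using Nat.le_induction with
  | base => exact hi
  | succ j _ ih => exact hw.1.2 j ih

lemma isolated_zero {w : ℕ → ℕ} (hw : w ∈ D.Zf) {i : ℕ} (hi : w (i + 1) = 0) :
    ∃ O, IsOpen O ∧ O ∩ D.Z = {w} := by
  refine ⟨_, isOpen_agree w (i + 1), ?_⟩
  ext w'
  constructor
  · rintro ⟨h1, h2⟩
    have h0 : w' 0 = 0 := by
      rw [h1 0 (by omega)]
      exact hw.1.1
    have h3 : w' ∈ D.Zf := by
      rcases h2 with h2 | h2
      · exact absurd h0 h2.1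
      · exact h2
    have h4 : w' (i + 1) = 0 := by
      rw [h1 (i + 1) le_rfl]
      exact hi
    rw [mem_singleton_iff]
    funext m
    rcases le_or_gt m (i + 1) with hm | hm
    · exact h1 m hm
    · obtain ⟨j, rfl⟩ : ∃ j, m = j + 1 := ⟨m - 1, by omega⟩
      rw [D.zero_of_zero hw hi (by omega : i ≤ j), D.zero_of_zero h3 h4 (by omega : i ≤ j)]
  · intro hw'
    rw [mem_singleton_iff] at hw'
    subst hw'
    exact ⟨fun _ _ => rfl, Or.inr hw⟩

lemma isolated_disc {w : ℕ → ℕ} (hw : w ∈ Zd) : ∃ O, IsOpen O ∧ O ∩ D.Z = {w} := by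
  refine ⟨_, isOpen_agree w 0, ?_⟩
  ext w'
  constructor
  · rintro ⟨h1, h2⟩
    have h0 : w' 0 = w 0 := h1 0 le_rfl
    have h3 : w' ∈ Zd := by
      rcases h2 with h2 | h2
      · exact h2
      · have h4 := hw.1
        rw [← h0] at h4
        exact absurd h2.1.1 h4
    rw [mem_singleton_iff]
    funext m
    rcases Nat.eq_zero_or_pos m with rfl | hm
    · exact h0
    · obtain ⟨j, rfl⟩ : ∃ j, m = j + 1 := ⟨m - 1, by omega⟩
      rw [hw.2, h3.2]
  · intro hw'
    rw [mem_singleton_iff] at hw'
    subst hw'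
    exact ⟨fun _ _ => rfl, Or.inl hw⟩

lemma trn_mem_Zf {w : ℕ → ℕ} (hw : w ∈ D.Zf) (n : ℕ) : trn w n ∈ D.Zf := by
  refine ⟨⟨?_, fun i hi => ?_⟩, fun m hm => ?_, fun j => ?_⟩
  · simp only [trn]
    split_ifs
    · exact hw.1.1
    · rfl
  · simp only [trn] at hi ⊢
    by_cases h1 : i + 2 < n
    · rw [if_pos (by omega)] at hi
      rw [if_pos h1]
      exact hw.1.2 i hi
    · rw [if_neg h1]
  · have h1 : m + 1 < n := by
      by_contra hcon
      simp [trn, hcon] at hm
    have h2 : w (m + 1) ≠ 0 := by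
      simpa [trn, h1] using hm
    have h3 : pre (trn w n) (m + 1) = pre w (m + 1) := by
      unfold pre
      apply List.map_congr_left
      intro i hi
      rw [List.mem_range] at hi
      have : i + 1 < n := by omega
      simp [trn, this]
    rw [h3]
    exact hw.2.1 m h2
  · refine ⟨max j n, le_max_left _ _, Or.inl ?_⟩
    have : ¬ (max j n + 1 < n) := by
      have := le_max_right j n
      omega
    simp [trn, this]

lemma dense_Z (z : ℕ → ℕ) (hz : z ∈ D.Z) :
    z ∈ closure {w | w ∈ D.Z ∧ ∃ O, IsOpen O ∧ O ∩ D.Z = {w}} := by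
  rcases hz with hz | hz
  · exact subset_closure ⟨Or.inl hz, D.isolated_disc hz⟩
  · apply mem_closure_of_tendsto (tendsto_trn z)
    apply Eventually.of_forall
    intro n
    refine ⟨Or.inr (D.trn_mem_Zf hz n), D.isolated_zero (D.trn_mem_Zf hz n) (i := n) ?_⟩
    simp [trn]

/-- The page system. -/
noncomputable def sys (hT : D.IsTree) : PageSys where
  Z := D.Z
  gdelta := D.isGδ_Z
  H := D.Pg
  countH := by
    have := D.countK
    have := D.countL
    unfold Pg
    infer_instance
  F := fun p => D.FF p.1.1 p.1.2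
  finF := fun p => D.FF_finite _ _
  neF := fun p => D.FF_nonempty _ _
  subF := fun p => D.FF_sub hT p
  dense := D.dense_Z

/-- The active pages. -/
def Act (d : Set D.L) : Set D.Pg :=
  {p | ∀ i, p.1.1 = Sum.inr (Sum.inl i) → (Odd p.1.2.card ↔ i ∈ d)}

end FlagData

end Pool.Agent.H73.PolishHomeo
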