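import Pool.Agent.H73.PolishHomeo.FlagsIso

/-!
# Homeomorphisms give solutions of the constraint system
-/

set_option autoImplicit false

open Set Topology Filter

namespace Pool.Agent.H73.PolishHomeo

namespace FlagData

variable (D : FlagData)

open Classical in
/-- pins -/
noncomputable def pin (b : Bool) (k : D.K) (a : Bool) : D.Pg :=
  ⟨(Sum.inl (b, k), if a = true then {k} else ∅), by
    refine ⟨?_, fun t ht => ?_⟩
    · simp only [J]
      split_ifs
      · exact Finset.Subset.refl _
      · exact Finset.empty_subset _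
    · exact absurd ht (by simp)⟩

/-- joint marks -/
noncomputable def jm (k : D.K) (a : Bool) : ℕ → ℕ := D.dp (Sum.inl (k, a))

lemma jm_inj {k k' : D.K} {a a' : Bool} (h : D.jm k a = D.jm k' a') : k = k' ∧ a = a' := by
  have := D.dp_inj h
  simpa using this

lemma jm_mem_pin (b : Bool) (k : D.K) (a : Bool) :
    D.jm k a ∈ D.FF (D.pin b k a).1.1 (D.pin b k a).1.2 := by
  left; left
  refine ⟨k, ?_, ?_⟩
  · simp [pin, J]
  · simp only [pin, jm]
    congr 3
    cases a <;> simp

lemma mem_FF {n : D.Nm} {A : Finset D.K} {w : ℕ → ℕ} (hw : w ∈ D.FF n A) :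
    (∃ k ∈ D.J n, ∃ a, w = D.jm k a ∧ (a = true ↔ k ∈ A)) ∨
    (∃ j, w = D.dp (Sum.inr (n, A, j))) ∨
    (∃ t, n = Sum.inr (Sum.inr t) ∧ w = D.cv t A) := by
  classical
  rcases hw with (⟨k, hk, rfl⟩ | ⟨j, hj, rfl⟩) | hw
  · left
    refine ⟨k, hk, decide (k ∈ A), ?_, by simp⟩
    simp only [jm]
  · right; left
    exact ⟨j, rfl⟩
  · right; right
    exact D.mem_F3 hw

lemma jm_mem_FF {n : D.Nm} {A : Finset D.K} {k : D.K} {a : Bool} (h : D.jm k a ∈ D.FF n A) :
    a = true ↔ k ∈ A := by
  rcases D.mem_FF h with ⟨k', hk', a', he, ha⟩ | ⟨j, hj⟩ | ⟨t, -, ht⟩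
  · obtain ⟨rfl, rfl⟩ := D.jm_inj he
    exact ha
  · have := D.dp_inj hj
    simp at this
  · have := congrFun ht 0
    simp [jm, dp, cv] at this

/-- **Homeomorphisms give solutions of the constraint system.** -/
theorem solution_of_homeo (hT : D.IsTree) {d d' : Set D.L}
    (e : Pt.X (D.sys hT) (D.Act d) ≃ₜ Pt.X (D.sys hT) (D.Act d')) :
    ∃ C : Set D.K, D.Par C d d' ∧ D.Conv C := by
  classical
  obtain ⟨ψ, φ, h1', h2', h3', h4'⟩ := Pt.comb_of_homeo e
  have h1 : ∀ p : D.Pg, p ∈ D.Act d → (φ p : D.Pg) ∈ D.Act d' ∧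
      D.FF (show D.Pg from φ p).1.1 (show D.Pg from φ p).1.2 = ψ '' D.FF p.1.1 p.1.2 := h1'
  have h2 : ∀ p : D.Pg, p ∈ D.Act d → ∀ q : D.Pg, q ∈ D.Act d → ∀ v₁ ∈ D.FF p.1.1 p.1.2,
      ∀ v₂ ∈ D.FF q.1.1 q.1.2, ψ v₁ = ψ v₂ → v₁ = v₂ := h2'
  have h3 : ∀ w ∈ D.Z, ψ w ∈ D.Z := h3'
  have h4 : ∀ (u : ℕ → (ℕ → ℕ)) (w : ℕ → ℕ), (∀ n, u n ∈ D.Z) → w ∈ D.Z →
      Tendsto u atTop (𝓝 w) → Tendsto (fun n => ψ (u n)) atTop (𝓝 (ψ w)) := h4'
  clear h1' h2' h3' h4'
  let φ' : D.Pg → D.Pg := φ
  change ∀ p : D.Pg, p ∈ D.Act d → φ' p ∈ D.Act d' ∧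
      D.FF (φ' p).1.1 (φ' p).1.2 = ψ '' D.FF p.1.1 p.1.2 at h1
  clear_value φ'
  -- names are preserved
  have hname : ∀ p ∈ D.Act d, (φ' p).1.1 = p.1.1 := by
    intro p hp
    apply D.tot_inj
    rw [← D.FF_ncard _ (φ' p).1.2, ← D.FF_ncard _ p.1.2, (h1 p hp).2]
    apply InjOn.ncard_image
    intro v₁ hv₁ v₂ hv₂ he
    exact h2 p hp p hp v₁ hv₁ v₂ hv₂ he
  have hpin : ∀ b k a, D.pin b k a ∈ D.Act d := by
    intro b k a i hi
    exact absurd hi (by simp [pin])
  -- joint marks go to joint marks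
  have hj1 : ∀ k a, ∃ a', ψ (D.jm k a) = D.jm k a' := by
    intro k a
    have m1 : ∀ b, ψ (D.jm k a) ∈ D.FF (Sum.inl (b, k)) (φ' (D.pin b k a)).1.2 := by
      intro b
      have e1 := hname _ (hpin b k a)
      have e2 := (h1 _ (hpin b k a)).2
      have e3 : ψ (D.jm k a) ∈ ψ '' D.FF (D.pin b k a).1.1 (D.pin b k a).1.2 :=
        ⟨_, D.jm_mem_pin b k a, rfl⟩
      rw [← e2, e1] at e3
      exact e3
    rcases D.mem_FF (m1 false) with ⟨k', hk', a', he, -⟩ | ⟨j, hj⟩ | ⟨t, ht, -⟩
    · have : k' = k := by simpa [J] using hk'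
      rw [this] at he
      exact ⟨a', he⟩
    · exfalso
      rcases D.mem_FF (m1 true) with ⟨k', hk', a', he, -⟩ | ⟨j', hj'⟩ | ⟨t, ht, -⟩
      · rw [hj] at he
        have := D.dp_inj he
        simp at this
      · rw [hj] at hj'
        have := D.dp_inj hj'
        simp at this
      · exact absurd ht (by simp)
    · exact absurd ht (by simp)
  obtain ⟨C, hCdef⟩ : ∃ C : Set D.K, ∀ k, k ∈ C ↔ ψ (D.jm k false) = D.jm k true :=
    ⟨{k | ψ (D.jm k false) = D.jm k true}, fun k => Iff.rfl⟩
  have hj2 : ∀ k a, ψ (D.jm k a) = D.jm k (xor a (decide (k ∈ C))) := by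
    intro k a
    obtain ⟨a0, ha0⟩ := hj1 k false
    obtain ⟨a1, ha1⟩ := hj1 k true
    have hne : a0 ≠ a1 := by
      intro he
      rw [← he, ← ha0] at ha1
      have := h2 _ (hpin true k true) _ (hpin true k false) _ (D.jm_mem_pin true k true) _
        (D.jm_mem_pin true k false) ha1
      have := (D.jm_inj this).2
      exact absurd this (by simp)
    have hC : k ∈ C ↔ a0 = true := by
      rw [hCdef, ha0]
      constructor
      · intro he
        exact (D.jm_inj he).2
      · intro he
        rw [he]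
    cases a with
    | false =>
      rw [ha0]
      congr 1
      cases a0 with
      | false => simp [hC]
      | true => simp [hC]
    | true =>
      rw [ha1]
      congr 1
      cases a0 with
      | false =>
        have : a1 = true := by
          cases a1
          · exact absurd rfl hne
          · rfl
        simp [hC, this]
      | true =>
        have : a1 = false := by
          cases a1
          · rfl
          · exact absurd rfl hne
        simp [hC, this]
  -- effect on pages
  have hpage : ∀ p ∈ D.Act d, (φ' p).1.2 = symmDiff p.1.2 (D.JC C p.1.1) := by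
    intro p hp
    ext k
    by_cases hk : k ∈ D.J p.1.1
    · have m1 : D.jm k (decide (k ∈ p.1.2)) ∈ D.FF p.1.1 p.1.2 := by
        left; left
        refine ⟨k, hk, ?_⟩
        simp only [jm]
      have m2 : D.jm k (xor (decide (k ∈ p.1.2)) (decide (k ∈ C))) ∈
          D.FF (φ' p).1.1 (φ' p).1.2 := by
        rw [(h1 p hp).2, ← hj2]
        exact ⟨_, m1, rfl⟩
      rw [← D.jm_mem_FF m2]
      simp only [Finset.mem_symmDiff, JC, Finset.mem_filter, hk, true_and]
      by_cases e1 : k ∈ p.1.2 <;> by_cases e2 : k ∈ C <;> simp [e1, e2]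
    · have e1 : k ∉ (φ' p).1.2 := by
        intro h
        have := (φ' p).2.1 h
        rw [hname p hp] at this
        exact hk this
      have e2 : k ∉ p.1.2 := fun h => hk (p.2.1 h)
      have e3 : k ∉ D.JC C p.1.1 := fun h => hk (Finset.mem_filter.1 h).1
      simp [Finset.mem_symmDiff, e1, e2, e3]
  refine ⟨C, ?_, ?_⟩
  · -- parity
    intro i
    obtain ⟨k0, hk0⟩ := D.S_ne i
    let p : D.Pg := ⟨(Sum.inr (Sum.inl i), if i ∈ d then {k0} else ∅), by
      refine ⟨?_, fun t ht => ?_⟩
      · simp only [J]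
        split_ifs
        · exact Finset.singleton_subset_iff.2 hk0
        · exact Finset.empty_subset _
      · exact absurd ht (by simp)⟩
    have hodd : Odd p.1.2.card ↔ i ∈ d := by
      simp only [p]
      by_cases h : i ∈ d <;> simp [h]
    have hp : p ∈ D.Act d := by
      intro i' hi'
      have : i = i' := by simpa [p] using hi'
      subst this
      exact hodd
    have e1 := (h1 p hp).1 i (hname p hp)
    rw [hpage p hp, odd_symmDiff, hodd] at e1
    change (¬ (i ∈ d ↔ Odd (D.JC C (Sum.inr (Sum.inl i))).card)) ↔ i ∈ d' at e1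
    tauto
  · -- convergence
    intro β hβ
    by_contra hinf
    let t : ℕ → List ℕ := fun n => (List.range (n + 1)).map β
    have htlen : ∀ n, (t n).length = n + 1 := fun n => by simp [t]
    have htget : ∀ n i (h : i < (t n).length), (t n)[i] = β i := fun n i h => by simp [t]
    let pf : ℕ → D.Pg := fun n => ⟨(Sum.inr (Sum.inr (t n)), D.JC C (Sum.inr (Sum.inr (t n)))), by
      refine ⟨Finset.filter_subset _ _, fun t' ht' => ?_⟩
      have : t n = t' := by simpa using ht'
      rw [← this]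
      exact hβ n⟩
    have hpf : ∀ n, pf n ∈ D.Act d := by
      intro n i hi
      exact absurd hi (by simp [pf])
    let v : ℕ → (ℕ → ℕ) := fun n => D.cv (t n) (D.JC C (Sum.inr (Sum.inr (t n))))
    have hv : ∀ n, v n ∈ D.FF (pf n).1.1 (pf n).1.2 := fun n => Or.inr rfl
    have hvZ : ∀ n, v n ∈ D.Z := fun n => D.cv_mem_Z hT (hβ n) _
    let w : ℕ → ℕ := fun i => if i = 0 then 0 else entry (β (i - 1)) (D.lab (β (i - 1)) ∈ C)
    have hw0 : w 0 = 0 := rfl
    have hwS : ∀ i, w (i + 1) = entry (β i) (D.lab (β i) ∈ C) := fun i => by simp [w]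
    have hwZ : w ∈ D.Z := by
      right
      refine ⟨⟨hw0, fun i hi => ?_⟩, fun n _ => ?_, fun j => ?_⟩
      · rw [hwS] at hi
        exact absurd hi (entry_ne _ _)
      · have : pre w (n + 1) = (List.range (n + 1)).map β := by
          unfold pre
          apply List.map_congr_left
          intro i _
          rw [hwS, mm_entry]
        rw [this]
        exact hβ n
      · obtain ⟨i, hi, hji⟩ := Set.Infinite.exists_gt hinf j
        refine ⟨i, hji.le, Or.inr ?_⟩
        rw [hwS, bt_entry]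
        exact hi
    have hvval : ∀ A : ℕ → Finset D.K, ∀ i n, i ≤ n →
        D.cv (t n) (A n) (i + 1) = entry (β i) (D.lab (β i) ∈ A n) := by
      intro A i n hin
      have hlt : i < (t n).length := by rw [htlen]; omega
      rw [D.cv_succ_of_lt _ hlt, htget]
    have hlim : Tendsto v atTop (𝓝 w) := by
      rw [tendsto_pi_nhds]
      intro i
      apply tendsto_const_nhds.congr'
      rcases Nat.eq_zero_or_pos i with rfl | hi
      · exact Eventually.of_forall fun n => rfl
      · obtain ⟨j, rfl⟩ : ∃ j, i = j + 1 := ⟨i - 1, by omega⟩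
        filter_upwards [eventually_ge_atTop j] with n hn
        rw [hwS]
        change _ = D.cv (t n) _ (j + 1)
        rw [hvval (fun n => D.JC C (Sum.inr (Sum.inr (t n)))) j n hn]
        apply entry_congr
        have hJ : D.lab (β j) ∈ D.J (Sum.inr (Sum.inr (t n))) := by
          simp only [J, List.mem_toFinset, List.mem_map]
          have hlt : j < (t n).length := by rw [htlen]; omega
          exact ⟨β j, by rw [← htget n j hlt]; exact List.getElem_mem hlt, rfl⟩
        simp only [JC, Finset.mem_filter, hJ, true_and]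
    have hψlim := h4 v w hvZ hwZ hlim
    have hψw := h3 w hwZ
    have hψmem : ∀ n, ψ (v n) ∈ D.FF (Sum.inr (Sum.inr (t n))) ∅ := by
      intro n
      have e1 := (h1 _ (hpf n)).2
      have e2 := hpage _ (hpf n)
      have e3 := hname _ (hpf n)
      have e4 : symmDiff (pf n).1.2 (D.JC C (pf n).1.1) = ∅ := symmDiff_self _
      rw [e4] at e2
      rw [e2, e3] at e1
      change D.FF (Sum.inr (Sum.inr (t n))) ∅ = _ at e1
      rw [e1]
      exact ⟨_, hv n, rfl⟩
    have hcase : ∀ n, (∃ x, ψ (v n) = D.dp x) ∨ ψ (v n) = D.cv (t n) ∅ := by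
      intro n
      rcases D.mem_FF (hψmem n) with ⟨k, -, a, he, -⟩ | ⟨j, hj⟩ | ⟨t', ht', he⟩
      · exact Or.inl ⟨_, he⟩
      · exact Or.inl ⟨_, hj⟩
      · have : t n = t' := by simpa using ht'
        rw [← this] at he
        exact Or.inr he
    have hlimc : ∀ i, ∀ᶠ n in atTop, ψ (v n) i = ψ w i := by
      intro i
      have := (tendsto_pi_nhds.1 hψlim) i
      rw [nhds_discrete, tendsto_pure] at this
      exact this
    by_cases hψ0 : ψ w 0 = 0
    · have hcv : ∀ᶠ n in atTop, ψ (v n) = D.cv (t n) ∅ := by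
        filter_upwards [hlimc 0] with n hn
        rcases hcase n with ⟨x, hx⟩ | h
        · rw [hx, dp_zero, hψ0] at hn
          omega
        · exact h
      have hval : ∀ i, ψ w (i + 1) = entry (β i) False := by
        intro i
        obtain ⟨n, ⟨e1, e2⟩, e3⟩ := ((hcv.and (hlimc (i + 1))).and (eventually_ge_atTop i)).exists
        rw [← e2, e1, hvval (fun _ => ∅) i n e3]
        apply entry_congr
        simp
      rcases hψw with h | h
      · exact h.1 hψ0
      · obtain ⟨i, -, hi⟩ := h.2.2 0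
        rw [hval i] at hi
        rcases hi with hi | hi
        · exact entry_ne _ _ hi
        · exact (bt_entry _ _).1 hi
    · obtain ⟨n, e1, e2⟩ := ((hlimc 0).and ((tendsto_add_atTop_nat 1).eventually (hlimc 0))).exists
      have hd : ∀ m, ψ (v m) 0 = ψ w 0 → ∃ x, ψ (v m) = D.dp x := by
        intro m hm
        rcases hcase m with h | h
        · exact h
        · rw [h] at hm
          exact absurd hm.symm hψ0
      obtain ⟨x, hx⟩ := hd n e1
      obtain ⟨y, hy⟩ := hd (n + 1) e2
      have hxy : x = y := by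
        apply D.eD.injective
        have h5 : D.dp x 0 = D.dp y 0 := by rw [← hx, ← hy, e1, e2]
        rw [dp_zero, dp_zero] at h5
        omega
      have h6 : v n = v (n + 1) :=
        h2 _ (hpf n) _ (hpf (n + 1)) _ (hv n) _ (hv (n + 1)) (by rw [hx, hy, hxy])
      have h7 := congrFun h6 (n + 2)
      have h8 : v n (n + 2) = 0 := D.cv_succ_of_le _ (by rw [htlen])
      have h9 : v (n + 1) (n + 2) ≠ 0 := by
        change D.cv (t (n + 1)) _ ((n + 1) + 1) ≠ 0
        rw [hvval (fun n => D.JC C (Sum.inr (Sum.inr (t n)))) (n + 1) (n + 1) le_rfl]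
        exact entry_ne _ _
      rw [h8] at h7
      exact h9 h7.symm

end FlagData

end Pool.Agent.H73.PolishHomeo
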