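import Pool.Agent.H73.PolishHomeo.Flags

/-!
# Solutions of the constraint system give homeomorphisms
-/

set_option autoImplicit false

open Set Topology Filter

namespace Pool.Agent.H73.PolishHomeo

namespace FlagData

variable (D : FlagData)

open Classical in
/-- the active flips of a page -/
noncomputable def JC (C : Set D.K) (n : D.Nm) : Finset D.K := (D.J n).filter (· ∈ C)

/-- `C` solves the parity constraints for `d` and `d'`. -/
def Par (C : Set D.K) (d d' : Set D.L) : Prop :=
  ∀ i, (Odd (D.JC C (Sum.inr (Sum.inl i))).card ↔ ¬ (i ∈ d ↔ i ∈ d'))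

/-- `C` meets every infinite branch of the tree finitely often. -/
def Conv (C : Set D.K) : Prop :=
  ∀ β : ℕ → ℕ, (∀ n, (List.range (n + 1)).map β ∈ D.T) → {n | D.lab (β n) ∈ C}.Finite

open Classical in
/-- flip of an entry -/
noncomputable def fl (C : Set D.K) (n : ℕ) : ℕ :=
  if n = 0 then 0 else if D.lab (mm n) ∈ C then (if bt n then n - 1 else n + 1) else n

lemma fl_eq_zero (C : Set D.K) (n : ℕ) : D.fl C n = 0 ↔ n = 0 := by
  unfold fl
  by_cases h0 : n = 0
  · simp [h0]
  · simp only [h0, if_false, iff_false]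
    by_cases h1 : D.lab (mm n) ∈ C
    · rw [if_pos h1]
      by_cases h2 : bt n
      · rw [if_pos h2]
        unfold bt at h2; omega
      · rw [if_neg h2]
        omega
    · rw [if_neg h1]
      exact h0

lemma mm_fl (C : Set D.K) (n : ℕ) : mm (D.fl C n) = mm n := by
  unfold fl
  split_ifs with h0 h1 h2
  · simp [h0]
  · unfold bt at h2; unfold mm; omega
  · unfold bt at h2; unfold mm; omega
  · rfl

lemma bt_fl (C : Set D.K) {n : ℕ} (hn : n ≠ 0) (hC : D.lab (mm n) ∈ C) :
    bt (D.fl C n) ↔ ¬ bt n := by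
  unfold fl
  rw [if_neg hn, if_pos hC]
  split_ifs with h2
  · simp only [h2, not_true, iff_false]
    unfold bt at h2 ⊢; omega
  · simp only [h2, not_false_iff, iff_true]
    unfold bt at h2 ⊢; omega

lemma fl_of_not (C : Set D.K) {n : ℕ} (hC : D.lab (mm n) ∉ C) :
    D.fl C n = n := by
  unfold fl
  rw [if_neg hC]
  split_ifs with h
  · exact h.symm
  · rfl

lemma fl_fl (C : Set D.K) (n : ℕ) : D.fl C (D.fl C n) = n := by
  by_cases h0 : n = 0
  · subst h0
    simp [fl]
  · by_cases hC : D.lab (mm n) ∈ C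
    · have h1 : D.fl C n ≠ 0 := fun h => h0 ((D.fl_eq_zero C n).1 h)
      have h2 : D.lab (mm (D.fl C n)) ∈ C := by rw [mm_fl]; exact hC
      have h3 := D.bt_fl C h0 hC
      by_cases hb : bt n
      · have e1 : D.fl C n = n - 1 := by
          unfold fl
          rw [if_neg h0, if_pos hC, if_pos hb]
        have hb' : ¬ bt (D.fl C n) := by rw [h3]; exact fun h => h hb
        have e2 : D.fl C (D.fl C n) = D.fl C n + 1 := by
          rw [fl, if_neg h1, if_pos h2, if_neg hb']
        rw [e2, e1]; omega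
      · have e1 : D.fl C n = n + 1 := by
          unfold fl
          rw [if_neg h0, if_pos hC, if_neg hb]
        have hb' : bt (D.fl C n) := by rw [h3]; exact hb
        have e2 : D.fl C (D.fl C n) = D.fl C n - 1 := by
          rw [fl, if_neg h1, if_pos h2, if_pos hb']
        rw [e2, e1]; omega
    · rw [D.fl_of_not C (n := D.fl C n) (by rw [mm_fl]; exact hC), D.fl_of_not C hC]

lemma entry_congr (m : ℕ) {b c : Prop} (h : b ↔ c) : entry m b = entry m c := by
  rw [propext h]

lemma fl_entry (C : Set D.K) (m : ℕ) (b : Prop) :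
    D.fl C (entry m b) = entry m (¬ (b ↔ D.lab m ∈ C)) := by
  by_cases hC : D.lab m ∈ C
  · unfold fl
    rw [if_neg (entry_ne m b), mm_entry, if_pos hC]
    by_cases hb : b
    · rw [if_pos ((bt_entry m b).2 hb)]
      have : ¬ ¬ (b ↔ D.lab m ∈ C) := by simp [hb, hC]
      unfold entry
      rw [if_pos hb, if_neg this]
      omega
    · rw [if_neg (fun h => hb ((bt_entry m b).1 h))]
      have : ¬ (b ↔ D.lab m ∈ C) := by simp [hb, hC]
      unfold entry
      rw [if_neg hb, if_pos this]
  · rw [D.fl_of_not C (by rw [mm_entry]; exact hC)]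
    apply entry_congr
    simp [hC]

open Classical in
/-- permutation of the discrete marks -/
noncomputable def pm (C : Set D.K) : D.DM → D.DM
  | Sum.inl (k, a) => Sum.inl (k, xor a (decide (k ∈ C)))
  | Sum.inr (n, A, j) => Sum.inr (n, symmDiff A (D.JC C n), j)

lemma pm_pm (C : Set D.K) (x : D.DM) : D.pm C (D.pm C x) = x := by
  classical
  rcases x with ⟨k, a⟩ | ⟨n, A, j⟩
  · simp only [pm]
    congr 2
    cases a <;> cases decide (k ∈ C) <;> rfl
  · simp only [pm]
    congr 3
    exact symmDiff_symmDiff_cancel_right _ _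

/-- The map of positions. -/
noncomputable def psi (C : Set D.K) (w : ℕ → ℕ) : ℕ → ℕ := fun i =>
  if w 0 = 0 then D.fl C (w i)
  else if i = 0 then D.eD (D.pm C (D.eD.symm (w 0 - 1))) + 1 else w i

lemma continuous_psi (C : Set D.K) : Continuous (D.psi C) := by
  apply continuous_pi
  intro i
  have h1 : Continuous (fun w : ℕ → ℕ => (w 0, w i)) :=
    (continuous_apply 0).prodMk (continuous_apply i)
  have h2 : Continuous (fun q : ℕ × ℕ => if q.1 = 0 then D.fl C q.2
    else if i = 0 then D.eD (D.pm C (D.eD.symm (q.1 - 1))) + 1 else q.2) :=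
    continuous_of_discreteTopology
  exact h2.comp h1

lemma psi_zero_zero (C : Set D.K) {w : ℕ → ℕ} (h : w 0 = 0) (i : ℕ) :
    D.psi C w i = D.fl C (w i) := by simp [psi, h]

lemma psi_psi (C : Set D.K) (w : ℕ → ℕ) : D.psi C (D.psi C w) = w := by
  funext i
  by_cases h : w 0 = 0
  · have h1 : D.psi C w 0 = 0 := by
      rw [D.psi_zero_zero C h, h]
      simp [fl]
    rw [D.psi_zero_zero C h1, D.psi_zero_zero C h, fl_fl]
  · have h1 : D.psi C w 0 = D.eD (D.pm C (D.eD.symm (w 0 - 1))) + 1 := by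
      simp [psi, h]
    have h2 : D.psi C w 0 ≠ 0 := by rw [h1]; omega
    rcases Nat.eq_zero_or_pos i with rfl | hi
    · have h3 : D.psi C (D.psi C w) 0 =
          D.eD (D.pm C (D.eD.symm (D.psi C w 0 - 1))) + 1 := by
        rw [psi, if_neg h2, if_pos rfl]
      rw [h3, h1, Nat.add_sub_cancel, Equiv.symm_apply_apply, pm_pm, Equiv.apply_symm_apply]
      omega
    · have h3 : D.psi C (D.psi C w) i = D.psi C w i := by
        rw [psi, if_neg h2, if_neg hi.ne']
      rw [h3, psi, if_neg h, if_neg hi.ne']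

lemma psi_dp (C : Set D.K) (x : D.DM) : D.psi C (D.dp x) = D.dp (D.pm C x) := by
  funext i
  have h0 : D.dp x 0 ≠ 0 := by rw [dp_zero]; omega
  rcases Nat.eq_zero_or_pos i with rfl | hi
  · rw [psi, if_neg h0, if_pos rfl, dp_zero, dp_zero, Nat.add_sub_cancel,
      Equiv.symm_apply_apply]
  · obtain ⟨j, rfl⟩ : ∃ j, i = j + 1 := ⟨i - 1, by omega⟩
    rw [psi, if_neg h0, if_neg hi.ne', dp_succ, dp_succ]

open Classical in
lemma psi_cv (C : Set D.K) (t : List ℕ) (A : Finset D.K) :
    D.psi C (D.cv t A) = D.cv t (symmDiff A (D.JC C (Sum.inr (Sum.inr t)))) := by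
  funext i
  have h0 : D.cv t A 0 = 0 := rfl
  rw [D.psi_zero_zero C h0]
  rcases Nat.eq_zero_or_pos i with rfl | hi
  · rw [h0]
    simp [fl, cv]
  · obtain ⟨j, rfl⟩ : ∃ j, i = j + 1 := ⟨i - 1, by omega⟩
    by_cases hj : j < t.length
    · rw [D.cv_succ_of_lt _ hj, D.cv_succ_of_lt _ hj, fl_entry]
      have hJ : D.lab t[j] ∈ D.J (Sum.inr (Sum.inr t)) := by
        simp only [J, List.mem_toFinset, List.mem_map]
        exact ⟨t[j], List.getElem_mem hj, rfl⟩
      apply entry_congr
      rw [Finset.mem_symmDiff]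
      simp only [JC, Finset.mem_filter, hJ, true_and]
      tauto
    · rw [D.cv_succ_of_le _ (not_lt.1 hj), D.cv_succ_of_le _ (not_lt.1 hj)]
      simp [fl]

lemma psi_mem_Z (C : Set D.K) (hC : D.Conv C) (w : ℕ → ℕ) (hw : w ∈ D.Z) :
    D.psi C w ∈ D.Z := by
  rcases hw with hw | hw
  · left
    have h0 := hw.1
    refine ⟨?_, fun i => ?_⟩
    · rw [psi, if_neg h0, if_pos rfl]
      omega
    · rw [psi, if_neg h0, if_neg (Nat.succ_ne_zero i)]
      exact hw.2 i
  · right
    have h0 : w 0 = 0 := hw.1.1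
    refine ⟨⟨?_, fun i hi => ?_⟩, fun n hn => ?_, fun j => ?_⟩
    · rw [D.psi_zero_zero C h0, h0]
      simp [fl]
    · rw [D.psi_zero_zero C h0, fl_eq_zero] at hi ⊢
      exact hw.1.2 i hi
    · rw [D.psi_zero_zero C h0, Ne, fl_eq_zero] at hn
      have h3 : pre (D.psi C w) (n + 1) = pre w (n + 1) := by
        unfold pre
        apply List.map_congr_left
        intro i _
        rw [D.psi_zero_zero C h0, mm_fl]
      rw [h3]
      exact hw.2.1 n hn
    · by_cases hz : ∃ i, w (i + 1) = 0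
      · obtain ⟨i, hi⟩ := hz
        refine ⟨max j i, le_max_left _ _, Or.inl ?_⟩
        rw [D.psi_zero_zero C h0, fl_eq_zero]
        exact D.zero_of_zero hw hi (le_max_right _ _)
      · push Not at hz
        have hβ := hC (fun i => mm (w (i + 1))) (fun n => hw.2.1 n (hz n))
        obtain ⟨N, hN⟩ := hβ.bddAbove
        obtain ⟨i, hi, hi2⟩ := hw.2.2 (max j (N + 1))
        refine ⟨i, le_trans (le_max_left _ _) hi, ?_⟩
        rw [D.psi_zero_zero C h0]
        have h4 : D.lab (mm (w (i + 1))) ∉ C := by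
          intro h5
          have h6 : i ≤ N := hN h5
          have := le_trans (le_max_right j (N + 1)) hi
          omega
        rw [D.fl_of_not C h4]
        exact hi2

open Classical in
/-- The map of pages. -/
noncomputable def phi (C : Set D.K) (p : D.Pg) : D.Pg :=
  ⟨(p.1.1, symmDiff p.1.2 (D.JC C p.1.1)), by
    refine ⟨?_, p.2.2⟩
    intro k hk
    rw [Finset.mem_symmDiff] at hk
    rcases hk with ⟨h, -⟩ | ⟨h, -⟩
    · exact p.2.1 h
    · exact (Finset.mem_filter.1 h).1⟩

lemma phi_phi (C : Set D.K) (p : D.Pg) : D.phi C (D.phi C p) = p := by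
  classical
  apply Subtype.ext
  apply Prod.ext
  · rfl
  · exact symmDiff_symmDiff_cancel_right _ _

lemma psi_mem_FF (C : Set D.K) (p : D.Pg) (v : ℕ → ℕ) (hv : v ∈ D.FF p.1.1 p.1.2) :
    D.psi C v ∈ D.FF (D.phi C p).1.1 (D.phi C p).1.2 := by
  classical
  rcases hv with (⟨k, hk, rfl⟩ | ⟨j, hj, rfl⟩) | hv
  · left; left
    refine ⟨k, hk, ?_⟩
    change _ = D.psi C (D.dp _)
    rw [psi_dp]
    simp only [phi, pm]
    congr 3
    have hk' : k ∈ D.J p.1.1 := hk
    rw [Bool.eq_iff_iff]
    simp only [decide_eq_true_eq, Finset.mem_symmDiff, JC, Finset.mem_filter, hk', true_and]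
    by_cases h1 : k ∈ p.1.2 <;> by_cases h2 : k ∈ C <;> simp [h1, h2]
  · left; right
    refine ⟨j, hj, ?_⟩
    change _ = D.psi C (D.dp _)
    rw [psi_dp]
    rfl
  · right
    obtain ⟨t, ht, rfl⟩ := D.mem_F3 hv
    rw [psi_cv]
    have : (D.phi C p).1.1 = Sum.inr (Sum.inr t) := ht
    rw [this]
    simp only [F3, phi, ht]
    rfl

lemma odd_symmDiff {α : Type} [DecidableEq α] (A B : Finset α) :
    Odd (symmDiff A B).card ↔ ¬ (Odd A.card ↔ Odd B.card) := by
  have h1 : (symmDiff A B).card + 2 * (A ∩ B).card = A.card + B.card := by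
    have e1 : symmDiff A B = (A \ B) ∪ (B \ A) := rfl
    have e2 : Disjoint (A \ B) (B \ A) := disjoint_sdiff_sdiff
    rw [e1, Finset.card_union_of_disjoint e2]
    have e3 := Finset.card_sdiff_add_card_inter A B
    have e4 := Finset.card_sdiff_add_card_inter B A
    rw [Finset.inter_comm B A] at e4
    omega
  have h2 : Odd (symmDiff A B).card ↔ Odd (A.card + B.card) := by
    rw [← h1, Nat.odd_add]
    simp
  rw [h2, Nat.odd_add, ← Nat.not_odd_iff_even]
  tauto

/-- **Solutions of the constraint system give homeomorphisms.** -/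
theorem homeo_of_solution (hT : D.IsTree) {d d' : Set D.L} (C : Set D.K)
    (hP : D.Par C d d') (hC : D.Conv C) :
    Nonempty (Pt.X (D.sys hT) (D.Act d) ≃ₜ Pt.X (D.sys hT) (D.Act d')) := by
  classical
  refine Pt.homeo_of_comb (P := D.sys hT) (D.psi C) (D.phi C) (D.continuous_psi C)
    (D.psi_mem_Z C hC) (D.psi_mem_FF C) (fun w _ => D.psi_psi C w) (D.phi_phi C) ?_
  intro p
  constructor
  · intro hp i hi
    have h1 : p.1.1 = Sum.inr (Sum.inl i) := hi
    have h2 := hp i h1
    have h3 : Odd (D.JC C p.1.1).card ↔ ¬ (i ∈ d ↔ i ∈ d') := by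
      rw [h1]
      exact hP i
    change Odd (symmDiff p.1.2 (D.JC C p.1.1)).card ↔ i ∈ d'
    rw [odd_symmDiff, h2, h3]
    tauto
  · intro hp i hi
    have h1 : p.1.1 = Sum.inr (Sum.inl i) := hi
    have h2 := hp i h1
    change Odd (symmDiff p.1.2 (D.JC C p.1.1)).card ↔ i ∈ d' at h2
    have h3 : Odd (D.JC C p.1.1).card ↔ ¬ (i ∈ d ↔ i ∈ d') := by
      rw [h1]
      exact hP i
    rw [odd_symmDiff, h3] at h2
    tauto

end FlagData

end Pool.Agent.H73.PolishHomeo
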