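import Mathlib

/-!
# `Gδ` subsets of Polish spaces are Polish
-/

set_option autoImplicit false

open Set Topology

namespace Pool.Agent.H73.PolishHomeo

/-- A `Gδ` subset of a Polish space is Polish. -/
theorem polishSpace_of_isGδ {A : Type*} [TopologicalSpace A] [PolishSpace A] {s : Set A}
    (hs : IsGδ s) : PolishSpace s := by
  obtain ⟨f, hf, rfl⟩ := isGδ_iff_eq_iInter_nat.1 hs
  have hP : ∀ n, PolishSpace (f n) := fun n => (hf n).polishSpace
  let g : (⋂ n, f n : Set A) → (∀ n, f n) := fun x n => ⟨x.1, mem_iInter.1 x.2 n⟩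
  have hgc : Continuous g := continuous_pi fun n =>
    Continuous.subtype_mk continuous_subtype_val _
  have hgi : IsInducing g := by
    have h1 : IsInducing ((fun y : (∀ n, f n) => (y 0 : A)) ∘ g) := IsInducing.subtypeVal
    exact IsInducing.of_comp hgc (continuous_subtype_val.comp (continuous_apply 0)) h1
  have hginj : Function.Injective g := fun x y h => by
    have h0 : (g x 0 : A) = g y 0 := congrArg Subtype.val (congrFun h 0)
    exact Subtype.ext h0
  have hrange : range g = {y | ∀ n m, (y n : A) = y m} := by
    ext y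
    constructor
    · rintro ⟨x, rfl⟩ n m
      rfl
    · intro hy
      refine ⟨⟨(y 0 : A), mem_iInter.2 fun n => ?_⟩, ?_⟩
      · rw [hy 0 n]
        exact (y n).2
      · funext n
        exact Subtype.ext (hy 0 n)
  have hclosed : IsClosed (range g) := by
    rw [hrange]
    have : {y : (∀ n, f n) | ∀ n m, (y n : A) = y m} =
        ⋂ n, ⋂ m, {y : (∀ n, f n) | (y n : A) = y m} := by
      ext y; simp
    rw [this]
    exact isClosed_iInter fun n => isClosed_iInter fun m =>
      isClosed_eq (continuous_subtype_val.comp (continuous_apply n))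
        (continuous_subtype_val.comp (continuous_apply m))
  exact (IsClosedEmbedding.mk ⟨hgi, hginj⟩ hclosed).polishSpace

/-- A space which embeds in a Polish space with `Gδ` range is Polish. -/
theorem polishSpace_of_embedding {A B : Type*} [TopologicalSpace A] [TopologicalSpace B]
    [PolishSpace B] {j : A → B} (hj : IsEmbedding j) (hr : IsGδ (range j)) : PolishSpace A := by
  have := polishSpace_of_isGδ hr
  exact (hj.toHomeomorph.isClosedEmbedding).polishSpace

/-- The image of a `Gδ` set under a closed embedding into a metrizable space is `Gδ`. -/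
theorem isGδ_image {A B : Type*} [TopologicalSpace A] [TopologicalSpace B]
    [PolishSpace B] {j : A → B} (hj : IsClosedEmbedding j) {s : Set A} (hs : IsGδ s) :
    IsGδ (j '' s) := by
  obtain ⟨f, hf, rfl⟩ := isGδ_iff_eq_iInter_nat.1 hs
  have h1 : ∀ n, ∃ g : Set B, IsOpen g ∧ j ⁻¹' g = f n := fun n =>
    hj.isInducing.isOpen_iff.1 (hf n)
  choose g hg1 hg2 using h1
  have h2 : j '' (⋂ n, f n) = range j ∩ ⋂ n, g n := by
    ext y
    constructor
    · rintro ⟨x, hx, rfl⟩
      refine ⟨mem_range_self x, mem_iInter.2 fun n => ?_⟩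
      have := mem_iInter.1 hx n
      rw [← hg2 n] at this
      exact this
    · rintro ⟨⟨x, rfl⟩, hx⟩
      refine ⟨x, mem_iInter.2 fun n => ?_, rfl⟩
      rw [← hg2 n]
      exact mem_iInter.1 hx n
  rw [h2]
  let := TopologicalSpace.upgradeIsCompletelyMetrizable B
  exact (hj.isClosed_range.isGδ).inter (IsGδ.iInter_of_isOpen hg1)

end Pool.Agent.H73.PolishHomeo
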