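import Pool.Agent.H73.PolishHomeo.Universal

/-!
# Completeness as a set; failure of `Π¹₂`
-/

set_option autoImplicit false

open Set Topology Filter MeasureTheory

namespace Pool.Agent.H73.PolishHomeo

/-- The initial segment of length `n + 1` of a sequence. -/
def seg (w : ℕ → ℕ) (n : ℕ) : List ℕ := (List.range (n + 1)).map w

/-- Code of a pair of finite sequences. -/
def code (s t : List ℕ) : ℕ := Encodable.encode (s, t)

lemma seg_length (w : ℕ → ℕ) (n : ℕ) : (seg w n).length = n + 1 := by simp [seg]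

lemma seg_eq_iff (w w' : ℕ → ℕ) (n : ℕ) : seg w n = seg w' n ↔ ∀ i ≤ n, w i = w' i := by
  simp [seg]

lemma code_inj {s t s' t' : List ℕ} (h : code s t = code s' t') : s = s' ∧ t = t' := by
  have := Encodable.encode_injective h
  simpa using this

lemma continuous_seg (n : ℕ) : Continuous (fun w : ℕ → ℕ => seg w n) := by
  rw [continuous_discrete_rng]
  intro s
  rw [isOpen_iff_mem_nhds]
  intro w hw
  have h1 : ∀ i, {w' : ℕ → ℕ | w' i = w i} ∈ 𝓝 w := by
    intro i
    exact ((isOpen_discrete ({w i} : Set ℕ)).preimage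
      (continuous_apply i : Continuous (fun w' : ℕ → ℕ => w' i))).mem_nhds rfl
  have h2 : (⋂ i ∈ Finset.range (n + 1), {w' : ℕ → ℕ | w' i = w i}) ∈ 𝓝 w := by
    rw [Filter.biInter_finset_mem]
    intro i _
    exact h1 i
  filter_upwards [h2] with w' hw'
  simp only [mem_preimage, mem_singleton_iff] at hw ⊢
  rw [← hw, seg_eq_iff]
  intro i hi
  have := mem_iInter₂.1 hw' i (Finset.mem_range.2 (Nat.lt_succ_iff.2 hi))
  exact this

/-- `w` belongs to the analytic set coded by `x` -/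
def Coded (x w : ℕ → ℕ) : Prop := ∃ z : ℕ → ℕ, ∀ n, x (code (seg w n) (seg z n)) = 0

/-- Every analytic subset of Baire space has a code. -/
lemma exists_code (D : Set (ℕ → ℕ)) (hD : AnalyticSet D) :
    ∃ x0 : ℕ → ℕ, ∀ w, w ∈ D ↔ Coded x0 w := by
  classical
  rw [AnalyticSet] at hD
  rcases hD with rfl | ⟨f, hf, rfl⟩
  · refine ⟨fun _ => 1, fun w => ?_⟩
    simp [Coded]
  · refine ⟨fun k => if ∃ z n, k = code (seg (f z) n) (seg z n) then 0 else 1, fun w => ?_⟩
    constructor
    · rintro ⟨z, rfl⟩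
      refine ⟨z, fun n => ?_⟩
      exact if_pos ⟨z, n, rfl⟩
    · rintro ⟨z, hz⟩
      have key : ∀ n, ∃ z', (∀ i ≤ n, w i = f z' i) ∧ (∀ i ≤ n, z i = z' i) := by
        intro n
        have h := hz n
        by_contra hcon
        have hno : ¬ ∃ z' m, code (seg w n) (seg z n) = code (seg (f z') m) (seg z' m) := by
          rintro ⟨z', m, hm⟩
          obtain ⟨h1, h2⟩ := code_inj hm
          have hlen : n = m := by
            have := congrArg List.length h1
            simpa [seg_length] using this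
          subst hlen
          exact hcon ⟨z', (seg_eq_iff _ _ _).1 h1, (seg_eq_iff _ _ _).1 h2⟩
        have h' : (1 : ℕ) = 0 := (if_neg hno).symm.trans h
        exact one_ne_zero h'
      choose Z hZ1 hZ2 using key
      have hZ : Filter.Tendsto Z Filter.atTop (𝓝 z) := by
        rw [tendsto_pi_nhds]
        intro i
        apply tendsto_const_nhds.congr'
        filter_upwards [Filter.eventually_ge_atTop i] with n hn
        exact hZ2 n i hn
      have hfZ : Filter.Tendsto (fun n => f (Z n)) Filter.atTop (𝓝 (f z)) :=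
        (hf.tendsto z).comp hZ
      have hfw : Filter.Tendsto (fun n => f (Z n)) Filter.atTop (𝓝 w) := by
        rw [tendsto_pi_nhds]
        intro i
        apply tendsto_const_nhds.congr'
        filter_upwards [Filter.eventually_ge_atTop i] with n hn
        exact hZ1 n i hn
      exact ⟨z, tendsto_nhds_unique hfZ hfw⟩

/-- A `Σ¹₁` subset of Baire space is analytic in the sense of Mathlib. -/
lemma IsSigma11.analyticSet_baire {S : Set (ℕ → ℕ)} (h : IsSigma11 S) : AnalyticSet S := by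
  obtain ⟨B, hB, rfl⟩ := h
  have h1 : AnalyticSet B := hB.analyticSet
  have h2 : {x : ℕ → ℕ | ∃ z, (x, z) ∈ B} = Prod.fst '' B := by
    ext x; simp
  rw [h2]
  exact h1.image_of_continuous continuous_fst

/-- Preimages of `Σ¹₁` sets under measurable maps are `Σ¹₁`. -/
lemma IsSigma11.preimage' {X Y : Type} [MeasurableSpace X] [MeasurableSpace Y] {S : Set Y}
    (h : IsSigma11 S) {f : X → Y} (hf : Measurable f) : IsSigma11 (f ⁻¹' S) := by
  obtain ⟨B, hB, rfl⟩ := h
  refine ⟨(fun p : X × (ℕ → ℕ) => (f p.1, p.2)) ⁻¹' B, ?_, ?_⟩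
  · exact ((hf.comp measurable_fst).prodMk measurable_snd) hB
  · ext x; simp

/-- Preimages of `Σ¹₂` sets under measurable maps are `Σ¹₂`. -/
lemma IsSigma12.preimage {X Y : Type} [MeasurableSpace X] [MeasurableSpace Y] {S : Set Y}
    (h : IsSigma12 S) {f : X → Y} (hf : Measurable f) : IsSigma12 (f ⁻¹' S) := by
  obtain ⟨B, hB, rfl⟩ := h
  refine ⟨(fun p : X × (ℕ → ℕ) => (f p.1, p.2)) ⁻¹' B, ?_, ?_⟩
  · exact IsSigma11.preimage' hB ((hf.comp measurable_fst).prodMk measurable_snd)
  · ext x; simp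

/-- `Σ¹₁` sets are `Π¹₂`. -/
lemma IsSigma11.compl_isSigma12 {X : Type} [MeasurableSpace X] {S : Set X} (h : IsSigma11 S) :
    IsSigma12 Sᶜ := by
  refine ⟨Prod.fst ⁻¹' Sᶜ, ?_, ?_⟩
  · change IsSigma11 (Prod.fst ⁻¹' Sᶜ)ᶜ
    rw [preimage_compl, compl_compl]
    exact h.preimage' measurable_fst
  · ext x
    simp

/-- There is a `Σ¹₂` set of reals which is not `Π¹₂`. -/
theorem exists_sigma12_not_pi12 : ∃ P : Set (ℕ → ℕ), IsSigma12 P ∧ ¬ IsSigma12 Pᶜ := by
  have hunc : ¬ Countable (ℕ → ℕ) := by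
    intro h
    obtain ⟨f, hf⟩ := exists_surjective_nat (ℕ → ℕ)
    obtain ⟨n, hn⟩ := hf (fun n => f n n + 1)
    have := congrFun hn n
    simp at this
  have hunc2 : ¬ Countable ((ℕ → ℕ) × (ℕ → ℕ)) := by
    intro h
    exact hunc (Function.Injective.countable (f := fun x : ℕ → ℕ => (x, x))
      (fun x y h => congrArg Prod.fst h))
  let φ : (ℕ → ℕ) × (ℕ → ℕ) ≃ᵐ (ℕ → ℕ) :=
    PolishSpace.measurableEquivOfNotCountable hunc2 hunc
  let P : Set (ℕ → ℕ) := {x | ∃ z, ¬ Coded x (φ (x, z))}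
  refine ⟨P, ?_, ?_⟩
  · refine ⟨{q : (ℕ → ℕ) × (ℕ → ℕ) | ¬ Coded q.1 (φ q)}, ?_, ?_⟩
    · refine ⟨{q : ((ℕ → ℕ) × (ℕ → ℕ)) × (ℕ → ℕ) | ∀ n,
        q.1.1 (code (seg (φ q.1) n) (seg q.2 n)) = 0}, ?_, ?_⟩
      · have h1 : {q : ((ℕ → ℕ) × (ℕ → ℕ)) × (ℕ → ℕ) | ∀ n,
            q.1.1 (code (seg (φ q.1) n) (seg q.2 n)) = 0} =
            ⋂ n, ⋃ s : List ℕ, ⋃ t : List ℕ,
              ({q : ((ℕ → ℕ) × (ℕ → ℕ)) × (ℕ → ℕ) | seg (φ q.1) n = s} ∩
                {q : ((ℕ → ℕ) × (ℕ → ℕ)) × (ℕ → ℕ) | seg q.2 n = t} ∩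
                {q : ((ℕ → ℕ) × (ℕ → ℕ)) × (ℕ → ℕ) | q.1.1 (code s t) = 0}) := by
          ext q
          simp only [mem_iInter, mem_iUnion]
          constructor
          · intro h n
            exact ⟨_, _, ⟨rfl, rfl⟩, h n⟩
          · intro h n
            obtain ⟨s, t, ⟨h1, h2⟩, h3⟩ := h n
            change seg (φ q.1) n = s at h1
            change seg q.2 n = t at h2
            rw [h1, h2]
            exact h3
        rw [h1]
        refine MeasurableSet.iInter fun n => MeasurableSet.iUnion fun s =>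
          MeasurableSet.iUnion fun t => ?_
        have hs : MeasurableSet {w : ℕ → ℕ | seg w n = s} :=
          ((isOpen_discrete {s}).preimage (continuous_seg n)).measurableSet
        have ht : MeasurableSet {w : ℕ → ℕ | seg w n = t} :=
          ((isOpen_discrete {t}).preimage (continuous_seg n)).measurableSet
        have hc : MeasurableSet {w : ℕ → ℕ | w (code s t) = 0} :=
          (measurable_pi_apply _) (measurableSet_singleton 0)
        exact (((φ.measurable.comp measurable_fst) hs).inter (measurable_snd ht)).inter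
          ((measurable_fst.comp measurable_fst) hc)
      · ext q
        change ¬ ¬ Coded q.1 (φ q) ↔ ∃ z, ∀ n, q.1 (code (seg (φ q) n) (seg z n)) = 0
        rw [not_not]
        exact Iff.rfl
    · ext x
      exact Iff.rfl
  · rintro ⟨B, hB, hPB⟩
    have h1 : IsSigma11 (φ.symm ⁻¹' Bᶜ) := IsSigma11.preimage' hB φ.symm.measurable
    obtain ⟨x0, hx0⟩ := exists_code _ h1.analyticSet_baire
    have h2 : x0 ∈ Pᶜ ↔ x0 ∈ P := by
      rw [hPB]
      constructor
      · rintro ⟨z, hz⟩
        refine ⟨z, fun hc => ?_⟩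
        have h3 := (hx0 _).2 hc
        rw [mem_preimage, MeasurableEquiv.symm_apply_apply] at h3
        exact h3 hz
      · rintro ⟨z, hz⟩
        refine ⟨z, ?_⟩
        by_contra hzB
        apply hz
        apply (hx0 _).1
        rw [mem_preimage, MeasurableEquiv.symm_apply_apply]
        exact hzB
    have h3 : x0 ∉ P ↔ x0 ∈ P := h2
    tauto

/-- the equivalence relation attached to a set -/
def attach {X : Type} (P : Set X) (p q : X × Bool) : Prop := p = q ∨ (p.1 = q.1 ∧ p.1 ∈ P)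

lemma attach_equivalence {X : Type} (P : Set X) : Equivalence (attach P) where
  refl := fun p => Or.inl rfl
  symm := by
    rintro p q (h | ⟨h1, h2⟩)
    · exact Or.inl h.symm
    · exact Or.inr ⟨h1.symm, h1 ▸ h2⟩
  trans := by
    rintro p q r (rfl | ⟨h1, h2⟩) (rfl | ⟨h3, h4⟩)
    · exact Or.inl rfl
    · exact Or.inr ⟨h3, h4⟩
    · exact Or.inr ⟨h1, h2⟩
    · exact Or.inr ⟨h1.trans h3, h2⟩

lemma attach_isSigma12 {X : Type} [MeasurableSpace X] [StandardBorelSpace X] {P : Set X}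
    (hP : IsSigma12 P) : IsSigma12 (graph (attach P)) := by
  obtain ⟨B, ⟨C, hC, hBC⟩, rfl⟩ := hP
  have hBC' : ∀ x z, (x, z) ∈ B ↔ ∀ y, ((x, z), y) ∉ C := by
    intro x z
    have h1 : (x, z) ∈ Bᶜ ↔ ∃ y, ((x, z), y) ∈ C := by
      rw [hBC]
      exact Iff.rfl
    have h2 : (x, z) ∉ B ↔ ∃ y, ((x, z), y) ∈ C := h1
    constructor
    · intro h y hy
      exact (h2.2 ⟨y, hy⟩) h
    · intro h
      by_contra hcon
      obtain ⟨y, hy⟩ := h2.1 hcon
      exact h y hy
  have e1 : MeasurableSet {q : (((X × Bool) × (X × Bool)) × (ℕ → ℕ)) × (ℕ → ℕ) |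
      q.1.1.1 = q.1.1.2} :=
    measurableSet_eq_fun (measurable_fst.comp (measurable_fst.comp measurable_fst))
      (measurable_snd.comp (measurable_fst.comp measurable_fst))
  have e2 : MeasurableSet {q : (((X × Bool) × (X × Bool)) × (ℕ → ℕ)) × (ℕ → ℕ) |
      q.1.1.1.1 = q.1.1.2.1} :=
    measurableSet_eq_fun
      (measurable_fst.comp (measurable_fst.comp (measurable_fst.comp measurable_fst)))
      (measurable_fst.comp (measurable_snd.comp (measurable_fst.comp measurable_fst)))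
  have e3 : MeasurableSet {q : (((X × Bool) × (X × Bool)) × (ℕ → ℕ)) × (ℕ → ℕ) |
      ((q.1.1.1.1, q.1.2), q.2) ∈ C} := by
    have : Measurable (fun q : (((X × Bool) × (X × Bool)) × (ℕ → ℕ)) × (ℕ → ℕ) =>
        ((q.1.1.1.1, q.1.2), q.2)) :=
      ((measurable_fst.comp (measurable_fst.comp (measurable_fst.comp measurable_fst))).prodMk
        (measurable_snd.comp measurable_fst)).prodMk measurable_snd
    exact this hC
  refine ⟨{q : ((X × Bool) × (X × Bool)) × (ℕ → ℕ) | q.1.1 = q.1.2 ∨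
    (q.1.1.1 = q.1.2.1 ∧ (q.1.1.1, q.2) ∈ B)}, ?_, ?_⟩
  · refine ⟨_, (e1.union (e2.inter e3.compl)).compl, ?_⟩
    ext q
    change ¬ (q.1.1 = q.1.2 ∨ (q.1.1.1 = q.1.2.1 ∧ (q.1.1.1, q.2) ∈ B)) ↔
      ∃ y, ¬ (q.1.1 = q.1.2 ∨ (q.1.1.1 = q.1.2.1 ∧ ¬ ((q.1.1.1, q.2), y) ∈ C))
    rw [hBC']
    constructor
    · intro h
      by_contra hcon
      push Not at hcon
      apply h
      by_cases h0 : q.1.1 = q.1.2
      · exact Or.inl h0
      · exact Or.inr ⟨((hcon (fun _ => 0)).resolve_left h0).1,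
          fun y => ((hcon y).resolve_left h0).2⟩
    · rintro ⟨y, hy⟩ (h | ⟨h1, h2⟩)
      · exact hy (Or.inl h)
      · exact hy (Or.inr ⟨h1, h2 y⟩)
  · ext p
    change (p.1 = p.2 ∨ (p.1.1 = p.2.1 ∧ ∃ z, (p.1.1, z) ∈ B)) ↔
      ∃ z, (p.1 = p.2 ∨ (p.1.1 = p.2.1 ∧ (p.1.1, z) ∈ B))
    constructor
    · rintro (h | ⟨h1, z, hz⟩)
      · exact ⟨fun _ => 0, Or.inl h⟩
      · exact ⟨z, Or.inr ⟨h1, hz⟩⟩
    · rintro ⟨z, h | ⟨h1, hz⟩⟩
      · exact Or.inl h
      · exact Or.inr ⟨h1, z, hz⟩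

/-- **Completeness**: every `Σ¹₂` set is the Borel preimage of the homeomorphism relation. -/
theorem complete_homeo (U : Type) [TopologicalSpace U] (hU : IsUniversalPolish U)
    (X : Type) [MeasurableSpace X] [StandardBorelSpace X] (P : Set X) (hP : IsSigma12 P) :
    ∃ g : X → ClosedSubsets U × ClosedSubsets U, Measurable g ∧ P = g ⁻¹' graph (Homeo U) := by
  obtain ⟨f, hf, hfE⟩ := borelReducible_homeo U hU (X × Bool) (attach P) (attach_equivalence P)
    (attach_isSigma12 hP)
  have m1 : ∀ b : Bool, Measurable (fun x : X => (x, b)) := fun b =>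
    measurable_id.prodMk measurable_const
  refine ⟨fun x => (f (x, false), f (x, true)),
    (hf.comp (m1 false)).prodMk (hf.comp (m1 true)), ?_⟩
  ext x
  change x ∈ P ↔ Homeo U (f (x, false)) (f (x, true))
  rw [← hfE]
  constructor
  · intro h
    exact Or.inr ⟨rfl, h⟩
  · rintro (h | h)
    · have := congrArg Prod.snd h
      simp at this
    · exact h.2

/-- **The homeomorphism relation between Polish spaces is not `Π¹₂`.** -/
theorem not_pi12_homeo (U : Type) [TopologicalSpace U] (hU : IsUniversalPolish U) :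
    ¬ IsSigma12 (graph (Homeo U))ᶜ := by
  intro h
  obtain ⟨P, hP, hP'⟩ := exists_sigma12_not_pi12
  obtain ⟨g, hg, hPg⟩ := complete_homeo U hU (ℕ → ℕ) P hP
  apply hP'
  rw [hPg, ← preimage_compl]
  exact h.preimage hg

/-- **The homeomorphism relation between Polish spaces is not `Σ¹₁`.** -/
theorem not_sigma11_homeo (U : Type) [TopologicalSpace U] (hU : IsUniversalPolish U) :
    ¬ IsSigma11 (graph (Homeo U)) := fun h => not_pi12_homeo U hU h.compl_isSigma12

/-- **The homeomorphism relation between Polish spaces is not Borel reducible to any `Σ¹₁`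
relation.** -/
theorem not_reducible_homeo (U : Type) [TopologicalSpace U] (hU : IsUniversalPolish U)
    (X : Type) [MeasurableSpace X] (E : X → X → Prop) (hE : IsSigma11 (graph E)) :
    ¬ BorelReducible (Homeo U) E := by
  rintro ⟨f, hf, hfE⟩
  apply not_sigma11_homeo U hU
  have h1 : graph (Homeo U) =
      (fun p : ClosedSubsets U × ClosedSubsets U => (f p.1, f p.2)) ⁻¹' graph E := by
    ext p
    exact hfE p.1 p.2
  rw [h1]
  exact hE.preimage' ((hf.comp measurable_fst).prodMk (hf.comp measurable_snd))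

end Pool.Agent.H73.PolishHomeo
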