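import Pool.Agent.H73.PolishHomeo.GDelta

/-!
# Spaces built from pages

A page system consists of a `Gδ` subset `Z` of Baire space and countably many pages `h`, each with a
finite nonempty set `F h ⊆ Z` of marks.  The space `Pt P` is obtained from `Z × (ω + 1)` by attaching,
for every page `h`, a star with centre `c h` and one leg for each mark `v ∈ F h`, the end of the leg
being the point `(v, ω)`.
-/

set_option autoImplicit false

open Set Topology Filter

namespace Pool.Agent.H73.PolishHomeo

/-- Data for the construction. -/
structure PageSys where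
  /-- positions of the marks and their limit points -/
  Z : Set (ℕ → ℕ)
  gdelta : IsGδ Z
  /-- pages -/
  H : Type
  countH : Countable H
  /-- marks of a page -/
  F : H → Set (ℕ → ℕ)
  finF : ∀ h, (F h).Finite
  neF : ∀ h, (F h).Nonempty
  subF : ∀ h, F h ⊆ Z
  dense : ∀ z ∈ Z, z ∈ closure {w | w ∈ Z ∧ ∃ O, IsOpen O ∧ O ∩ Z = {w}}

/-- The points of the space. -/
inductive Pt (P : PageSys) : Type
  | z (w : ℕ → ℕ) (hw : w ∈ P.Z) (s : Option ℕ) : Pt P
  | l (h : P.H) (v : ℕ → ℕ) (hv : v ∈ P.F h) (t : ℝ) (h0 : 0 < t) (h1 : t < 1) : Pt P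
  | c (h : P.H) : Pt P

namespace Pt

variable {P : PageSys}

open Classical in
/-- coordinates -/
noncomputable def ee (i : ℕ) : Pt P → ℝ
  | z w _ _ => (w i : ℝ)
  | l _ v _ t _ _ => (1 - t) * (v i : ℝ)
  | c _ => 0

/-- coordinates -/
def sg (n : ℕ) : Pt P → ℕ
  | z _ _ s => if s = some n then 1 else 0
  | l _ _ _ _ _ _ => 0
  | c _ => 0

/-- coordinates -/
noncomputable def rr : Pt P → ℝ
  | z _ _ _ => 0
  | l _ _ _ t _ _ => t
  | c _ => 1

open Classical in
/-- coordinates -/
noncomputable def be (h : P.H) : Pt P → ℝ
  | z _ _ _ => 0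
  | l h' _ _ t _ _ => if h' = h then t else 0
  | c h' => if h' = h then 1 else 0

/-- The ambient space. -/
abbrev Amb (P : PageSys) : Type := (ℕ → ℝ) × (ℕ → ℕ) × ℝ × (P.H → ℝ)

/-- The coordinate map. -/
noncomputable def co (x : Pt P) : Amb P :=
  (fun i => ee i x, fun n => sg n x, rr x, fun h => be h x)

noncomputable instance : TopologicalSpace (Pt P) := TopologicalSpace.induced co inferInstance

lemma isInducing_co : IsInducing (co : Pt P → Amb P) := ⟨rfl⟩

lemma continuous_ee (i : ℕ) : Continuous (ee i : Pt P → ℝ) :=
  (continuous_apply i).comp (continuous_fst.comp isInducing_co.continuous)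

lemma continuous_sg (n : ℕ) : Continuous (sg n : Pt P → ℕ) :=
  (continuous_apply n).comp ((continuous_fst.comp continuous_snd).comp isInducing_co.continuous)

lemma continuous_rr : Continuous (rr : Pt P → ℝ) :=
  (continuous_fst.comp (continuous_snd.comp continuous_snd)).comp isInducing_co.continuous

lemma continuous_be (h : P.H) : Continuous (be h : Pt P → ℝ) :=
  (continuous_apply h).comp
    ((continuous_snd.comp (continuous_snd.comp continuous_snd)).comp isInducing_co.continuous)

lemma continuous_iff {Y : Type*} [TopologicalSpace Y] {f : Y → Pt P} :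
    Continuous f ↔ (∀ i, Continuous fun y => ee i (f y)) ∧ (∀ n, Continuous fun y => sg n (f y)) ∧
      (Continuous fun y => rr (f y)) ∧ (∀ h, Continuous fun y => be h (f y)) := by
  constructor
  · intro hf
    exact ⟨fun i => (continuous_ee i).comp hf, fun n => (continuous_sg n).comp hf,
      continuous_rr.comp hf, fun h => (continuous_be h).comp hf⟩
  · rintro ⟨h1, h2, h3, h4⟩
    rw [isInducing_co.continuous_iff]
    exact (continuous_pi h1).prodMk ((continuous_pi h2).prodMk (h3.prodMk (continuous_pi h4)))

lemma co_injective : Function.Injective (co : Pt P → Amb P) := by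
  intro x y hxy
  have h1 : ∀ i, ee i x = ee i y := fun i => congrFun (congrArg Prod.fst hxy) i
  have h2 : ∀ n, sg n x = sg n y := fun n => congrFun (congrArg (fun a => a.2.1) hxy) n
  have h3 : rr x = rr y := congrArg (fun a => a.2.2.1) hxy
  have h4 : ∀ h, be h x = be h y := fun h => congrFun (congrArg (fun a => a.2.2.2) hxy) h
  cases x with
  | z w hw s =>
    cases y with
    | z w' hw' s' =>
      have : w = w' := by
        funext i
        have := h1 i
        simpa [ee] using this
      subst this
      have : s = s' := by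
        cases s with
        | none =>
          cases s' with
          | none => rfl
          | some m =>
            have := h2 m
            simp [sg] at this
        | some m =>
          have := h2 m
          simp [sg] at this
          exact this.symm
      subst this
      rfl
    | l h' v' hv' t' h0' h1' =>
      simp [rr] at h3
      exact absurd h3 h0'.ne
    | c h' => simp [rr] at h3
  | l h v hv t h0 h1 =>
    cases y with
    | z w' hw' s' =>
      simp [rr] at h3
      exact absurd h3 h0.ne'
    | l h' v' hv' t' h0' h1' =>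
      simp only [rr] at h3
      subst h3
      have hh := h4 h
      simp only [be] at hh
      rw [if_pos trivial] at hh
      have hhh : h' = h := by
        by_contra hne
        rw [if_neg hne] at hh
        exact h0.ne' hh
      subst hhh
      have : v = v' := by
        funext i
        have := h1 i
        simp only [ee] at this
        have h5 : (1 - t) ≠ 0 := by linarith
        have := mul_left_cancel₀ h5 this
        exact_mod_cast this
      subst this
      rfl
    | c h' =>
      simp only [rr] at h3
      exact absurd h3 (by linarith)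
  | c h =>
    cases y with
    | z w' hw' s' => simp [rr] at h3
    | l h' v' hv' t' h0' h1' =>
      simp only [rr] at h3
      exact absurd h3 (by linarith)
    | c h' =>
      have hh := h4 h
      simp only [be] at hh
      rw [if_pos trivial] at hh
      have hhh : h' = h := by
        by_contra hne
        rw [if_neg hne] at hh
        exact one_ne_zero hh
      rw [hhh]

lemma isEmbedding_co : IsEmbedding (co : Pt P → Amb P) := ⟨isInducing_co, co_injective⟩

instance : T2Space (Pt P) := isEmbedding_co.t2Space

/-- The leg of page `h` from the mark `v`. -/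
noncomputable def lam (h : P.H) (v : ℕ → ℕ) (hv : v ∈ P.F h) (s : Icc (0 : ℝ) 1) : Pt P :=
  if h0 : s.1 = 0 then z v (P.subF h hv) none
  else if h1 : s.1 = 1 then c h
  else l h v hv s.1 (lt_of_le_of_ne s.2.1 (Ne.symm h0)) (lt_of_le_of_ne s.2.2 h1)

lemma ee_lam (h : P.H) (v : ℕ → ℕ) (hv : v ∈ P.F h) (s : Icc (0 : ℝ) 1) (i : ℕ) :
    ee i (lam h v hv s) = (1 - s.1) * (v i : ℝ) := by
  unfold lam
  split_ifs with h0 h1
  · simp [ee, h0]
  · simp [ee, h1]
  · simp [ee]

lemma sg_lam (h : P.H) (v : ℕ → ℕ) (hv : v ∈ P.F h) (s : Icc (0 : ℝ) 1) (n : ℕ) :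
    sg n (lam h v hv s) = 0 := by
  unfold lam
  split_ifs with h0 h1
  · simp [sg]
  · simp [sg]
  · simp [sg]

lemma rr_lam (h : P.H) (v : ℕ → ℕ) (hv : v ∈ P.F h) (s : Icc (0 : ℝ) 1) :
    rr (lam h v hv s) = s.1 := by
  unfold lam
  split_ifs with h0 h1
  · simp [rr, h0]
  · simp [rr, h1]
  · simp [rr]

open Classical in
lemma be_lam (h : P.H) (v : ℕ → ℕ) (hv : v ∈ P.F h) (s : Icc (0 : ℝ) 1) (h' : P.H) :
    be h' (lam h v hv s) = if h = h' then s.1 else 0 := by
  unfold lam
  split_ifs with h0 h1 h2 h3 h4
  all_goals simp_all [be]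

lemma continuous_lam (h : P.H) (v : ℕ → ℕ) (hv : v ∈ P.F h) : Continuous (lam h v hv) := by
  classical
  rw [continuous_iff]
  refine ⟨fun i => ?_, fun n => ?_, ?_, fun h' => ?_⟩
  · simp only [ee_lam]
    fun_prop
  · simp only [sg_lam]
    exact continuous_const
  · simp only [rr_lam]
    exact continuous_subtype_val
  · simp only [be_lam]
    by_cases hh : h = h'
    · simp only [hh, if_true]
      exact continuous_subtype_val
    · simp only [hh, if_false]
      exact continuous_const

lemma lam_injective (h : P.H) (v : ℕ → ℕ) (hv : v ∈ P.F h) :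
    Function.Injective (lam h v hv) := by
  intro s s' hs
  have := congrArg rr hs
  rw [rr_lam, rr_lam] at this
  exact Subtype.ext this

/-- The closed star of a page. -/
def star (h : P.H) : Set (Pt P) := ⋃ v : P.F h, range (lam h v.1 v.2)

lemma isCompact_star (h : P.H) : IsCompact (star (P := P) h) := by
  have : Finite (P.F h) := (P.finF h).to_subtype
  exact isCompact_iUnion fun v => isCompact_range (continuous_lam h v.1 v.2)

/-- The positions, as points of `ℕ → ℝ`. -/
def castN (w : ℕ → ℕ) : ℕ → ℝ := fun i => (w i : ℝ)

lemma isClosedEmbedding_castN : IsClosedEmbedding castN := by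
  have h1 : IsClosedEmbedding (Nat.cast : ℕ → ℝ) := Nat.isClosedEmbedding_coe_real
  have hcont : Continuous castN := continuous_pi fun i => h1.continuous.comp (continuous_apply i)
  have hinj : Function.Injective castN := fun w w' h => by
    funext i
    have h2 : (w i : ℝ) = (w' i : ℝ) := congrFun h i
    exact_mod_cast h2
  have hind : IsInducing castN := by
    rw [isInducing_iff_nhds]
    intro w
    apply le_antisymm
    · exact (hcont.tendsto w).le_comap
    · have hpi : 𝓝 w = Filter.pi (fun i => 𝓝 (w i)) := nhds_pi
      rw [hpi, Filter.le_pi]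
      intro i
      have h2 : 𝓝 (w i) = Filter.comap (Nat.cast : ℕ → ℝ) (𝓝 (w i : ℝ)) :=
        h1.isInducing.nhds_eq_comap (w i)
      rw [h2, Filter.tendsto_comap_iff]
      have h3 : Tendsto (fun e : ℕ → ℝ => e i) (𝓝 (castN w)) (𝓝 (w i : ℝ)) :=
        (continuous_apply i).tendsto (castN w)
      exact h3.comp Filter.tendsto_comap
  refine ⟨⟨hind, hinj⟩, ?_⟩
  have hr : range castN = ⋂ i, (fun e : ℕ → ℝ => e i) ⁻¹' range (Nat.cast : ℕ → ℝ) := by
    ext e
    simp only [mem_range, mem_iInter, mem_preimage]
    constructor
    · rintro ⟨w, rfl⟩ i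
      exact ⟨w i, rfl⟩
    · intro h
      choose w hw using h
      exact ⟨w, funext hw⟩
  rw [hr]
  exact isClosed_iInter fun i => h1.isClosed_range.preimage (continuous_apply i)

open Classical in
lemma range_co : range (co : Pt P → Amb P) =
    (((fun a : Amb P => a.1) ⁻¹' (castN '' P.Z)) ∩
      ({a : Amb P | ∀ n m, (a.2.1 n = 0 ∨ a.2.1 n = 1) ∧
          (n ≠ m → ¬ (a.2.1 n = 1 ∧ a.2.1 m = 1))} ∩
        {a : Amb P | a.2.2.1 = 0 ∧ a.2.2.2 = 0})) ∪
    ((⋃ h, {a : Amb P | 0 < a.2.2.2 h}) ∩
      ⋂ h, ({a : Amb P | a.2.2.2 h ≤ 0} ∪ co '' (star (P := P) h))) := by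
  ext a
  constructor
  · rintro ⟨x, rfl⟩
    cases x with
    | z w hw s =>
      left
      refine ⟨⟨w, hw, rfl⟩, fun n m => ⟨?_, fun hnm => ?_⟩, rfl, ?_⟩
      · simp only [co, sg]
        by_cases h1 : s = some n
        · simp [h1]
        · simp [h1]
      · simp only [co, sg]
        rintro ⟨h1, h2⟩
        have h3 : s = some n := by
          by_contra hne
          simp [hne] at h1
        have h4 : s = some m := by
          by_contra hne
          simp [hne] at h2
        rw [h3] at h4
        exact hnm (Option.some.inj h4)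
      · funext h
        simp [co, be]
    | l h v hv t h0 h1 =>
      right
      refine ⟨mem_iUnion.2 ⟨h, ?_⟩, mem_iInter.2 fun h' => ?_⟩
      · change 0 < be h (l h v hv t h0 h1)
        simp [be, h0]
      · by_cases hh : h = h'
        · right
          subst hh
          refine ⟨l h v hv t h0 h1, mem_iUnion.2 ⟨⟨v, hv⟩, ⟨t, h0.le, h1.le⟩, ?_⟩, rfl⟩
          simp [lam, h0.ne', h1.ne]
        · left
          change be h' (l h v hv t h0 h1) ≤ 0
          simp [be, hh]
    | c h =>
      right
      refine ⟨mem_iUnion.2 ⟨h, ?_⟩, mem_iInter.2 fun h' => ?_⟩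
      · change 0 < be h (c h)
        simp [be]
      · by_cases hh : h = h'
        · right
          subst hh
          obtain ⟨v, hv⟩ := P.neF h
          refine ⟨c h, mem_iUnion.2 ⟨⟨v, hv⟩, ⟨1, zero_le_one, le_rfl⟩, ?_⟩, rfl⟩
          simp [lam]
        · left
          change be h' (c h) ≤ 0
          simp [be, hh]
  · rintro (⟨⟨w, hw, hwe⟩, hb, h0, h1⟩ | ⟨h1, h2⟩)
    · obtain ⟨e, b, r, β⟩ := a
      simp only at hwe hb h0 h1
      by_cases hex : ∃ n, b n = 1
      · obtain ⟨n, hn⟩ := hex
        refine ⟨z w hw (some n), ?_⟩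
        have hb' : (fun m => if (some n : Option ℕ) = some m then 1 else 0) = b := by
          funext m
          by_cases hm : n = m
          · subst hm
            simp [hn]
          · have h3 : ¬ (b n = 1 ∧ b m = 1) := (hb n m).2 hm
            have h4 : b m = 0 ∨ b m = 1 := (hb m m).1
            have h5 : b m = 0 := by
              rcases h4 with h4 | h4
              · exact h4
              · exact absurd ⟨hn, h4⟩ h3
            simp [hm, h5]
        simp only [co, ee, sg, rr, be]
        rw [hb']
        refine Prod.ext hwe (Prod.ext rfl (Prod.ext h0.symm h1.symm))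
      · push Not at hex
        refine ⟨z w hw none, ?_⟩
        have hb' : (fun m => if (none : Option ℕ) = some m then 1 else 0) = b := by
          funext m
          have h3 := hex m
          have h4 : b m = 0 ∨ b m = 1 := (hb m m).1
          have h5 : b m = 0 := by
            rcases h4 with h4 | h4
            · exact h4
            · exact absurd h4 h3
          simp [h5]
        simp only [co, ee, sg, rr, be]
        rw [hb']
        refine Prod.ext hwe (Prod.ext rfl (Prod.ext h0.symm h1.symm))
    · obtain ⟨h, hh⟩ := mem_iUnion.1 h1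
      rcases mem_iInter.1 h2 h with h3 | ⟨x, -, hx⟩
      · change 0 < a.2.2.2 h at hh
        change a.2.2.2 h ≤ 0 at h3
        exact absurd hh (not_lt.2 h3)
      · exact ⟨x, hx⟩

lemma isGδ_range_co : IsGδ (range (co : Pt P → Amb P)) := by
  have := P.countH
  rw [range_co]
  apply IsGδ.union
  · apply IsGδ.inter
    · exact (isGδ_image isClosedEmbedding_castN P.gdelta).preimage continuous_fst
    · apply IsGδ.inter
      · apply IsClosed.isGδ
        have : {a : Amb P | ∀ n m, (a.2.1 n = 0 ∨ a.2.1 n = 1) ∧
            (n ≠ m → ¬ (a.2.1 n = 1 ∧ a.2.1 m = 1))} =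
            ⋂ n, ⋂ m, {a : Amb P | (a.2.1 n = 0 ∨ a.2.1 n = 1) ∧
              (n ≠ m → ¬ (a.2.1 n = 1 ∧ a.2.1 m = 1))} := by
          ext a
          simp only [mem_iInter]
          rfl
        rw [this]
        refine isClosed_iInter fun n => isClosed_iInter fun m => ?_
        have hc : Continuous (fun a : Amb P => (a.2.1 n, a.2.1 m)) := by fun_prop
        exact (isClosed_discrete {q : ℕ × ℕ | (q.1 = 0 ∨ q.1 = 1) ∧
          (n ≠ m → ¬ (q.1 = 1 ∧ q.2 = 1))}).preimage hc
      · apply IsClosed.isGδ
        apply IsClosed.inter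
        · exact isClosed_eq (by fun_prop) continuous_const
        · exact isClosed_eq (by fun_prop) continuous_const
  · apply IsGδ.inter
    · apply IsOpen.isGδ
      refine isOpen_iUnion fun h => ?_
      have hc : Continuous (fun a : Amb P => a.2.2.2 h) := by fun_prop
      exact isOpen_lt continuous_const hc
    · apply IsGδ.iInter
      intro h
      apply IsClosed.isGδ
      apply IsClosed.union
      · have hc : Continuous (fun a : Amb P => a.2.2.2 h) := by fun_prop
        exact isClosed_le hc continuous_const
      · exact ((isCompact_star h).image isInducing_co.continuous).isClosed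

instance : PolishSpace (Pt P) := by
  have := P.countH
  exact polishSpace_of_embedding isEmbedding_co isGδ_range_co

end Pt

end Pool.Agent.H73.PolishHomeo
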