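import Pool.Agent.H73.PolishHomeo.Pages

/-!
# Maps between page spaces
-/

set_option autoImplicit false

open Set Topology Filter

namespace Pool.Agent.H73.PolishHomeo

namespace Pt

variable {P : PageSys}

/-- The position (in `Z`) below a point; for a centre, an arbitrary mark of its page. -/
noncomputable def zz : Pt P → (ℕ → ℕ)
  | z w _ _ => w
  | l _ v _ _ _ _ => v
  | c h => (P.neF h).some

lemma zz_mem (x : Pt P) : zz x ∈ P.Z := by
  cases x with
  | z w hw s => exact hw
  | l h v hv t h0 h1 => exact P.subF h hv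
  | c h => exact P.subF h (P.neF h).some_mem

lemma ee_eq (i : ℕ) (x : Pt P) : ee i x = (1 - rr x) * (zz x i : ℝ) := by
  cases x with
  | z w hw s => simp [ee, rr, zz]
  | l h v hv t h0 h1 => simp [ee, rr, zz]
  | c h => simp [ee, rr, zz]

lemma rr_nonneg (x : Pt P) : 0 ≤ rr x := by
  cases x with
  | z w hw s => simp [rr]
  | l h v hv t h0 h1 => simp [rr, h0.le]
  | c h => simp [rr]

lemma rr_le_one (x : Pt P) : rr x ≤ 1 := by
  cases x with
  | z w hw s => simp [rr]
  | l h v hv t h0 h1 => simp [rr, h1.le]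
  | c h => simp [rr]

lemma continuousAt_zz {x : Pt P} (hx : rr x < 1) : ContinuousAt (zz : Pt P → (ℕ → ℕ)) x := by
  rw [ContinuousAt, tendsto_pi_nhds]
  intro i
  rw [Nat.isClosedEmbedding_coe_real.isInducing.tendsto_nhds_iff]
  have h1 : Tendsto (fun y : Pt P => ee i y / (1 - rr y)) (𝓝 x) (𝓝 (ee i x / (1 - rr x))) := by
    apply Tendsto.div
    · exact (continuous_ee i).tendsto x
    · exact (tendsto_const_nhds.sub (continuous_rr.tendsto x))
    · linarith
  have h2 : ∀ y : Pt P, rr y < 1 → ee i y / (1 - rr y) = (zz y i : ℝ) := by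
    intro y hy
    rw [ee_eq]
    exact mul_div_cancel_left₀ _ (by linarith)
  rw [h2 x hx] at h1
  apply h1.congr'
  have h3 : ∀ᶠ y in 𝓝 x, rr y < 1 := (continuous_rr.tendsto x).eventually_lt_const hx
  filter_upwards [h3] with y hy
  exact h2 y hy

/-- The map of the page space induced by a map of `Z` and a map of pages. -/
noncomputable def G (ψ : (ℕ → ℕ) → (ℕ → ℕ)) (φ : P.H → P.H) (hψ : ∀ w ∈ P.Z, ψ w ∈ P.Z)
    (hF : ∀ h, ∀ v ∈ P.F h, ψ v ∈ P.F (φ h)) : Pt P → Pt P
  | z w hw s => z (ψ w) (hψ w hw) s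
  | l h v hv t h0 h1 => l (φ h) (ψ v) (hF h v hv) t h0 h1
  | c h => c (φ h)

section GG

variable {ψ : (ℕ → ℕ) → (ℕ → ℕ)} {φ : P.H → P.H} {hψ : ∀ w ∈ P.Z, ψ w ∈ P.Z}
    {hF : ∀ h, ∀ v ∈ P.F h, ψ v ∈ P.F (φ h)}

lemma rr_G (x : Pt P) : rr (G ψ φ hψ hF x) = rr x := by
  cases x <;> simp [G, rr]

lemma sg_G (n : ℕ) (x : Pt P) : sg n (G ψ φ hψ hF x) = sg n x := by
  cases x <;> simp [G, sg]

lemma ee_G (i : ℕ) (x : Pt P) : ee i (G ψ φ hψ hF x) = (1 - rr x) * (ψ (zz x) i : ℝ) := by
  cases x <;> simp [G, ee, rr, zz]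

lemma be_G (hφ : ∀ h, φ (φ h) = h) (h : P.H) (x : Pt P) :
    be h (G ψ φ hψ hF x) = be (φ h) x := by
  have key : ∀ h', φ h' = h ↔ h' = φ h := by
    intro h'
    constructor
    · rintro rfl
      exact (hφ h').symm
    · rintro rfl
      exact hφ h
  cases x with
  | z w hw s => simp [G, be]
  | l h' v hv t h0 h1 =>
    simp only [G, be]
    by_cases hh : φ h' = h
    · rw [if_pos hh, if_pos ((key h').1 hh)]
    · rw [if_neg hh, if_neg (fun h2 => hh ((key h').2 h2))]
  | c h' =>
    simp only [G, be]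
    by_cases hh : φ h' = h
    · rw [if_pos hh, if_pos ((key h').1 hh)]
    · rw [if_neg hh, if_neg (fun h2 => hh ((key h').2 h2))]

/-- near a centre the position is one of the marks of the page -/
lemma zz_mem_F {x : Pt P} {h : P.H} (hx : 0 < be h x) : zz x ∈ P.F h := by
  cases x with
  | z w hw s => simp [be] at hx
  | l h' v hv t h0 h1 =>
    simp only [be] at hx
    split_ifs at hx with hh
    · subst hh
      exact hv
    · exact absurd hx (lt_irrefl 0)
  | c h' =>
    simp only [be] at hx
    split_ifs at hx with hh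
    · subst hh
      exact (P.neF _).some_mem
    · exact absurd hx (lt_irrefl 0)

lemma continuous_G (hψc : Continuous ψ) (hφ : ∀ h, φ (φ h) = h) :
    Continuous (G ψ φ hψ hF) := by
  rw [continuous_iff]
  refine ⟨fun i => ?_, fun n => ?_, ?_, fun h => ?_⟩
  · simp only [ee_G]
    rw [continuous_iff_continuousAt]
    intro x
    by_cases hx : rr x < 1
    · have h1 : ContinuousAt (fun y : Pt P => (1 - rr y)) x :=
        (continuous_const.sub continuous_rr).continuousAt
      have h2 : ContinuousAt (fun y : Pt P => ((ψ (zz y) i : ℕ) : ℝ)) x := by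
        have h3 : ContinuousAt (fun y : Pt P => ψ (zz y)) x :=
          hψc.continuousAt.comp (continuousAt_zz hx)
        have h4 : Continuous (fun w : ℕ → ℕ => ((w i : ℕ) : ℝ)) :=
          Nat.isClosedEmbedding_coe_real.continuous.comp (continuous_apply i)
        exact h4.continuousAt.comp h3
      exact h1.mul h2
    · have hx1 : rr x = 1 := le_antisymm (rr_le_one x) (not_lt.1 hx)
      have hc : ∃ h, x = c h := by
        cases x with
        | z w hw s => simp [rr] at hx1
        | l h' v hv t h0 h1 =>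
          simp only [rr] at hx1
          exact absurd hx1 h1.ne
        | c h' => exact ⟨h', rfl⟩
      obtain ⟨h, rfl⟩ := hc
      rw [ContinuousAt, hx1, sub_self, zero_mul]
      have hfin : ((fun v => ψ v i) '' P.F h).Finite := (P.finF h).image _
      obtain ⟨B, hB⟩ := hfin.bddAbove
      have h1 : Tendsto (fun y : Pt P => (1 - rr y) * (B : ℝ)) (𝓝 (c h)) (𝓝 0) := by
        have : Tendsto (fun y : Pt P => (1 - rr y) * (B : ℝ)) (𝓝 (c h))
            (𝓝 ((1 - rr (c h : Pt P)) * (B : ℝ))) :=
          ((continuous_const.sub continuous_rr).mul continuous_const).tendsto (c h)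
        rwa [hx1, sub_self, zero_mul] at this
      have h2 : ∀ᶠ y : Pt P in 𝓝 (c h), 0 < be h y := by
        have : Tendsto (be h : Pt P → ℝ) (𝓝 (c h)) (𝓝 (be h (c h))) :=
          (continuous_be h).tendsto (c h)
        have h3 : be h (c h : Pt P) = 1 := by simp [be]
        rw [h3] at this
        exact this.eventually_const_lt zero_lt_one
      apply squeeze_zero' _ _ h1
      · filter_upwards with y
        have := rr_le_one y
        have h5 : (0 : ℝ) ≤ (ψ (zz y) i : ℝ) := Nat.cast_nonneg _
        exact mul_nonneg (by linarith) h5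
      · filter_upwards [h2] with y hy
        have h3 : ψ (zz y) i ≤ B := hB ⟨zz y, zz_mem_F hy, rfl⟩
        have h4 : ((ψ (zz y) i : ℕ) : ℝ) ≤ (B : ℝ) := by exact_mod_cast h3
        have := rr_le_one y
        exact mul_le_mul_of_nonneg_left h4 (by linarith)
  · simp only [sg_G]
    exact continuous_sg n
  · simp only [rr_G]
    exact continuous_rr
  · simp only [be_G hφ]
    exact continuous_be _

lemma G_invol (hψi : ∀ w ∈ P.Z, ψ (ψ w) = w) (hφ : ∀ h, φ (φ h) = h) (x : Pt P) :
    G ψ φ hψ hF (G ψ φ hψ hF x) = x := by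
  cases x with
  | z w hw s => simp only [G, hψi w hw]
  | l h v hv t h0 h1 =>
    simp only [G]
    congr 1
    · exact hφ h
    · exact hψi v (P.subF h hv)
  | c h => simp only [G, hφ]

end GG

/-- The subspace of the page space in which only the pages of `A` are present. -/
def X (P : PageSys) (A : Set P.H) : Set (Pt P) := {x | ∀ h, 0 < be h x → h ∈ A}

lemma isClosed_X (A : Set P.H) : IsClosed (X P A) := by
  have : X P A = ⋂ h, {x : Pt P | 0 < be h x → h ∈ A} := by
    ext x
    simp only [mem_iInter]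
    rfl
  rw [this]
  refine isClosed_iInter fun h => ?_
  by_cases hh : h ∈ A
  · have : {x : Pt P | 0 < be h x → h ∈ A} = univ := by
      ext x
      constructor
      · intro _
        trivial
      · intro _ _
        exact hh
    rw [this]
    exact isClosed_univ
  · have : {x : Pt P | 0 < be h x → h ∈ A} = {x : Pt P | be h x ≤ 0} := by
      ext x
      constructor
      · intro hx
        by_contra hcon
        exact hh (hx (not_le.1 hcon))
      · intro hx h0
        exact absurd h0 (not_lt.2 hx)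
    rw [this]
    exact isClosed_le (continuous_be h) continuous_const

/-- **From combinatorial isomorphisms to homeomorphisms.** -/
theorem homeo_of_comb {A A' : Set P.H} (ψ : (ℕ → ℕ) → (ℕ → ℕ)) (φ : P.H → P.H)
    (hψc : Continuous ψ) (hψ : ∀ w ∈ P.Z, ψ w ∈ P.Z)
    (hF : ∀ h, ∀ v ∈ P.F h, ψ v ∈ P.F (φ h)) (hψi : ∀ w ∈ P.Z, ψ (ψ w) = w)
    (hφ : ∀ h, φ (φ h) = h) (hA : ∀ h, h ∈ A ↔ φ h ∈ A') : Nonempty (X P A ≃ₜ X P A') := by
  let e : Pt P ≃ₜ Pt P :=
    { toFun := G ψ φ hψ hF
      invFun := G ψ φ hψ hF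
      left_inv := G_invol hψi hφ
      right_inv := G_invol hψi hφ
      continuous_toFun := continuous_G hψc hφ
      continuous_invFun := continuous_G hψc hφ }
  refine ⟨e.subtype (p := fun x => x ∈ X P A) (q := fun x => x ∈ X P A') fun x => ?_⟩
  have h1 : ∀ h, be h (e x) = be (φ h) x := fun h => be_G hφ h x
  constructor
  · intro hx h hh
    rw [h1] at hh
    have := (hA (φ h)).1 (hx _ hh)
    rwa [hφ] at this
  · intro hx h hh
    rw [hA]
    apply hx
    rw [h1, hφ]
    exact hh

end Pt

end Pool.Agent.H73.PolishHomeo
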