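import Pool.Agent.H73.PolishHomeo.Defs
import Pool.Agent.H73.PolishHomeo.PagesMap

/-!
# Topological invariants of page spaces
-/

set_option autoImplicit false

open Set Topology Filter

namespace Pool.Agent.H73.PolishHomeo

namespace Pt

variable {P : PageSys}

lemma tendsto_iff {α : Type*} {f : α → Pt P} {m : Filter α} {x : Pt P} :
    Tendsto f m (𝓝 x) ↔ (∀ i, Tendsto (fun y => ee i (f y)) m (𝓝 (ee i x))) ∧
      (∀ n, Tendsto (fun y => sg n (f y)) m (𝓝 (sg n x))) ∧
      (Tendsto (fun y => rr (f y)) m (𝓝 (rr x))) ∧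
      (∀ h, Tendsto (fun y => be h (f y)) m (𝓝 (be h x))) := by
  constructor
  · intro hf
    exact ⟨fun i => ((continuous_ee i).tendsto x).comp hf,
      fun n => ((continuous_sg n).tendsto x).comp hf,
      (continuous_rr.tendsto x).comp hf, fun h => ((continuous_be h).tendsto x).comp hf⟩
  · rintro ⟨h1, h2, h3, h4⟩
    rw [isInducing_co.tendsto_nhds_iff]
    have e1 : Tendsto (fun y => fun i => ee i (f y)) m (𝓝 (fun i => ee i x)) :=
      tendsto_pi_nhds.2 h1
    have e2 : Tendsto (fun y => fun n => sg n (f y)) m (𝓝 (fun n => sg n x)) :=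
      tendsto_pi_nhds.2 h2
    have e4 : Tendsto (fun y => fun h => be h (f y)) m (𝓝 (fun h => be h x)) :=
      tendsto_pi_nhds.2 h4
    exact e1.prodMk_nhds (e2.prodMk_nhds (h3.prodMk_nhds e4))

lemma be_eq_of_pos {x : Pt P} {h h' : P.H} (h1 : 0 < be h x) (h2 : 0 < be h' x) : h = h' := by
  cases x with
  | z w hw s => simp [be] at h1
  | l h'' v hv t h0 h3 =>
    simp only [be] at h1 h2
    split_ifs at h1 h2 with e1 e2 e3
    · rw [← e1, ← e2]
    all_goals first | exact absurd h1 (lt_irrefl 0) | exact absurd h2 (lt_irrefl 0)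
  | c h'' =>
    simp only [be] at h1 h2
    split_ifs at h1 h2 with e1 e2 e3
    · rw [← e1, ← e2]
    all_goals first | exact absurd h1 (lt_irrefl 0) | exact absurd h2 (lt_irrefl 0)

lemma exists_be_of_rr {x : Pt P} (hx : 0 < rr x) : ∃ h, 0 < be h x := by
  cases x with
  | z w hw s => simp [rr] at hx
  | l h v hv t h0 h1 => exact ⟨h, by simp [be, h0]⟩
  | c h => exact ⟨h, by simp [be]⟩

lemma rr_pos_of_be {x : Pt P} {h : P.H} (hx : 0 < be h x) : 0 < rr x := by
  cases x with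
  | z w hw s => simp [be] at hx
  | l h v hv t h0 h1 => simpa [rr] using h0
  | c h => simp [rr]

lemma eq_z_of_rr {x : Pt P} (hx : rr x = 0) : ∃ w, ∃ hw : w ∈ P.Z, ∃ s, x = z w hw s := by
  cases x with
  | z w hw s => exact ⟨w, hw, s, rfl⟩
  | l h v hv t h0 h1 =>
    simp only [rr] at hx
    exact absurd hx h0.ne'
  | c h => simp [rr] at hx

lemma z_mem_X (A : Set P.H) {w : ℕ → ℕ} (hw : w ∈ P.Z) (s : Option ℕ) :
    (z w hw s : Pt P) ∈ X P A := by
  intro h hh
  simp [be] at hh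

/-- a point of `Z × (ω + 1)` as a point of `X P A` -/
def zX (A : Set P.H) {w : ℕ → ℕ} (hw : w ∈ P.Z) (s : Option ℕ) : X P A :=
  ⟨z w hw s, z_mem_X A hw s⟩

lemma lam_mem_X {A : Set P.H} {h : P.H} (hh : h ∈ A) {v : ℕ → ℕ} (hv : v ∈ P.F h)
    (s : Icc (0 : ℝ) 1) : lam h v hv s ∈ X P A := by
  intro h' h1
  rw [be_lam] at h1
  split_ifs at h1 with e
  · rw [← e]; exact hh
  · exact absurd h1 (lt_irrefl 0)

/-- the leg as a map to `X P A` -/
noncomputable def mu {A : Set P.H} {h : P.H} (hh : h ∈ A) {v : ℕ → ℕ} (hv : v ∈ P.F h)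
    (s : Icc (0 : ℝ) 1) : X P A := ⟨lam h v hv s, lam_mem_X hh hv s⟩

lemma continuous_mu {A : Set P.H} {h : P.H} (hh : h ∈ A) {v : ℕ → ℕ} (hv : v ∈ P.F h) :
    Continuous (mu hh hv) := (continuous_lam h v hv).subtype_mk _

lemma mu_injective {A : Set P.H} {h : P.H} (hh : h ∈ A) {v : ℕ → ℕ} (hv : v ∈ P.F h) :
    Function.Injective (mu hh hv) := fun _ _ he =>
  lam_injective h v hv (congrArg Subtype.val he)

/-- every point with `be h x > 0` is on a leg of page `h` -/
lemma exists_lam {x : Pt P} {h : P.H} (hx : 0 < be h x) :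
    ∃ v, ∃ hv : v ∈ P.F h, ∃ s : Icc (0 : ℝ) 1, 0 < s.1 ∧ x = lam h v hv s := by
  cases x with
  | z w hw s => simp [be] at hx
  | l h' v hv t h0 h1 =>
    have : h' = h := by
      by_contra hne
      simp [be, hne] at hx
    subst this
    exact ⟨v, hv, ⟨t, h0.le, h1.le⟩, h0, by simp [lam, h0.ne', h1.ne]⟩
  | c h' =>
    have : h' = h := by
      by_contra hne
      simp [be, hne] at hx
    subst this
    obtain ⟨v, hv⟩ := P.neF h'
    exact ⟨v, hv, ⟨1, zero_le_one, le_rfl⟩, one_pos, by simp [lam]⟩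

lemma not_isolated {A : Set P.H} {x : X P A} (hx : 0 < rr x.1) : ¬ IsOpen ({x} : Set (X P A)) := by
  intro ho
  obtain ⟨h, hh⟩ := exists_be_of_rr hx
  obtain ⟨v, hv, s, hs, hxs⟩ := exists_lam hh
  have hA : h ∈ A := x.2 h hh
  have hx' : x = mu hA hv s := Subtype.ext hxs
  have h1 : IsOpen (mu hA hv ⁻¹' {x}) := ho.preimage (continuous_mu hA hv)
  have h2 : mu hA hv ⁻¹' {x} = {s} := by
    ext s'
    simp only [mem_preimage, mem_singleton_iff, hx']
    exact (mu_injective hA hv).eq_iff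
  rw [h2] at h1
  have h3 : IsClopen ({s} : Set (Icc (0 : ℝ) 1)) := ⟨isClosed_singleton, h1⟩
  have hpre : PreconnectedSpace (Icc (0 : ℝ) 1) :=
    Subtype.preconnectedSpace isPreconnected_Icc
  rcases isClopen_iff.1 h3 with h4 | h4
  · exact (singleton_ne_empty s) h4
  · have h5 : (⟨0, le_rfl, zero_le_one⟩ : Icc (0 : ℝ) 1) ∈ ({s} : Set (Icc (0 : ℝ) 1)) := by
      rw [h4]; trivial
    have h6 := congrArg Subtype.val (mem_singleton_iff.1 h5)
    exact hs.ne h6

lemma isolated_of {A : Set P.H} {w : ℕ → ℕ} (hw : w ∈ P.Z) (hO : ∃ O, IsOpen O ∧ O ∩ P.Z = {w})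
    (n : ℕ) : IsOpen ({zX A hw (some n)} : Set (X P A)) := by
  obtain ⟨O, hO, hOw⟩ := hO
  have h1 : IsOpen {y : Pt P | sg n y = 1 ∧ zz y ∈ O} := by
    rw [isOpen_iff_mem_nhds]
    rintro y ⟨hy1, hy2⟩
    have hrr : rr y < 1 := by
      cases y with
      | z w hw s => simp [rr]
      | l h' v hv t h0 h1 => simp [sg] at hy1
      | c h' => simp [sg] at hy1
    have e1 : ∀ᶠ y' in 𝓝 y, sg n y' = 1 := by
      have := ((isOpen_discrete ({1} : Set ℕ)).preimage (continuous_sg (P := P) n)).mem_nhds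
        (show y ∈ sg n ⁻¹' {1} from hy1)
      exact this
    have e2 : ∀ᶠ y' in 𝓝 y, zz y' ∈ O := (continuousAt_zz hrr).eventually (hO.mem_nhds hy2)
    filter_upwards [e1, e2] with y' h1 h2
    exact ⟨h1, h2⟩
  have h2 : ({zX A hw (some n)} : Set (X P A)) =
      Subtype.val ⁻¹' {y : Pt P | sg n y = 1 ∧ zz y ∈ O} := by
    ext ⟨y, hy⟩
    constructor
    · intro h
      have h' : y = z w hw (some n) := congrArg Subtype.val (mem_singleton_iff.1 h)
      subst h'
      refine ⟨by simp [sg], ?_⟩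
      have : w ∈ O ∩ P.Z := by rw [hOw]; rfl
      exact this.1
    · rintro ⟨h3, h4⟩
      change sg n y = 1 at h3
      change zz y ∈ O at h4
      cases y with
      | z w' hw' s =>
        have e1 : w' ∈ O ∩ P.Z := ⟨h4, hw'⟩
        rw [hOw] at e1
        have e1' : w' = w := e1
        subst e1'
        have e2 : s = some n := by
          by_contra hne
          simp [sg, hne] at h3
        subst e2
        rfl
      | l h' v hv t h0 h1 => simp [sg] at h3
      | c h' => simp [sg] at h3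
  rw [h2]
  exact h1.preimage continuous_subtype_val

lemma tendsto_zX {α : Type*} {A : Set P.H} {m : Filter α} {u : α → (ℕ → ℕ)} {w : ℕ → ℕ}
    (hu : ∀ a, u a ∈ P.Z) (hw : w ∈ P.Z) (s : Option ℕ) (h : Tendsto u m (𝓝 w)) :
    Tendsto (fun a => zX A (hu a) s) m (𝓝 (zX A hw s)) := by
  rw [tendsto_subtype_rng, tendsto_iff]
  refine ⟨fun i => ?_, fun n => ?_, ?_, fun h' => ?_⟩
  · have h1 : Continuous (fun w : ℕ → ℕ => ((w i : ℕ) : ℝ)) :=
      Nat.isClosedEmbedding_coe_real.continuous.comp (continuous_apply i)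
    exact (h1.tendsto w).comp h
  · exact tendsto_const_nhds
  · exact tendsto_const_nhds
  · exact tendsto_const_nhds

lemma tendsto_zX_none {A : Set P.H} {w : ℕ → ℕ} (hw : w ∈ P.Z) :
    Tendsto (fun n => zX A hw (some n)) atTop (𝓝 (zX A hw none)) := by
  rw [tendsto_subtype_rng, tendsto_iff]
  refine ⟨fun i => tendsto_const_nhds, fun n => ?_, tendsto_const_nhds,
    fun h' => tendsto_const_nhds⟩
  apply tendsto_const_nhds.congr'
  filter_upwards [eventually_gt_atTop n] with k hk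
  have : k ≠ n := hk.ne'
  simp [zX, sg, this]

/-- The closure of the set of isolated points. -/
lemma closure_isolated (A : Set P.H) :
    closure {x : X P A | IsOpen ({x} : Set (X P A))} = {x : X P A | rr x.1 = 0} := by
  apply Subset.antisymm
  · apply closure_minimal
    · intro x hx
      by_contra hne
      exact not_isolated (lt_of_le_of_ne (rr_nonneg x.1) (Ne.symm hne)) hx
    · exact isClosed_eq (continuous_rr.comp continuous_subtype_val) continuous_const
  · rintro ⟨x, hxA⟩ hx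
    obtain ⟨w, hw, s, rfl⟩ := eq_z_of_rr hx
    have key : ∀ n, zX A hw (some n) ∈ closure {x : X P A | IsOpen ({x} : Set (X P A))} := by
      intro n
      obtain ⟨u, hu, hlim⟩ := mem_closure_iff_seq_limit.1 (P.dense w hw)
      apply mem_closure_of_tendsto (tendsto_zX (A := A) (fun a => (hu a).1) hw (some n) hlim)
      exact Eventually.of_forall fun a => isolated_of (hu a).1 (hu a).2 n
    cases s with
    | some n => exact key n
    | none =>
      rw [← closure_closure]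
      exact mem_closure_of_tendsto (tendsto_zX_none hw) (Eventually.of_forall key)

/-- The open star of page `h` in `X P A`. -/
def Oh (A : Set P.H) (h : P.H) : Set (X P A) := {x | 0 < be h x.1}

lemma isOpen_Oh (A : Set P.H) (h : P.H) : IsOpen (Oh A h) :=
  isOpen_lt continuous_const ((continuous_be h).comp continuous_subtype_val)

lemma isPreconnected_Oh {A : Set P.H} {h : P.H} (hA : h ∈ A) : IsPreconnected (Oh A h) := by
  have h1 : Oh A h = ⋃ v : P.F h,
      (fun s : ℝ => mu hA v.2 (projIcc 0 1 zero_le_one s)) '' Ioc 0 1 := by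
    ext x
    constructor
    · intro hx
      obtain ⟨v, hv, s, hs, hxs⟩ := exists_lam hx
      refine mem_iUnion.2 ⟨⟨v, hv⟩, s.1, ⟨hs, s.2.2⟩, ?_⟩
      apply Subtype.ext
      simp only [mu, projIcc_val]
      exact hxs.symm
    · intro hx
      obtain ⟨v, s, ⟨hs0, hs1⟩, rfl⟩ := mem_iUnion.1 hx
      change 0 < be h (lam h v.1 v.2 (projIcc 0 1 zero_le_one s))
      rw [be_lam, if_pos rfl, projIcc_of_mem zero_le_one ⟨hs0.le, hs1⟩]
      exact hs0
  rw [h1]
  apply isPreconnected_iUnion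
  · refine ⟨⟨c h, ?_⟩, mem_iInter.2 fun v => ⟨1, ⟨zero_lt_one, le_rfl⟩, ?_⟩⟩
    · intro h' hh'
      simp only [be] at hh'
      split_ifs at hh' with e
      · rw [← e]; exact hA
      · exact absurd hh' (lt_irrefl 0)
    · apply Subtype.ext
      simp [mu, lam]
  · intro v
    exact isPreconnected_Ioc.image _ ((continuous_mu hA v.2).comp continuous_projIcc).continuousOn

/-- marks are recognised as the points of the closure of the star with `rr = 0` -/
lemma zX_mem_closure_Oh {A : Set P.H} {h : P.H} (hA : h ∈ A) {w : ℕ → ℕ} (hw : w ∈ P.Z)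
    (s : Option ℕ) : zX A hw s ∈ closure (Oh A h) ↔ (s = none ∧ w ∈ P.F h) := by
  constructor
  · intro hx
    have hsub : closure (Oh A h) ⊆ Subtype.val ⁻¹' (star h : Set (Pt P)) := by
      apply closure_minimal
      · intro x hx
        obtain ⟨v, hv, s, hs, hxs⟩ := exists_lam hx
        exact mem_iUnion.2 ⟨⟨v, hv⟩, s, hxs.symm⟩
      · exact (isCompact_star h).isClosed.preimage continuous_subtype_val
    obtain ⟨v, s', hs'⟩ := mem_iUnion.1 (hsub hx)
    change lam h v.1 v.2 s' = z w hw s at hs'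
    have h1 := congrArg rr hs'
    rw [rr_lam] at h1
    have h2 : s'.1 = 0 := h1
    simp only [lam, h2, dif_pos] at hs'
    have h3 : v.1 = w ∧ none = s := by
      injection hs' with e1 e2
      exact ⟨e1, e2⟩
    exact ⟨h3.2.symm, h3.1 ▸ v.2⟩
  · rintro ⟨rfl, hv⟩
    have h1 : zX A hw none = mu hA hv ⟨0, le_rfl, zero_le_one⟩ := by
      apply Subtype.ext
      simp [mu, lam, zX]
    rw [h1]
    have h2 : (⟨0, le_rfl, zero_le_one⟩ : Icc (0 : ℝ) 1) ∈
        closure {s : Icc (0 : ℝ) 1 | 0 < s.1} := by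
      have h3 : Tendsto (fun n : ℕ => (projIcc (0 : ℝ) 1 zero_le_one (1 / ((n : ℝ) + 1)))) atTop
          (𝓝 (projIcc (0 : ℝ) 1 zero_le_one 0)) :=
        (continuous_projIcc.tendsto 0).comp tendsto_one_div_add_atTop_nhds_zero_nat
      have h4 : projIcc (0 : ℝ) 1 zero_le_one 0 = ⟨0, le_rfl, zero_le_one⟩ := by
        exact projIcc_of_mem zero_le_one ⟨le_rfl, zero_le_one⟩
      rw [h4] at h3
      apply mem_closure_of_tendsto h3
      apply Eventually.of_forall
      intro n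
      change 0 < (projIcc (0 : ℝ) 1 zero_le_one (1 / ((n : ℝ) + 1))).1
      have h5 : (0 : ℝ) < 1 / ((n : ℝ) + 1) := by positivity
      have h6 : 1 / ((n : ℝ) + 1) ≤ 1 := by
        rw [div_le_one (by positivity)]
        linarith [Nat.cast_nonneg (α := ℝ) n]
      rw [projIcc_of_mem zero_le_one ⟨h5.le, h6⟩]
      exact h5
    have h7 := image_closure_subset_closure_image (continuous_mu hA hv) ⟨_, h2, rfl⟩
    refine closure_mono ?_ h7
    rintro _ ⟨s, hs, rfl⟩
    change 0 < be h (lam h w hv s)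
    rw [be_lam, if_pos rfl]
    exact hs

section homeo

variable {A A' : Set P.H}

lemma rr_homeo (e : X P A ≃ₜ X P A') (x : X P A) : rr (e x).1 = 0 ↔ rr x.1 = 0 := by
  have h1 : e '' {x : X P A | IsOpen ({x} : Set (X P A))} =
      {x : X P A' | IsOpen ({x} : Set (X P A'))} := by
    ext y
    constructor
    · rintro ⟨x, hx, rfl⟩
      change IsOpen ({e x} : Set (X P A'))
      have : ({e x} : Set (X P A')) = e '' {x} := by simp
      rw [this]
      exact e.isOpenMap _ hx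
    · intro hy
      refine ⟨e.symm y, ?_, e.apply_symm_apply y⟩
      change IsOpen ({e.symm y} : Set (X P A))
      have : ({e.symm y} : Set (X P A)) = e.symm '' {y} := by simp
      rw [this]
      exact e.symm.isOpenMap _ hy
  have h2 : e '' {x : X P A | rr x.1 = 0} = {x : X P A' | rr x.1 = 0} := by
    rw [← closure_isolated, ← closure_isolated, e.image_closure, h1]
  have h3 : e x ∈ e '' {x : X P A | rr x.1 = 0} ↔ rr (e x).1 = 0 := by
    rw [h2]
    exact Iff.rfl
  rw [← h3]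
  constructor
  · rintro ⟨x', hx', he⟩
    rw [e.injective he] at hx'
    exact hx'
  · intro hx
    exact ⟨x, hx, rfl⟩

/-- the centre of page `h` as a point of `X P A` -/
def cX {h : P.H} (hA : h ∈ A) : X P A := ⟨c h, fun h' hh' => by
  simp only [be] at hh'
  split_ifs at hh' with e
  · rw [← e]; exact hA
  · exact absurd hh' (lt_irrefl 0)⟩

lemma cX_mem {h : P.H} (hA : h ∈ A) : cX hA ∈ Oh A h := by
  change 0 < be h (c h)
  simp [be]

lemma page_image (e : X P A ≃ₜ X P A') {h : P.H} (hA : h ∈ A) :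
    ∃ h' ∈ A', ∀ x ∈ Oh A h, e x ∈ Oh A' h' := by
  have h1 : 0 < rr (e (cX hA)).1 := by
    apply lt_of_le_of_ne (rr_nonneg _)
    intro h0
    have h2 := (rr_homeo e (cX hA)).1 h0.symm
    simp [cX, rr] at h2
  obtain ⟨h', hh'⟩ := exists_be_of_rr h1
  refine ⟨h', (e (cX hA)).2 h' hh', ?_⟩
  have hV : IsOpen (⋃ h'' ∈ {h'' : P.H | h'' ≠ h'}, Oh A' h'') :=
    isOpen_biUnion fun h'' _ => isOpen_Oh A' h''
  have hpre : IsPreconnected (e '' Oh A h) :=
    (isPreconnected_Oh hA).image e e.continuous.continuousOn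
  have hdisj : Disjoint (Oh A' h') (⋃ h'' ∈ {h'' : P.H | h'' ≠ h'}, Oh A' h'') := by
    rw [Set.disjoint_left]
    intro x hx hx'
    obtain ⟨h'', hne, hx''⟩ := mem_iUnion₂.1 hx'
    exact hne (be_eq_of_pos hx'' hx)
  have hsub : e '' Oh A h ⊆ Oh A' h' ∪ ⋃ h'' ∈ {h'' : P.H | h'' ≠ h'}, Oh A' h'' := by
    rintro _ ⟨x, hx, rfl⟩
    have h2 : 0 < rr (e x).1 := by
      apply lt_of_le_of_ne (rr_nonneg _)
      intro h0
      have h3 := (rr_homeo e x).1 h0.symm
      exact (rr_pos_of_be hx).ne' h3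
    obtain ⟨h'', hh''⟩ := exists_be_of_rr h2
    by_cases he : h'' = h'
    · left
      rw [← he]
      exact hh''
    · right
      exact mem_iUnion₂.2 ⟨h'', he, hh''⟩
  have := hpre.subset_left_of_subset_union (isOpen_Oh A' h') hV hdisj hsub
    ⟨e (cX hA), ⟨cX hA, cX_mem hA, rfl⟩, hh'⟩
  intro x hx
  exact this ⟨x, hx, rfl⟩

lemma page_image_eq (e : X P A ≃ₜ X P A') {h : P.H} (hA : h ∈ A) :
    ∃ h' ∈ A', e '' Oh A h = Oh A' h' := by
  obtain ⟨h', hA', h1⟩ := page_image e hA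
  obtain ⟨h'', hA'', h2⟩ := page_image e.symm hA'
  have h3 : h'' = h := by
    have h4 := h2 _ (h1 _ (cX_mem hA))
    rw [e.symm_apply_apply] at h4
    exact be_eq_of_pos h4 (cX_mem hA)
  subst h3
  refine ⟨h', hA', Subset.antisymm ?_ ?_⟩
  · rintro _ ⟨x, hx, rfl⟩
    exact h1 x hx
  · intro y hy
    exact ⟨e.symm y, h2 y hy, e.apply_symm_apply y⟩

/-- **From homeomorphisms to combinatorial isomorphisms.** -/
theorem comb_of_homeo (e : X P A ≃ₜ X P A') : ∃ (ψ : (ℕ → ℕ) → (ℕ → ℕ)) (φ : P.H → P.H),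
    (∀ h ∈ A, φ h ∈ A' ∧ P.F (φ h) = ψ '' P.F h) ∧
    (∀ h₁ ∈ A, ∀ h₂ ∈ A, ∀ v₁ ∈ P.F h₁, ∀ v₂ ∈ P.F h₂, ψ v₁ = ψ v₂ → v₁ = v₂) ∧
    (∀ w ∈ P.Z, ψ w ∈ P.Z) ∧
    (∀ (u : ℕ → (ℕ → ℕ)) (w : ℕ → ℕ), (∀ n, u n ∈ P.Z) → w ∈ P.Z →
      Tendsto u atTop (𝓝 w) → Tendsto (fun n => ψ (u n)) atTop (𝓝 (ψ w))) := by
  classical
  let ψ : (ℕ → ℕ) → (ℕ → ℕ) := fun w => if hw : w ∈ P.Z then zz (e (zX A hw none)).1 else w
  have hψ : ∀ {w : ℕ → ℕ} (hw : w ∈ P.Z), ψ w = zz (e (zX A hw none)).1 := fun {w} hw =>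
    dif_pos hw
  have hex : ∀ h, ∃ h', h ∈ A → (h' ∈ A' ∧ e '' Oh A h = Oh A' h') := by
    intro h
    by_cases hA : h ∈ A
    · obtain ⟨h', h1, h2⟩ := page_image_eq e hA
      exact ⟨h', fun _ => ⟨h1, h2⟩⟩
    · exact ⟨h, fun h1 => absurd h1 hA⟩
  choose φ hφ using hex
  have hcl : ∀ h, h ∈ A → e '' closure (Oh A h) = closure (Oh A' (φ h)) := by
    intro h hA
    rw [e.image_closure, (hφ h hA).2]
  have hmark : ∀ h (hA : h ∈ A) v (hv : v ∈ P.F h), ∃ hw : ψ v ∈ P.Z,
      e (zX A (P.subF h hv) none) = zX A' hw none ∧ ψ v ∈ P.F (φ h) := by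
    intro h hA v hv
    have h1 : e (zX A (P.subF h hv) none) ∈ closure (Oh A' (φ h)) := by
      rw [← hcl h hA]
      exact ⟨_, (zX_mem_closure_Oh hA _ _).2 ⟨rfl, hv⟩, rfl⟩
    have h2 : rr (e (zX A (P.subF h hv) none)).1 = 0 := by
      rw [rr_homeo]
      rfl
    obtain ⟨w, hw, s, hws⟩ := eq_z_of_rr h2
    have h3 : e (zX A (P.subF h hv) none) = zX A' hw s := Subtype.ext hws
    rw [h3] at h1
    obtain ⟨rfl, hwF⟩ := (zX_mem_closure_Oh (hφ h hA).1 _ _).1 h1
    have h4 : ψ v = w := by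
      rw [hψ (P.subF h hv), h3]
      rfl
    refine ⟨h4 ▸ hw, ?_, h4 ▸ hwF⟩
    rw [h3]
    apply Subtype.ext
    simp only [zX]
    congr 1
    exact h4.symm
  refine ⟨ψ, φ, ?_, ?_, ?_, ?_⟩
  · intro h hA
    refine ⟨(hφ h hA).1, Subset.antisymm ?_ ?_⟩
    · intro v' hv'
      have h1 : zX A' (P.subF _ hv') none ∈ closure (Oh A' (φ h)) :=
        (zX_mem_closure_Oh (hφ h hA).1 _ _).2 ⟨rfl, hv'⟩
      rw [← hcl h hA] at h1
      obtain ⟨x, hx, hex⟩ := h1
      have h2 : rr x.1 = 0 := by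
        rw [← rr_homeo e, hex]
        rfl
      obtain ⟨v, hv, s, hvs⟩ := eq_z_of_rr h2
      have h3 : x = zX A hv s := Subtype.ext hvs
      rw [h3] at hx hex
      obtain ⟨rfl, hvF⟩ := (zX_mem_closure_Oh hA _ _).1 hx
      refine ⟨v, hvF, ?_⟩
      rw [hψ hv, hex]
      rfl
    · rintro _ ⟨v, hv, rfl⟩
      exact (hmark h hA v hv).2.2
  · intro h₁ hA₁ h₂ hA₂ v₁ hv₁ v₂ hv₂ heq
    obtain ⟨hw₁, e₁, -⟩ := hmark h₁ hA₁ v₁ hv₁
    obtain ⟨hw₂, e₂, -⟩ := hmark h₂ hA₂ v₂ hv₂
    have h1 : zX A' hw₁ none = zX A' hw₂ none := by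
      apply Subtype.ext
      simp only [zX]
      congr 1
    rw [← e₁, ← e₂] at h1
    have h2 := congrArg Subtype.val (e.injective h1)
    simp only [zX] at h2
    injection h2
  · intro w hw
    rw [hψ hw]
    exact zz_mem _
  · intro u w hu hw hlim
    have h1 : Tendsto (fun n => e (zX A (hu n) none)) atTop (𝓝 (e (zX A hw none))) :=
      (e.continuous.tendsto _).comp (tendsto_zX hu hw none hlim)
    have h2 : Tendsto (fun n => (e (zX A (hu n) none)).1) atTop (𝓝 (e (zX A hw none)).1) :=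
      (continuous_subtype_val.tendsto _).comp h1
    have h3 : rr (e (zX A hw none)).1 < 1 := by
      have : rr (e (zX A hw none)).1 = 0 := by
        rw [rr_homeo]
        rfl
      rw [this]
      exact zero_lt_one
    have h4 : Tendsto (fun n => zz (e (zX A (hu n) none)).1) atTop
        (𝓝 (zz (e (zX A hw none)).1)) := Tendsto.comp (continuousAt_zz h3) h2
    rw [hψ hw]
    refine h4.congr fun n => ?_
    rw [hψ (hu n)]

end homeo

/-- **Borel dependence of the page space on the set of active pages.** -/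
theorem measurable_X {D : Type} [MeasurableSpace D] (A : D → Set P.H)
    (hA : ∀ h, MeasurableSet {d | h ∈ A d}) :
    Measurable (fun d => (⟨X P (A d), isClosed_X _⟩ : ClosedSubsets (Pt P))) := by
  classical
  have := P.countH
  apply measurable_generateFrom
  rintro _ ⟨O, hO, rfl⟩
  have h1 : (fun d => (⟨X P (A d), isClosed_X _⟩ : ClosedSubsets (Pt P))) ⁻¹'
      {F | (F.carrier ∩ O).Nonempty} =
      {_d : D | ∃ x ∈ O, rr x = 0} ∪ ⋃ h, ({d : D | h ∈ A d} ∩ {_d : D | ∃ x ∈ O, 0 < be h x}) := by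
    ext d
    constructor
    · rintro ⟨x, hxX, hxO⟩
      by_cases hx : rr x = 0
      · left
        exact ⟨x, hxO, hx⟩
      · right
        obtain ⟨h, hh⟩ := exists_be_of_rr (lt_of_le_of_ne (rr_nonneg x) (Ne.symm hx))
        exact mem_iUnion.2 ⟨h, hxX h hh, x, hxO, hh⟩
    · rintro (⟨x, hxO, hx⟩ | hd)
      · obtain ⟨w, hw, s, rfl⟩ := eq_z_of_rr hx
        exact ⟨_, z_mem_X _ hw s, hxO⟩
      · obtain ⟨h, hA, x, hxO, hx⟩ := mem_iUnion.1 hd
        refine ⟨x, fun h' hh' => ?_, hxO⟩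
        rw [be_eq_of_pos hh' hx]
        exact hA
  rw [h1]
  apply MeasurableSet.union (MeasurableSet.const _)
  apply MeasurableSet.iUnion
  intro h
  exact (hA h).inter (MeasurableSet.const _)

end Pt

end Pool.Agent.H73.PolishHomeo
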