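import Pool.Agent.H73.PolishHomeo.CodingInv

/-!
# Every `Σ¹₂` equivalence relation is Borel reducible to homeomorphism of Polish spaces
-/

set_option autoImplicit false

open Set Topology Filter MeasureTheory

namespace Pool.Agent.H73.PolishHomeo

lemma analyticSet_union {α : Type} [TopologicalSpace α] {s t : Set α} (hs : AnalyticSet s)
    (ht : AnalyticSet t) : AnalyticSet (s ∪ t) := by
  rw [union_eq_iUnion]
  apply AnalyticSet.iUnion
  intro b
  cases b
  · exact ht
  · exact hs

/-- An analytic set is the projection of a closed set. -/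
lemma exists_closed {α : Type} [TopologicalSpace α] [T2Space α] {s : Set α} (hs : AnalyticSet s) :
    ∃ CW : Set (α × (ℕ → ℕ)), IsClosed CW ∧ ∀ p, p ∈ s ↔ ∃ z, (p, z) ∈ CW := by
  rw [AnalyticSet] at hs
  rcases hs with rfl | ⟨g, hg, rfl⟩
  · exact ⟨∅, isClosed_empty, fun p => by simp⟩
  · refine ⟨{q | g q.2 = q.1}, isClosed_eq (hg.comp continuous_snd) continuous_fst, fun p => ?_⟩
    constructor
    · rintro ⟨z, rfl⟩
      exact ⟨z, rfl⟩
    · rintro ⟨z, hz⟩
      exact ⟨z, hz⟩

/-- The map from triples to sequences over the alphabet. -/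
def Jh {X : Type} (j : X → (ℕ → Bool)) (Ψ : (ℕ → ℕ) → (ℕ → Bool)) (q : (X × X) × (ℕ → ℕ)) :
    ℕ → B3 := fun i => (j q.1.1 i, j q.1.2 i, Ψ q.2 i)

lemma Jh_injective {X : Type} {j : X → (ℕ → Bool)} {Ψ : (ℕ → ℕ) → (ℕ → Bool)}
    (hj : Function.Injective j) (hΨ : Function.Injective Ψ) : Function.Injective (Jh j Ψ) := by
  rintro ⟨⟨x, y⟩, z⟩ ⟨⟨x', y'⟩, z'⟩ h
  have h1 : j x = j x' := funext fun i => congrArg (fun c : B3 => c.1) (congrFun h i)
  have h2 : j y = j y' := funext fun i => congrArg (fun c : B3 => c.2.1) (congrFun h i)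
  have h3 : Ψ z = Ψ z' := funext fun i => congrArg (fun c : B3 => c.2.2) (congrFun h i)
  rw [hj h1, hj h2, hΨ h3]

lemma Jh_measurable {X : Type} [MeasurableSpace X] {j : X → (ℕ → Bool)}
    {Ψ : (ℕ → ℕ) → (ℕ → Bool)} (hj : Measurable j) (hΨ : Measurable Ψ) :
    Measurable (Jh j Ψ) := by
  apply measurable_pi_lambda
  intro i
  have e1 : Measurable (fun q : (X × X) × (ℕ → ℕ) => j q.1.1 i) :=
    (measurable_pi_apply i).comp (hj.comp (measurable_fst.comp measurable_fst))
  have e2 : Measurable (fun q : (X × X) × (ℕ → ℕ) => j q.1.2 i) :=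
    (measurable_pi_apply i).comp (hj.comp (measurable_snd.comp measurable_fst))
  have e3 : Measurable (fun q : (X × X) × (ℕ → ℕ) => Ψ q.2 i) :=
    (measurable_pi_apply i).comp (hΨ.comp measurable_snd)
  exact e1.prodMk (e2.prodMk e3)

lemma measurableSet_mem_dd (i : List B3 ⊕ (Bool × List Bool)) :
    MeasurableSet {a : ℕ → Bool | i ∈ dd a} := by
  rcases i with u | ⟨b, w⟩
  · have : {a : ℕ → Bool | (Sum.inl u : List B3 ⊕ (Bool × List Bool)) ∈ dd a} = ∅ := by
      ext a
      constructor
      · intro h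
        exact absurd h (inl_notMem_dd a u)
      · intro h
        exact absurd h (notMem_empty _)
    rw [this]
    exact MeasurableSet.empty
  · have h1 : {a : ℕ → Bool | (Sum.inr (b, w) : List B3 ⊕ (Bool × List Bool)) ∈ dd a} =
        {a : ℕ → Bool | b :: w = ini a (w.length + 1)} := by
      ext a
      exact inr_mem_dd a b w
    rw [h1]
    by_cases h : ∃ a : ℕ → Bool, b :: w = ini a (w.length + 1)
    · obtain ⟨a0, ha0⟩ := h
      have h2 : {a : ℕ → Bool | b :: w = ini a (w.length + 1)} =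
          {a : ℕ → Bool | ini a (w.length + 1) = ini a0 (w.length + 1)} := by
        ext a
        change b :: w = ini a (w.length + 1) ↔ ini a (w.length + 1) = ini a0 (w.length + 1)
        rw [← ha0]
        exact eq_comm
      rw [h2]
      exact (isOpen_ini a0 (w.length + 1)).measurableSet
    · convert MeasurableSet.empty using 1
      ext a
      constructor
      · intro ha
        exact h ⟨a, ha⟩
      · intro ha
        exact absurd ha (notMem_empty _)

lemma measurableSet_mem_Act (CW : Set ((ℕ → B3) × (ℕ → ℕ))) (p : (DD CW).Pg) :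
    MeasurableSet {a : ℕ → Bool | p ∈ (DD CW).Act (dd a)} := by
  by_cases h : ∃ i, p.1.1 = Sum.inr (Sum.inl i)
  · obtain ⟨i, hi⟩ := h
    have h1 : {a : ℕ → Bool | p ∈ (DD CW).Act (dd a)} =
        {a : ℕ → Bool | Odd p.1.2.card ↔ i ∈ dd a} := by
      ext a
      constructor
      · intro ha
        exact ha i hi
      · intro ha i' hi'
        have : i = i' := by
          rw [hi] at hi'
          simpa using hi'
        subst this
        exact ha
    rw [h1]
    by_cases ho : Odd p.1.2.card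
    · have h2 : {a : ℕ → Bool | Odd p.1.2.card ↔ i ∈ dd a} = {a : ℕ → Bool | i ∈ dd a} := by
        ext a
        exact ⟨fun h => h.1 ho, fun h => ⟨fun _ => h, fun _ => ho⟩⟩
      rw [h2]
      exact measurableSet_mem_dd i
    · have h2 : {a : ℕ → Bool | Odd p.1.2.card ↔ i ∈ dd a} = {a : ℕ → Bool | i ∈ dd a}ᶜ := by
        ext a
        exact ⟨fun h h' => ho (h.2 h'), fun h => ⟨fun h' => absurd h' ho, fun h' => absurd h' h⟩⟩
      rw [h2]
      exact (measurableSet_mem_dd i).compl
  · convert MeasurableSet.univ using 1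
    ext a
    constructor
    · intro _
      trivial
    · intro _ i hi
      exact absurd ⟨i, hi⟩ h

/-- **Every `Σ¹₂` equivalence relation on a standard Borel space is Borel reducible to the
homeomorphism relation between Polish spaces.** -/
theorem borelReducible_homeo (U : Type) [TopologicalSpace U] (hU : IsUniversalPolish U)
    (X : Type) [MeasurableSpace X] [StandardBorelSpace X] (E : X → X → Prop)
    (hE : Equivalence E) (hS : IsSigma12 (graph E)) : BorelReducible E (Homeo U) := by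
  classical
  obtain ⟨P, hP, hEP⟩ := hS
  have hE' : ∀ x y, E x y ↔ ∃ z, ((x, y), z) ∈ P := by
    intro x y
    have : (x, y) ∈ graph E ↔ (x, y) ∈ {x | ∃ z, (x, z) ∈ P} := by rw [hEP]
    exact this
  obtain ⟨Bo, hBo, hPc⟩ := hP
  let j : X → (ℕ → Bool) := MeasurableSpace.mapNatBool X
  have hjm : Measurable j := MeasurableSpace.measurable_mapNatBool X
  have hji : Function.Injective j := MeasurableSpace.injective_mapNatBool X
  let Ψ : (ℕ → ℕ) → (ℕ → Bool) := MeasurableSpace.mapNatBool (ℕ → ℕ)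
  have hΨm : Measurable Ψ := MeasurableSpace.measurable_mapNatBool (ℕ → ℕ)
  have hΨi : Function.Injective Ψ := MeasurableSpace.injective_mapNatBool (ℕ → ℕ)
  have hJm := Jh_measurable hjm hΨm
  have hJi := Jh_injective hji hΨi
  let W : Set (ℕ → B3) := Jh j Ψ '' P
  have hWc : Wᶜ = (fun q : ((X × X) × (ℕ → ℕ)) × (ℕ → ℕ) => Jh j Ψ q.1) '' Bo ∪
      (range (Jh j Ψ))ᶜ := by
    ext p
    constructor
    · intro hp
      by_cases hr : p ∈ range (Jh j Ψ)
      · left
        obtain ⟨q, rfl⟩ := hr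
        have hq : q ∈ Pᶜ := fun h => hp ⟨q, h, rfl⟩
        rw [hPc] at hq
        obtain ⟨z, hz⟩ := hq
        exact ⟨(q, z), hz, rfl⟩
      · right
        exact hr
    · rintro (⟨⟨q, z⟩, hq, rfl⟩ | hp)
      · rintro ⟨q', hq', he⟩
        have h1 : q' = q := hJi he
        subst h1
        have h2 : q' ∈ Pᶜ := by
          rw [hPc]
          exact ⟨z, hq⟩
        exact h2 hq'
      · rintro ⟨q', hq', rfl⟩
        exact hp ⟨q', rfl⟩
  have hWan : AnalyticSet Wᶜ := by
    rw [hWc]
    apply analyticSet_union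
    · exact MeasurableSet.analyticSet_image hBo (hJm.comp measurable_fst)
    · exact ((hJm.measurableEmbedding hJi).measurableSet_range.compl).analyticSet
  obtain ⟨CW, hCW, hCWp⟩ := exists_closed hWan
  have hTree := isTree_DD CW
  have hPol : PolishSpace (Pt ((DD CW).sys hTree)) := inferInstance
  obtain ⟨ι, hι⟩ := hU (Pt ((DD CW).sys hTree))
  let R : (ℕ → Bool) → (ℕ → Bool) → Prop := fun a b => ∃ x y, j x = a ∧ j y = b ∧ E x y
  have hRE : ∀ x y, R (j x) (j y) ↔ E x y := by
    intro x y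
    constructor
    · rintro ⟨x', y', h1, h2, h3⟩
      rw [hji h1, hji h2] at h3
      exact h3
    · intro h
      exact ⟨x, y, rfl, rfl, h⟩
  refine ⟨fun x => push hι ⟨Pt.X ((DD CW).sys hTree) ((DD CW).Act (dd (j x))), Pt.isClosed_X _⟩,
    ?_, fun x y => ?_⟩
  · apply (measurable_push hι).comp
    have h1 := Pt.measurable_X (P := (DD CW).sys hTree) (fun a : ℕ → Bool => (DD CW).Act (dd a))
      (fun p => measurableSet_mem_Act CW p)
    exact h1.comp hjm
  · rw [push_homeo]
    constructor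
    · intro hxy
      obtain ⟨z, hz⟩ := (hE' x y).1 hxy
      have hpW : ∀ z', (Jh j Ψ ((x, y), z), z') ∉ CW := by
        intro z' hz'
        have h1 : Jh j Ψ ((x, y), z) ∈ Wᶜ := (hCWp _).2 ⟨z', hz'⟩
        exact h1 ⟨_, hz, rfl⟩
      have h1 : (DD CW).Par (segs (Jh j Ψ ((x, y), z))) (dd (j x)) (dd (j y)) :=
        par_segs (Jh j Ψ ((x, y), z))
      have h2 : (DD CW).Conv (segs (Jh j Ψ ((x, y), z))) := conv_segs hCW hpW
      exact (DD CW).homeo_of_solution hTree _ h1 h2
    · rintro ⟨e⟩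
      obtain ⟨C, hP, hC⟩ := (DD CW).solution_of_homeo hTree e
      rw [← hRE]
      refine rel_of_solution (CW := CW) (C := C) ?_ ?_ ((hRE x x).2 (hE.refl x)) ?_ hP hC
      · rintro a b ⟨x', y', h1, h2, h3⟩
        exact ⟨y', x', h2, h1, hE.symm h3⟩
      · rintro a b c ⟨x', y', rfl, rfl, h3⟩ ⟨x'', y'', h4, rfl, h6⟩
        rw [hji h4] at h6
        exact ⟨x', y'', rfl, rfl, hE.trans h3 h6⟩
      · intro p hp
        have h1 : p ∈ W := by
          by_contra h
          obtain ⟨z, hz⟩ := (hCWp p).1 h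
          exact hp z hz
        obtain ⟨⟨⟨x', y'⟩, z'⟩, hq, rfl⟩ := h1
        exact ⟨x', y', rfl, rfl, (hE' x' y').2 ⟨z', hq⟩⟩

end Pool.Agent.H73.PolishHomeo
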