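import Pool.Agent.H73.PolishHomeo.Defs

/-!
# Universal Polish spaces

The Urysohn space, and the space `ℕ → ℝ`, are universal Polish spaces.
-/

set_option autoImplicit false

open Set Topology Filter

namespace Pool.Agent.H73.PolishHomeo

/-- `U` is a Urysohn space: a complete separable metric space with the one-point extension
property for finite metric spaces (the Urysohn space is the unique such space up to isometry). -/
def IsUrysohn (U : Type) [MetricSpace U] : Prop :=
  CompleteSpace U ∧ TopologicalSpace.SeparableSpace U ∧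
    ∀ (n : ℕ) (a : Fin n → U) (f : Fin n → ℝ),
      (∀ i j, |f i - f j| ≤ dist (a i) (a j) ∧ dist (a i) (a j) ≤ f i + f j) →
        ∃ z : U, ∀ i, dist z (a i) = f i

lemma IsUrysohn.nonempty {U : Type} [MetricSpace U] (h : IsUrysohn U) : Nonempty U := by
  obtain ⟨z, -⟩ := h.2.2 0 (fun i => i.elim0) (fun i => i.elim0) (fun i => i.elim0)
  exact ⟨z⟩

open Classical in
/-- a copy in `U` of a given sequence in `M` -/
noncomputable def copySeq {U M : Type} [MetricSpace U] [MetricSpace M] [Nonempty U]
    (x : ℕ → M) (n : ℕ) : U :=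
  if h : ∃ z : U, ∀ i : Fin n, dist z (copySeq x i.1) = dist (x n) (x i.1) then h.choose
  else Classical.arbitrary U
termination_by n
decreasing_by exact i.2

lemma copySeq_spec {U M : Type} [MetricSpace U] [MetricSpace M] [Nonempty U]
    (hU : IsUrysohn U) (x : ℕ → M) (n : ℕ) :
    ∀ i < n, dist (copySeq (U := U) x n) (copySeq (U := U) x i) = dist (x n) (x i) := by
  induction n using Nat.strong_induction_on with
  | _ n ih =>
    have hsym : ∀ i < n, ∀ j < n, dist (copySeq (U := U) x i) (copySeq (U := U) x j) =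
        dist (x i) (x j) := by
      intro i hi j hj
      rcases lt_trichotomy i j with h | h | h
      · rw [dist_comm, ih j hj i h, dist_comm]
      · subst h
        rw [dist_self, dist_self]
      · exact ih i hi j h
    have hex : ∃ z : U, ∀ i : Fin n, dist z (copySeq x i.1) = dist (x n) (x i.1) := by
      apply hU.2.2 n (fun i => copySeq x i.1) (fun i => dist (x n) (x i.1))
      intro i j
      rw [hsym i.1 i.2 j.1 j.2]
      constructor
      · have := abs_dist_sub_le (x i.1) (x j.1) (x n)
        rw [dist_comm (x n), dist_comm (x n)]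
        exact this
      · rw [dist_comm (x n) (x i.1)]
        exact dist_triangle _ _ _
    intro i hi
    rw [copySeq, dif_pos hex]
    exact hex.choose_spec ⟨i, hi⟩

lemma copySeq_dist {U M : Type} [MetricSpace U] [MetricSpace M] [Nonempty U]
    (hU : IsUrysohn U) (x : ℕ → M) (i j : ℕ) :
    dist (copySeq (U := U) x i) (copySeq (U := U) x j) = dist (x i) (x j) := by
  rcases lt_trichotomy i j with h | h | h
  · rw [dist_comm, copySeq_spec hU x j i h, dist_comm]
  · subst h
    rw [dist_self, dist_self]
  · exact copySeq_spec hU x i j h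

/-- Every complete separable metric space embeds isometrically in the Urysohn space. -/
lemma IsUrysohn.exists_isometry {U : Type} [MetricSpace U] (hU : IsUrysohn U) (M : Type)
    [MetricSpace M] [TopologicalSpace.SeparableSpace M] : ∃ f : M → U, Isometry f := by
  have := hU.nonempty
  have hc : CompleteSpace U := hU.1
  rcases isEmpty_or_nonempty M with hM | hM
  · exact ⟨fun m => (hM.false m).elim, fun m => (hM.false m).elim⟩
  let x : ℕ → M := TopologicalSpace.denseSeq M
  have hx : DenseRange x := TopologicalSpace.denseRange_denseSeq M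
  have hν : ∀ m : M, ∃ ν : ℕ → ℕ, Tendsto (fun k => x (ν k)) atTop (𝓝 m) := by
    intro m
    obtain ⟨u, hu, hlim⟩ := mem_closure_iff_seq_limit.1 (hx m)
    choose ν hν using hu
    refine ⟨ν, ?_⟩
    simpa only [hν] using hlim
  choose ν hν using hν
  have hy : ∀ m : M, ∃ u : U, Tendsto (fun k => copySeq (U := U) x (ν m k)) atTop (𝓝 u) := by
    intro m
    apply cauchySeq_tendsto_of_complete
    rw [Metric.cauchySeq_iff]
    intro ε hε
    obtain ⟨N, hN⟩ := Metric.cauchySeq_iff.1 (hν m).cauchySeq ε hε
    refine ⟨N, fun k hk l hl => ?_⟩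
    rw [copySeq_dist hU]
    exact hN k hk l hl
  choose f hf using hy
  refine ⟨f, Isometry.of_dist_eq fun m m' => ?_⟩
  have h1 : Tendsto (fun k => dist (copySeq (U := U) x (ν m k)) (copySeq (U := U) x (ν m' k)))
      atTop (𝓝 (dist (f m) (f m'))) := (hf m).dist (hf m')
  have h2 : Tendsto (fun k => dist (x (ν m k)) (x (ν m' k))) atTop (𝓝 (dist m m')) :=
    (hν m).dist (hν m')
  simp only [copySeq_dist hU] at h1
  exact tendsto_nhds_unique h1 h2

/-- The Urysohn space is a universal Polish space. -/
theorem IsUrysohn.isUniversalPolish {U : Type} [MetricSpace U] (hU : IsUrysohn U) :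
    IsUniversalPolish U := by
  intro M _ _
  let := TopologicalSpace.upgradeIsCompletelyMetrizable M
  obtain ⟨f, hf⟩ := hU.exists_isometry M
  exact ⟨f, hf.isClosedEmbedding⟩

/-- The Urysohn space is Polish. -/
theorem IsUrysohn.polishSpace {U : Type} [MetricSpace U] (hU : IsUrysohn U) : PolishSpace U := by
  have h1 : CompleteSpace U := hU.1
  have h2 : TopologicalSpace.SeparableSpace U := hU.2.1
  have h3 : SecondCountableTopology U := UniformSpace.secondCountable_of_separable U
  infer_instance

section real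

variable {M : Type} [MetricSpace M]

/-- bump functions -/
noncomputable def bump (x : ℕ → M) (k n : ℕ) (m : M) : ℝ :=
  (1 / 2 : ℝ) ^ n * max 0 (1 - 2 ^ k * dist m (x n))

lemma bump_nonneg (x : ℕ → M) (k n : ℕ) (m : M) : 0 ≤ bump x k n m :=
  mul_nonneg (by positivity) (le_max_left _ _)

lemma bump_le (x : ℕ → M) (k n : ℕ) (m : M) : bump x k n m ≤ (1 / 2 : ℝ) ^ n := by
  have h1 : max 0 (1 - 2 ^ k * dist m (x n)) ≤ 1 := by
    apply max_le (by norm_num)
    have : (0 : ℝ) ≤ 2 ^ k * dist m (x n) := by positivity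
    linarith
  have h2 : (0 : ℝ) ≤ (1 / 2 : ℝ) ^ n := by positivity
  unfold bump
  nlinarith

lemma bump_norm_le (x : ℕ → M) (k n : ℕ) (m : M) : ‖bump x k n m‖ ≤ (1 / 2 : ℝ) ^ n := by
  rw [Real.norm_of_nonneg (bump_nonneg x k n m)]
  exact bump_le x k n m

lemma summable_half : Summable (fun n : ℕ => (1 / 2 : ℝ) ^ n) :=
  summable_geometric_of_lt_one (by norm_num) (by norm_num)

lemma summable_bump (x : ℕ → M) (k : ℕ) (m : M) : Summable (fun n => bump x k n m) :=
  Summable.of_nonneg_of_le (fun n => bump_nonneg x k n m) (fun n => bump_le x k n m) summable_half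

/-- sum of the bump functions -/
noncomputable def bsum (x : ℕ → M) (k : ℕ) (m : M) : ℝ := ∑' n, bump x k n m

lemma continuous_bsum (x : ℕ → M) (k : ℕ) : Continuous (bsum x k) := by
  apply continuous_tsum (u := fun n : ℕ => (1 / 2 : ℝ) ^ n) _ summable_half
    (fun n m => bump_norm_le x k n m)
  intro n
  unfold bump
  fun_prop

lemma bsum_pos {x : ℕ → M} (hx : DenseRange x) (k : ℕ) (m : M) : 0 < bsum x k m := by
  have hpos : (0 : ℝ) < (1 / 2) ^ k := by positivity
  obtain ⟨n, hn⟩ := hx.exists_dist_lt m hpos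
  have h1 : 0 < bump x k n m := by
    unfold bump
    have h2 : 0 < 1 - 2 ^ k * dist m (x n) := by
      have h3 : (2 : ℝ) ^ k * dist m (x n) < 2 ^ k * (1 / 2) ^ k :=
        mul_lt_mul_of_pos_left hn (by positivity)
      rw [← mul_pow] at h3
      norm_num at h3
      linarith
    exact mul_pos (by positivity) (lt_max_of_lt_right h2)
  exact (summable_bump x k m).tsum_pos (fun n => bump_nonneg x k n m) n h1

lemma exists_near (x : ℕ → M) (k : ℕ) {c : ℝ} (hc : 0 < c) :
    ∃ N : ℕ, ∀ m, c ≤ bsum x k m → ∃ n < N, dist m (x n) < (1 / 2) ^ k := by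
  obtain ⟨N, hN⟩ := exists_pow_lt_of_lt_one (show 0 < c / 2 by linarith)
    (show (1 / 2 : ℝ) < 1 by norm_num)
  refine ⟨N, fun m hm => ?_⟩
  by_contra hcon
  push Not at hcon
  have h0 : ∀ n < N, bump x k n m = 0 := by
    intro n hn
    have h1 := hcon n hn
    have h2 : (1 : ℝ) - 2 ^ k * dist m (x n) ≤ 0 := by
      have h3 : (2 : ℝ) ^ k * (1 / 2) ^ k ≤ 2 ^ k * dist m (x n) :=
        mul_le_mul_of_nonneg_left h1 (by positivity)
      rw [← mul_pow] at h3
      norm_num at h3
      linarith
    unfold bump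
    rw [max_eq_left h2, mul_zero]
  have h1 := (summable_bump x k m).sum_add_tsum_nat_add N
  rw [Finset.sum_eq_zero (fun n hn => h0 n (Finset.mem_range.1 hn)), zero_add] at h1
  have h2 : ∑' n, bump x k (n + N) m ≤ ∑' n, (1 / 2 : ℝ) ^ (n + N) := by
    apply Summable.tsum_le_tsum (fun n => bump_le x k (n + N) m)
    · exact (summable_nat_add_iff N).2 (summable_bump x k m)
    · exact (summable_nat_add_iff N).2 summable_half
  have h3 : ∑' n, (1 / 2 : ℝ) ^ (n + N) = 2 * (1 / 2) ^ N := by
    simp_rw [pow_add]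
    rw [tsum_mul_right, tsum_geometric_of_lt_one (by norm_num) (by norm_num)]
    norm_num
  have h4 : bsum x k m ≤ 2 * (1 / 2) ^ N := by
    unfold bsum
    rw [← h1, ← h3]
    exact h2
  linarith

/-- The closed embedding. -/
noncomputable def embSeq (x : ℕ → M) (m : M) (i : ℕ) : ℝ :=
  if i % 2 = 0 then dist m (x (i / 2)) else (bsum x (i / 2) m)⁻¹

lemma embSeq_even (x : ℕ → M) (m : M) (n : ℕ) : embSeq x m (2 * n) = dist m (x n) := by
  have h1 : (2 * n) % 2 = 0 := by omega
  have h2 : (2 * n) / 2 = n := by omega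
  simp only [embSeq, h1, h2, if_true]

lemma embSeq_odd (x : ℕ → M) (m : M) (n : ℕ) : embSeq x m (2 * n + 1) = (bsum x n m)⁻¹ := by
  have h1 : ¬ (2 * n + 1) % 2 = 0 := by omega
  have h2 : (2 * n + 1) / 2 = n := by omega
  simp only [embSeq, h1, h2, if_false]

lemma continuous_embSeq {x : ℕ → M} (hx : DenseRange x) : Continuous (embSeq x) := by
  apply continuous_pi
  intro i
  by_cases h : i % 2 = 0
  · have : (fun m => embSeq x m i) = fun m => dist m (x (i / 2)) := by
      funext m
      simp only [embSeq, h, if_true]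
    rw [this]
    fun_prop
  · have : (fun m => embSeq x m i) = fun m => (bsum x (i / 2) m)⁻¹ := by
      funext m
      simp only [embSeq, h, if_false]
    rw [this]
    exact (continuous_bsum x (i / 2)).inv₀ fun m => (bsum_pos hx _ m).ne'

lemma embSeq_injective {x : ℕ → M} (hx : DenseRange x) : Function.Injective (embSeq x) := by
  intro m m' h
  by_contra hne
  have hpos : 0 < dist m m' / 2 := by
    have := dist_pos.2 hne
    linarith
  obtain ⟨n, hn⟩ := hx.exists_dist_lt m hpos
  have h1 := congrFun h (2 * n)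
  rw [embSeq_even, embSeq_even] at h1
  have h2 := dist_triangle_right m m' (x n)
  linarith

lemma exists_subseq [CompleteSpace M] {x : ℕ → M} (hx : DenseRange x) {m : ℕ → M} {y : ℕ → ℝ}
    (h : Tendsto (fun j => embSeq x (m j)) atTop (𝓝 y)) :
    ∃ (l : M) (φ : ℕ → ℕ), StrictMono φ ∧ Tendsto (m ∘ φ) atTop (𝓝 l) := by
  have htb : TotallyBounded (range m) := by
    rw [Metric.totallyBounded_iff]
    intro ε hε
    obtain ⟨k, hk⟩ := exists_pow_lt_of_lt_one hε (show (1 / 2 : ℝ) < 1 by norm_num)
    have h1 : Tendsto (fun j => (bsum x k (m j))⁻¹) atTop (𝓝 (y (2 * k + 1))) := by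
      have := (tendsto_pi_nhds.1 h) (2 * k + 1)
      simpa only [embSeq_odd] using this
    obtain ⟨C, hC⟩ := h1.bddAbove_range
    have hC1 : ∀ j, (bsum x k (m j))⁻¹ ≤ max C 1 := fun j =>
      (hC (mem_range_self j)).trans (le_max_left _ _)
    have hCpos : (0 : ℝ) < max C 1 := lt_max_of_lt_right one_pos
    obtain ⟨N, hN⟩ := exists_near x k (inv_pos.2 hCpos)
    refine ⟨x '' (Set.Iio N), (Set.finite_Iio N).image x, ?_⟩
    rintro _ ⟨j, rfl⟩
    have h2 : (max C 1)⁻¹ ≤ bsum x k (m j) := by
      rw [inv_le_comm₀ hCpos (bsum_pos hx k (m j))]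
      exact hC1 j
    obtain ⟨n, hn, hn'⟩ := hN (m j) h2
    simp only [mem_iUnion]
    exact ⟨x n, ⟨n, hn, rfl⟩, hn'.trans hk⟩
  have hcomp : IsCompact (closure (range m)) := htb.closure.isCompact_of_isClosed isClosed_closure
  obtain ⟨l, -, φ, hφ, hl⟩ := hcomp.tendsto_subseq (x := m)
    (fun j => subset_closure (mem_range_self j))
  exact ⟨l, φ, hφ, hl⟩

lemma isClosedEmbedding_embSeq [CompleteSpace M] {x : ℕ → M} (hx : DenseRange x) :
    IsClosedEmbedding (embSeq x) := by
  apply IsClosedEmbedding.of_continuous_injective_isClosedMap (continuous_embSeq hx)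
    (embSeq_injective hx)
  intro C hC
  apply IsSeqClosed.isClosed
  intro y l hy hl
  choose m hm1 hm2 using hy
  have h1 : Tendsto (fun j => embSeq x (m j)) atTop (𝓝 l) := by
    simpa only [hm2] using hl
  obtain ⟨p, φ, hφ, hp⟩ := exists_subseq hx h1
  have hpC : p ∈ C := hC.mem_of_tendsto hp (Eventually.of_forall fun j => hm1 _)
  refine ⟨p, hpC, ?_⟩
  have h2 : Tendsto (fun j => embSeq x (m (φ j))) atTop (𝓝 (embSeq x p)) :=
    ((continuous_embSeq hx).tendsto p).comp hp
  exact tendsto_nhds_unique h2 (h1.comp hφ.tendsto_atTop)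

end real

/-- The space of real sequences is a universal Polish space. -/
theorem isUniversalPolish_real_seq : IsUniversalPolish (ℕ → ℝ) := by
  intro M _ _
  let := TopologicalSpace.upgradeIsCompletelyMetrizable M
  rcases isEmpty_or_nonempty M with hM | hM
  · refine ⟨fun m => (hM.false m).elim, ?_⟩
    apply IsClosedEmbedding.of_continuous_injective_isClosedMap
    · exact continuous_of_discreteTopology
    · exact fun m => (hM.false m).elim
    · intro C hC
      rw [Set.eq_empty_of_isEmpty C, image_empty]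
      exact isClosed_empty
  · exact ⟨embSeq (TopologicalSpace.denseSeq M),
      isClosedEmbedding_embSeq (TopologicalSpace.denseRange_denseSeq M)⟩

end Pool.Agent.H73.PolishHomeo
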