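import Pool.Agent.H73.PolishHomeo.Defs

/-!
# The homeomorphism relation between Polish spaces is `Σ¹₂`
-/

set_option autoImplicit false

open Set Topology Filter MeasureTheory

namespace Pool.Agent.H73.PolishHomeo

section topology

variable {U : Type} [TopologicalSpace U]

/-- the sequence converges -/
def Cvg (u : ℕ → U) : Prop := ∃ l, Tendsto u atTop (𝓝 l)

/-- the two sequences have the same convergent subfamilies -/
def Same (a b : ℕ → U) : Prop := ∀ ν : ℕ → ℕ, Cvg (fun k => a (ν k)) ↔ Cvg (fun k => b (ν k))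

lemma Same.symm {a b : ℕ → U} (h : Same a b) : Same b a := fun ν => (h ν).symm

lemma exists_index [FirstCountableTopology U] {a : ℕ → U} {x : U} (hx : x ∈ closure (range a)) :
    ∃ ν : ℕ → ℕ, Tendsto (fun k => a (ν k)) atTop (𝓝 x) := by
  obtain ⟨u, hu, hlim⟩ := mem_closure_iff_seq_limit.1 hx
  choose ν hν using hu
  refine ⟨ν, ?_⟩
  simpa only [hν] using hlim

lemma tendsto_interleave {u v : ℕ → U} {x : U} (hu : Tendsto u atTop (𝓝 x))
    (hv : Tendsto v atTop (𝓝 x)) :
    Tendsto (fun k => if k % 2 = 0 then u (k / 2) else v (k / 2)) atTop (𝓝 x) := by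
  have h2 : Tendsto (fun k : ℕ => k / 2) atTop atTop := Nat.tendsto_div_const_atTop (by norm_num)
  intro O hO
  have e1 : ∀ᶠ k in atTop, u (k / 2) ∈ O := (hu.comp h2) hO
  have e2 : ∀ᶠ k in atTop, v (k / 2) ∈ O := (hv.comp h2) hO
  change ∀ᶠ k in atTop, (if k % 2 = 0 then u (k / 2) else v (k / 2)) ∈ O
  filter_upwards [e1, e2] with k h3 h4
  split_ifs
  · exact h3
  · exact h4

lemma exists_value [T2Space U] [FirstCountableTopology U] {a b : ℕ → U} (h : Same a b) {x : U}
    (hx : x ∈ closure (range a)) : ∃ y ∈ closure (range b),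
      ∀ ν : ℕ → ℕ, Tendsto (fun k => a (ν k)) atTop (𝓝 x) →
        Tendsto (fun k => b (ν k)) atTop (𝓝 y) := by
  obtain ⟨ν0, hν0⟩ := exists_index hx
  obtain ⟨y, hy⟩ := (h ν0).1 ⟨x, hν0⟩
  refine ⟨y, mem_closure_of_tendsto hy (Eventually.of_forall fun k => mem_range_self _), ?_⟩
  intro ν hν
  have h1 := tendsto_interleave hν hν0
  have h2 : Cvg (fun k => a ((fun k => if k % 2 = 0 then ν (k / 2) else ν0 (k / 2)) k)) := by
    refine ⟨x, ?_⟩
    convert h1 using 2 with k
    dsimp only
    split_ifs <;> rfl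
  obtain ⟨y', hy'⟩ := (h _).1 h2
  have he : Tendsto (fun k : ℕ => 2 * k) atTop atTop :=
    tendsto_atTop_mono (fun k => by
      change k ≤ 2 * k
      omega) tendsto_id
  have ho : Tendsto (fun k : ℕ => 2 * k + 1) atTop atTop := tendsto_atTop_mono (fun k => by
      change k ≤ 2 * k + 1
      omega) tendsto_id
  have e1 : Tendsto (fun k => b (ν k)) atTop (𝓝 y') := by
    have := hy'.comp he
    refine this.congr fun k => ?_
    have h3 : (2 * k) % 2 = 0 := by omega
    have h4 : (2 * k) / 2 = k := by omega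
    simp only [Function.comp, h3, h4, if_true]
  have e2 : Tendsto (fun k => b (ν0 k)) atTop (𝓝 y') := by
    have := hy'.comp ho
    refine this.congr fun k => ?_
    have h3 : ¬ ((2 * k + 1) % 2 = 0) := by omega
    have h4 : (2 * k + 1) / 2 = k := by omega
    simp only [Function.comp, h3, h4, if_false]
  rw [tendsto_nhds_unique hy e2]
  exact e1

lemma continuous_value [T2Space U] [TopologicalSpace.MetrizableSpace U] {a b : ℕ → U}
    (f : closure (range a) → closure (range b))
    (hf : ∀ x : closure (range a), ∀ ν : ℕ → ℕ, Tendsto (fun k => a (ν k)) atTop (𝓝 x.1) →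
      Tendsto (fun k => b (ν k)) atTop (𝓝 (f x).1)) : Continuous f := by
  let := TopologicalSpace.metrizableSpaceMetric U
  rw [continuous_iff_seqContinuous]
  intro xs x hxs
  have h1 : ∀ k : ℕ, ∃ n : ℕ, dist (a n) (xs k).1 < 1 / ((k : ℝ) + 1) ∧
      dist (b n) (f (xs k)).1 < 1 / ((k : ℝ) + 1) := by
    intro k
    obtain ⟨ν, hν⟩ := exists_index (xs k).2
    have hν' := hf (xs k) ν hν
    have hpos : (0 : ℝ) < 1 / ((k : ℝ) + 1) := by positivity
    have e1 := Metric.tendsto_nhds.1 hν _ hpos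
    have e2 := Metric.tendsto_nhds.1 hν' _ hpos
    obtain ⟨m, hm1, hm2⟩ := (e1.and e2).exists
    exact ⟨ν m, hm1, hm2⟩
  choose n hn1 hn2 using h1
  have h0 : Tendsto (fun k : ℕ => 1 / ((k : ℝ) + 1)) atTop (𝓝 0) :=
    tendsto_one_div_add_atTop_nhds_zero_nat
  have hx : Tendsto (fun k => dist (xs k).1 x.1) atTop (𝓝 0) := by
    have := (continuous_subtype_val.tendsto x).comp hxs
    exact tendsto_iff_dist_tendsto_zero.1 this
  have h2 : Tendsto (fun k => a (n k)) atTop (𝓝 x.1) := by
    rw [tendsto_iff_dist_tendsto_zero]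
    have h5 := h0.add hx
    rw [add_zero] at h5
    refine squeeze_zero (fun _ => dist_nonneg) (fun k => ?_) h5
    calc dist (a (n k)) x.1 ≤ dist (a (n k)) (xs k).1 + dist (xs k).1 x.1 := dist_triangle _ _ _
      _ ≤ 1 / ((k : ℝ) + 1) + dist (xs k).1 x.1 := by linarith [hn1 k]
  have h3 := hf x n h2
  have h4 : Tendsto (fun k => dist (b (n k)) (f x).1) atTop (𝓝 0) :=
    tendsto_iff_dist_tendsto_zero.1 h3
  rw [tendsto_subtype_rng, tendsto_iff_dist_tendsto_zero]
  have h5 := h0.add h4
  rw [add_zero] at h5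
  refine squeeze_zero (fun _ => dist_nonneg) (fun k => ?_) h5
  calc dist (f (xs k)).1 (f x).1 ≤ dist (f (xs k)).1 (b (n k)) + dist (b (n k)) (f x).1 :=
        dist_triangle _ _ _
    _ ≤ 1 / ((k : ℝ) + 1) + dist (b (n k)) (f x).1 := by
        rw [dist_comm (f (xs k)).1]
        linarith [hn2 k]

lemma homeo_of_same [TopologicalSpace.MetrizableSpace U] {a b : ℕ → U} (h : Same a b) :
    Nonempty (closure (range a) ≃ₜ closure (range b)) := by
  have h1 : ∀ x : closure (range a), ∃ y : closure (range b),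
      ∀ ν : ℕ → ℕ, Tendsto (fun k => a (ν k)) atTop (𝓝 x.1) →
        Tendsto (fun k => b (ν k)) atTop (𝓝 y.1) := fun x => by
    obtain ⟨y, hy, hy'⟩ := exists_value h x.2
    exact ⟨⟨y, hy⟩, hy'⟩
  have h2 : ∀ y : closure (range b), ∃ x : closure (range a),
      ∀ ν : ℕ → ℕ, Tendsto (fun k => b (ν k)) atTop (𝓝 y.1) →
        Tendsto (fun k => a (ν k)) atTop (𝓝 x.1) := fun y => by
    obtain ⟨x, hx, hx'⟩ := exists_value h.symm y.2
    exact ⟨⟨x, hx⟩, hx'⟩
  choose f hf using h1
  choose g hg using h2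
  exact ⟨{
    toFun := f
    invFun := g
    left_inv := fun x => by
      obtain ⟨ν, hν⟩ := exists_index x.2
      exact Subtype.ext (tendsto_nhds_unique (hg _ _ (hf _ _ hν)) hν)
    right_inv := fun y => by
      obtain ⟨ν, hν⟩ := exists_index y.2
      exact Subtype.ext (tendsto_nhds_unique (hf _ _ (hg _ _ hν)) hν)
    continuous_toFun := continuous_value f hf
    continuous_invFun := continuous_value g hg }⟩

lemma closure_range_coe {A : Set U} (hA : IsClosed A) {u : ℕ → A} (hu : DenseRange u) :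
    closure (range fun n => (u n : U)) = A := by
  apply Subset.antisymm
  · apply closure_minimal _ hA
    rintro _ ⟨n, rfl⟩
    exact (u n).2
  · intro x hx
    have h1 : (⟨x, hx⟩ : A) ∈ closure (range u) := by
      rw [hu.closure_range]
      trivial
    have h2 := image_closure_subset_closure_image (f := (Subtype.val : A → U))
      continuous_subtype_val ⟨_, h1, rfl⟩
    rw [← range_comp] at h2
    exact h2

lemma cvg_iff {A : Set U} (hA : IsClosed A) (u : ℕ → A) :
    Cvg (fun n => (u n : U)) ↔ Cvg u := by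
  constructor
  · rintro ⟨l, hl⟩
    have hlA : l ∈ A := hA.mem_of_tendsto hl (Eventually.of_forall fun n => (u n).2)
    exact ⟨⟨l, hlA⟩, tendsto_subtype_rng.2 hl⟩
  · rintro ⟨l, hl⟩
    exact ⟨l, (continuous_subtype_val.tendsto l).comp hl⟩

lemma same_of_homeo [SecondCountableTopology U] {A B : Set U} (hA : IsClosed A) (hB : IsClosed B)
    (hne : A.Nonempty) (e : A ≃ₜ B) :
    ∃ a b : ℕ → U, closure (range a) = A ∧ closure (range b) = B ∧ Same a b := by
  have : Nonempty A := hne.to_subtype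
  have hd : DenseRange (TopologicalSpace.denseSeq A) := TopologicalSpace.denseRange_denseSeq A
  have hd' : DenseRange (fun n => e (TopologicalSpace.denseSeq A n)) :=
    e.surjective.denseRange.comp hd e.continuous
  refine ⟨fun n => (TopologicalSpace.denseSeq A n : U),
    fun n => (e (TopologicalSpace.denseSeq A n) : U), closure_range_coe hA hd,
    closure_range_coe hB hd', fun ν => ?_⟩
  rw [cvg_iff hA (fun k => TopologicalSpace.denseSeq A (ν k)),
    cvg_iff hB (fun k => e (TopologicalSpace.denseSeq A (ν k)))]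
  constructor
  · rintro ⟨l, hl⟩
    exact ⟨e l, (e.continuous.tendsto l).comp hl⟩
  · rintro ⟨l, hl⟩
    refine ⟨e.symm l, ?_⟩
    have := (e.symm.continuous.tendsto l).comp hl
    refine this.congr fun k => ?_
    simp

lemma homeo_iff' [PolishSpace U] (A B : ClosedSubsets U) : Homeo U A B ↔
    (A.carrier = ∅ ∧ B.carrier = ∅) ∨ ∃ a b : ℕ → U, closure (range a) = A.carrier ∧
      closure (range b) = B.carrier ∧ Same a b := by
  constructor
  · rintro ⟨e⟩
    rcases A.carrier.eq_empty_or_nonempty with hA | hA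
    · left
      refine ⟨hA, ?_⟩
      rw [Set.eq_empty_iff_forall_notMem]
      intro y hy
      exact Set.eq_empty_iff_forall_notMem.1 hA _ (e.symm ⟨y, hy⟩).2
    · right
      exact same_of_homeo A.isClosed B.isClosed hA e
  · rintro (⟨hA, hB⟩ | ⟨a, b, hA, hB, hab⟩)
    · exact ⟨(Homeomorph.setCongr hA).trans (Homeomorph.setCongr hB.symm)⟩
    · obtain ⟨e⟩ := homeo_of_same hab
      exact ⟨((Homeomorph.setCongr hA.symm).trans e).trans (Homeomorph.setCongr hB)⟩

end topology

section measurability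

variable {U : Type} [TopologicalSpace U]

lemma measurable_meets {O : Set U} (hO : IsOpen O) :
    MeasurableSet {F : ClosedSubsets U | (F.carrier ∩ O).Nonempty} :=
  MeasurableSpace.measurableSet_generateFrom ⟨O, hO, rfl⟩

lemma measurableSet_empty' : MeasurableSet {F : ClosedSubsets U | F.carrier = ∅} := by
  have : {F : ClosedSubsets U | F.carrier = ∅} =
      {F : ClosedSubsets U | (F.carrier ∩ univ).Nonempty}ᶜ := by
    ext F
    change F.carrier = ∅ ↔ ¬ (F.carrier ∩ univ).Nonempty
    rw [inter_univ, not_nonempty_iff_eq_empty]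
  rw [this]
  exact (measurable_meets isOpen_univ).compl

variable [SecondCountableTopology U] [MeasurableSpace U] [BorelSpace U]

lemma measurableSet_closure_eq :
    MeasurableSet {q : ClosedSubsets U × (ℕ → U) | closure (range q.2) = q.1.carrier} := by
  have h1 : {q : ClosedSubsets U × (ℕ → U) | closure (range q.2) = q.1.carrier} =
      ⋂ O ∈ TopologicalSpace.countableBasis U,
        {q : ClosedSubsets U × (ℕ → U) | (q.1.carrier ∩ O).Nonempty ↔ ∃ k, q.2 k ∈ O} := by
    ext ⟨F, a⟩
    simp only [mem_iInter]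
    change closure (range a) = F.carrier ↔
      ∀ O ∈ TopologicalSpace.countableBasis U, ((F.carrier ∩ O).Nonempty ↔ ∃ k, a k ∈ O)
    have hbas := TopologicalSpace.isBasis_countableBasis U
    constructor
    · intro h O hO
      have hOo : IsOpen O := hbas.isOpen hO
      rw [← h]
      constructor
      · rintro ⟨x, hx, hxO⟩
        obtain ⟨_, hy, ⟨k, rfl⟩⟩ := mem_closure_iff.1 hx O hOo hxO
        exact ⟨k, hy⟩
      · rintro ⟨k, hk⟩
        exact ⟨a k, subset_closure ⟨k, rfl⟩, hk⟩
    · intro h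
      apply Subset.antisymm
      · apply closure_minimal _ F.isClosed
        rintro _ ⟨k, rfl⟩
        by_contra hk
        obtain ⟨O, hO, hkO, hsub⟩ := hbas.exists_subset_of_mem_open
          (show a k ∈ F.carrierᶜ from hk) F.isClosed.isOpen_compl
        obtain ⟨x, hx, hxO⟩ := (h O hO).2 ⟨k, hkO⟩
        exact hsub hxO hx
      · intro x hx
        rw [hbas.mem_closure_iff]
        intro O hO hxO
        obtain ⟨k, hk⟩ := (h O hO).1 ⟨x, hx, hxO⟩
        exact ⟨a k, hk, k, rfl⟩
  rw [h1]
  apply MeasurableSet.biInter (TopologicalSpace.countable_countableBasis U)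
  intro O hO
  have hOo : IsOpen O := (TopologicalSpace.isBasis_countableBasis U).isOpen hO
  have e1 : MeasurableSet {q : ClosedSubsets U × (ℕ → U) | (q.1.carrier ∩ O).Nonempty} :=
    measurable_fst (measurable_meets hOo)
  have e2 : MeasurableSet {q : ClosedSubsets U × (ℕ → U) | ∃ k, q.2 k ∈ O} := by
    have : {q : ClosedSubsets U × (ℕ → U) | ∃ k, q.2 k ∈ O} =
        ⋃ k, {q : ClosedSubsets U × (ℕ → U) | q.2 k ∈ O} := by
      ext q
      simp only [mem_iUnion]
      exact Iff.rfl
    rw [this]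
    refine MeasurableSet.iUnion fun k => ?_
    exact ((measurable_pi_apply k).comp measurable_snd) hOo.measurableSet
  have : {q : ClosedSubsets U × (ℕ → U) | (q.1.carrier ∩ O).Nonempty ↔ ∃ k, q.2 k ∈ O} =
      ({q : ClosedSubsets U × (ℕ → U) | (q.1.carrier ∩ O).Nonempty} ∩
        {q : ClosedSubsets U × (ℕ → U) | ∃ k, q.2 k ∈ O}) ∪
      ({q : ClosedSubsets U × (ℕ → U) | (q.1.carrier ∩ O).Nonempty}ᶜ ∩
        {q : ClosedSubsets U × (ℕ → U) | ∃ k, q.2 k ∈ O}ᶜ) := by
    ext q
    change ((q.1.carrier ∩ O).Nonempty ↔ ∃ k, q.2 k ∈ O) ↔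
      (((q.1.carrier ∩ O).Nonempty ∧ ∃ k, q.2 k ∈ O) ∨
        (¬ (q.1.carrier ∩ O).Nonempty ∧ ¬ ∃ k, q.2 k ∈ O))
    tauto
  rw [this]
  exact (e1.inter e2).union (e1.compl.inter e2.compl)

omit [TopologicalSpace U] [SecondCountableTopology U] [BorelSpace U] in
lemma measurable_eval : Measurable (fun q : (ℕ → U) × ℕ => q.1 q.2) := by
  apply measurable_from_prod_countable_left
  intro n
  exact measurable_pi_apply n

omit [SecondCountableTopology U] in
lemma measurableSet_cvg [PolishSpace U] :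
    MeasurableSet {q : (ℕ → U) × (ℕ → ℕ) | Cvg (fun k => q.1 (q.2 k))} := by
  apply MeasureTheory.measurableSet_exists_tendsto
  intro k
  have h1 : Measurable (fun q : (ℕ → U) × (ℕ → ℕ) => (q.1, q.2 k)) :=
    measurable_fst.prodMk ((measurable_pi_apply k).comp measurable_snd)
  exact measurable_eval.comp h1

end measurability

/-- **The homeomorphism relation between Polish spaces is `Σ¹₂`.** -/
theorem isSigma12_homeo (U : Type) [TopologicalSpace U] [PolishSpace U] :
    IsSigma12 (graph (Homeo U)) := by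
  borelize U
  rcases isEmpty_or_nonempty U with hU | hU
  · have h1 : ∀ p, p ∈ graph (Homeo U) := by
      intro p
      refine ⟨Homeomorph.setCongr ?_⟩
      rw [Set.eq_empty_of_isEmpty p.1.carrier, Set.eq_empty_of_isEmpty p.2.carrier]
    refine ⟨univ, ⟨∅, MeasurableSet.empty, ?_⟩, ?_⟩
    · ext x
      simp
    · ext p
      exact ⟨fun _ => ⟨fun _ => 0, trivial⟩, fun _ => h1 p⟩
  · obtain ⟨s, hs, hsurj⟩ :=
      PolishSpace.exists_nat_nat_continuous_surjective ((ℕ → U) × (ℕ → U))
    let V : Type := (ClosedSubsets U × ClosedSubsets U) × (ℕ → ℕ)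
    let C0 : Set (V × (ℕ → ℕ)) := {q | q.1.1.1.carrier = ∅ ∧ q.1.1.2.carrier = ∅}
    let C1 : Set (V × (ℕ → ℕ)) := {q | closure (range (s q.1.2).1) = q.1.1.1.carrier ∧
      closure (range (s q.1.2).2) = q.1.1.2.carrier}
    let C2 : Set (V × (ℕ → ℕ)) := {q | Cvg (fun k => (s q.1.2).1 (q.2 k)) ↔
      Cvg (fun k => (s q.1.2).2 (q.2 k))}
    have hsm : Measurable s := hs.measurable
    have hC0 : MeasurableSet C0 := by
      apply MeasurableSet.inter
      · exact (measurable_fst.comp (measurable_fst.comp measurable_fst)) measurableSet_empty'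
      · exact (measurable_snd.comp (measurable_fst.comp measurable_fst)) measurableSet_empty'
    have hC1 : MeasurableSet C1 := by
      apply MeasurableSet.inter
      · have : Measurable (fun q : V × (ℕ → ℕ) => (q.1.1.1, (s q.1.2).1)) :=
          (measurable_fst.comp (measurable_fst.comp measurable_fst)).prodMk
            (measurable_fst.comp (hsm.comp (measurable_snd.comp measurable_fst)))
        exact this measurableSet_closure_eq
      · have : Measurable (fun q : V × (ℕ → ℕ) => (q.1.1.2, (s q.1.2).2)) :=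
          (measurable_snd.comp (measurable_fst.comp measurable_fst)).prodMk
            (measurable_snd.comp (hsm.comp (measurable_snd.comp measurable_fst)))
        exact this measurableSet_closure_eq
    have hC2 : MeasurableSet C2 := by
      have e1 : MeasurableSet {q : V × (ℕ → ℕ) | Cvg (fun k => (s q.1.2).1 (q.2 k))} := by
        have : Measurable (fun q : V × (ℕ → ℕ) => ((s q.1.2).1, q.2)) :=
          (measurable_fst.comp (hsm.comp (measurable_snd.comp measurable_fst))).prodMk
            measurable_snd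
        exact this measurableSet_cvg
      have e2 : MeasurableSet {q : V × (ℕ → ℕ) | Cvg (fun k => (s q.1.2).2 (q.2 k))} := by
        have : Measurable (fun q : V × (ℕ → ℕ) => ((s q.1.2).2, q.2)) :=
          (measurable_snd.comp (hsm.comp (measurable_snd.comp measurable_fst))).prodMk
            measurable_snd
        exact this measurableSet_cvg
      have e3 : C2 = ({q : V × (ℕ → ℕ) | Cvg (fun k => (s q.1.2).1 (q.2 k))} ∩
          {q : V × (ℕ → ℕ) | Cvg (fun k => (s q.1.2).2 (q.2 k))}) ∪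
          ({q : V × (ℕ → ℕ) | Cvg (fun k => (s q.1.2).1 (q.2 k))}ᶜ ∩
          {q : V × (ℕ → ℕ) | Cvg (fun k => (s q.1.2).2 (q.2 k))}ᶜ) := by
        ext q
        change (Cvg (fun k => (s q.1.2).1 (q.2 k)) ↔ Cvg (fun k => (s q.1.2).2 (q.2 k))) ↔
          ((Cvg (fun k => (s q.1.2).1 (q.2 k)) ∧ Cvg (fun k => (s q.1.2).2 (q.2 k))) ∨
            (¬ Cvg (fun k => (s q.1.2).1 (q.2 k)) ∧ ¬ Cvg (fun k => (s q.1.2).2 (q.2 k))))
        tauto
      rw [e3]
      exact (e1.inter e2).union (e1.compl.inter e2.compl)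
    refine ⟨{v : V | ∀ ν : ℕ → ℕ, (v, ν) ∈ C0 ∪ (C1 ∩ C2)},
      ⟨(C0 ∪ (C1 ∩ C2))ᶜ, (hC0.union (hC1.inter hC2)).compl, ?_⟩, ?_⟩
    · ext v
      change (¬ ∀ ν : ℕ → ℕ, (v, ν) ∈ C0 ∪ (C1 ∩ C2)) ↔ ∃ ν : ℕ → ℕ, ¬ ((v, ν) ∈ C0 ∪ (C1 ∩ C2))
      exact not_forall
    · ext ⟨A, B⟩
      change Homeo U A B ↔ ∃ z : ℕ → ℕ, ∀ ν : ℕ → ℕ,
        (A.carrier = ∅ ∧ B.carrier = ∅) ∨ ((closure (range (s z).1) = A.carrier ∧
          closure (range (s z).2) = B.carrier) ∧
          (Cvg (fun k => (s z).1 (ν k)) ↔ Cvg (fun k => (s z).2 (ν k))))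
      rw [homeo_iff']
      constructor
      · rintro (h | ⟨a, b, hA, hB, hab⟩)
        · exact ⟨fun _ => 0, fun _ => Or.inl h⟩
        · obtain ⟨z, hz⟩ := hsurj (a, b)
          refine ⟨z, fun ν => Or.inr ?_⟩
          rw [hz]
          exact ⟨⟨hA, hB⟩, hab ν⟩
      · rintro ⟨z, hz⟩
        by_cases h0 : A.carrier = ∅ ∧ B.carrier = ∅
        · exact Or.inl h0
        · right
          have h1 : ∀ ν : ℕ → ℕ, ((closure (range (s z).1) = A.carrier ∧
              closure (range (s z).2) = B.carrier) ∧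
              (Cvg (fun k => (s z).1 (ν k)) ↔ Cvg (fun k => (s z).2 (ν k)))) := fun ν =>
            (hz ν).resolve_left h0
          exact ⟨(s z).1, (s z).2, (h1 id).1.1, (h1 id).1.2, fun ν => (h1 ν).2⟩

end Pool.Agent.H73.PolishHomeo
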